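import Pool.Agent.Helper21.EM.PBase

/-!
# T33: KTR (port to `RMot` of helper91's file)
-/

set_option autoImplicit false

open MR
open NumberField MU MT HD Filter Topology

open HG.Kt91 hiding Hs mem_Hs isOpen_Hs main

namespace EM

namespace Kt



variable {F : Type} [Field F] [NumberField F] {n w : ℕ} {h : Fin n → ℕ}

/-- the Galois elements whose action is the identity modulo `l²` -/
def Hs (M : RMot F n w h) (l : ℕ) [Fact l.Prime] (a b : ℕ) : Subgroup (Gal F) where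
  carrier := {g | Nr (actH a b (M.ρ l g)) ∧ Nr (vecH (M.ρ l g))}
  mul_mem' := by
    rintro g g' ⟨h1, h2⟩ ⟨h3, h4⟩
    refine ⟨?_, ?_⟩
    · rw [map_mul, map_mul]
      exact h1.mul h3
    · rw [map_mul, map_mul]
      exact h2.mul h4
  one_mem' := by
    refine ⟨?_, ?_⟩
    · rw [map_one, map_one]
      exact Nr.one
    · rw [map_one, map_one]
      exact Nr.one
  inv_mem' := by
    rintro g ⟨h1, h2⟩
    refine ⟨h1.inv ?_, h2.inv ?_⟩
    · rw [← map_mul, ← map_mul, mul_inv_cancel, map_one, map_one]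
    · rw [← map_mul, ← map_mul, mul_inv_cancel, map_one, map_one]

theorem mem_Hs {M : RMot F n w h} {l : ℕ} [Fact l.Prime] {a b : ℕ} {g : Gal F} :
    g ∈ Hs M l a b ↔ Nr (actH a b (M.ρ l g)) ∧ Nr (vecH (M.ρ l g)) := Iff.rfl

theorem isOpen_Hs (M : RMot F n w h) (l : ℕ) [Fact l.Prime] (a b : ℕ) :
    IsOpen (Hs M l a b : Set (Gal F)) := by
  have hc := M.continuous l
  have hc1 : Continuous fun g : Gal F => ((M.ρ l g : Matrix.GeneralLinearGroup (Fin n) ℚ_[l]) :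
      Matrix (Fin n) (Fin n) ℚ_[l]) := Units.continuous_val.comp hc
  have hc2 : Continuous fun g : Gal F =>
      (((M.ρ l g)⁻¹ : Matrix.GeneralLinearGroup (Fin n) ℚ_[l]) :
        Matrix (Fin n) (Fin n) ℚ_[l]) := Units.continuous_val.comp (continuous_inv.comp hc)
  have hpos : (0 : ℝ) < ((l : ℝ) ^ 2)⁻¹ := by
    have := (Fact.out : l.Prime).pos
    positivity
  have key : ∀ f : Gal F → ℚ_[l], Continuous f → ∀ᶠ g in 𝓝 (1 : Gal F),
      ‖f g - f 1‖ ≤ ((l : ℝ) ^ 2)⁻¹ := by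
    intro f hf
    have h1 : Tendsto (fun g => ‖f g - f 1‖) (𝓝 (1 : Gal F)) (𝓝 ‖f 1 - f 1‖) :=
      (hf.sub continuous_const).norm.tendsto 1
    rw [sub_self, norm_zero] at h1
    exact h1.eventually (Iic_mem_nhds hpos)
  refine Subgroup.isOpen_of_mem_nhds _ (g := 1) ?_
  have e1 : ∀ᶠ g in 𝓝 (1 : Gal F), ∀ (i i' : Fin a → Fin n) (j j' : Fin b → Fin n),
      ‖cf (M.ρ l g) i i' j j' - cf 1 i i' j j'‖ ≤ ((l : ℝ) ^ 2)⁻¹ := by
    rw [eventually_all]
    intro i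
    rw [eventually_all]
    intro i'
    rw [eventually_all]
    intro j
    rw [eventually_all]
    intro j'
    have h2 : Continuous fun g : Gal F => cf (M.ρ l g) i i' j j' := by
      unfold cf
      exact (continuous_finsetProd _ fun s _ => hc1.matrix_elem _ _).mul
        (continuous_finsetProd _ fun s _ => hc2.matrix_elem _ _)
    have h3 := key _ h2
    simp only [map_one] at h3
    exact h3
  have e2 : ∀ᶠ g in 𝓝 (1 : Gal F), ∀ i j : Fin n,
      ‖((M.ρ l g : Matrix.GeneralLinearGroup (Fin n) ℚ_[l]) : Matrix (Fin n) (Fin n) ℚ_[l]) i j -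
        (1 : Matrix (Fin n) (Fin n) ℚ_[l]) i j‖ ≤ ((l : ℝ) ^ 2)⁻¹ := by
    rw [eventually_all]
    intro i
    rw [eventually_all]
    intro j
    have h3 := key _ (hc1.matrix_elem i j)
    simp only [map_one, Units.val_one] at h3
    exact h3
  filter_upwards [e1, e2] with g h1 h2
  exact ⟨nr_act a b _ h1, nr_vec _ h2⟩

theorem lim_A (l : ℕ) [Fact l.Prime] (g : Matrix.GeneralLinearGroup (Fin n) ℚ_[l])
    (hg : Nr (vecH g)) : ∃ (A : Matrix (Fin n) (Fin n) ℚ_[l]) (φ : ℕ → ℕ), StrictMono φ ∧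
      ∀ i j, Dr (fun m => (l : ℚ_[l]) ^ φ m)
        (fun m => ((g : Matrix (Fin n) (Fin n) ℚ_[l]) ^ (l ^ φ m)) i j)
        ((1 : Matrix (Fin n) (Fin n) ℚ_[l]) i j) (A i j) := by
  have hl : 0 < l := (Fact.out : l.Prime).pos
  let Am : ℕ → (Fin n → Fin n → ℚ_[l]) := fun m i j =>
    (((g : Matrix (Fin n) (Fin n) ℚ_[l]) ^ (l ^ m)) i j -
      (1 : Matrix (Fin n) (Fin n) ℚ_[l]) i j) / (l : ℚ_[l]) ^ m
  have hbd : ∀ m, Am m ∈ Metric.closedBall (0 : Fin n → Fin n → ℚ_[l]) 1 := by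
    intro m
    rw [mem_closedBall_zero_iff, pi_norm_le_iff_of_nonneg zero_le_one]
    intro i
    rw [pi_norm_le_iff_of_nonneg zero_le_one]
    intro j
    change ‖(((g : Matrix (Fin n) (Fin n) ℚ_[l]) ^ (l ^ m)) i j -
      (1 : Matrix (Fin n) (Fin n) ℚ_[l]) i j) / (l : ℚ_[l]) ^ m‖ ≤ 1
    rw [norm_div, norm_pow, Padic.norm_p, inv_pow, div_inv_eq_mul]
    calc _ ≤ ((l : ℝ) ^ m)⁻¹ * (l : ℝ) ^ m :=
          mul_le_mul_of_nonneg_right (vec_pow hg m i j) (by positivity)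
      _ = 1 := inv_mul_cancel₀ (by positivity)
  obtain ⟨A0, -, φ, hφ, hlim⟩ := tendsto_subseq_of_bounded Metric.isBounded_closedBall hbd
  refine ⟨Matrix.of A0, φ, hφ, ?_⟩
  intro i j
  exact tendsto_pi_nhds.1 (tendsto_pi_nhds.1 hlim i) j

theorem main (M : RMot F n w h) (l : ℕ) [Fact l.Prime] (a b : ℕ) (t : Tensor n a b ℚ_[l])
    (hk : ∀ A ∈ glie M l, Kill A t) (g : Gal F) (hg : g ∈ Hs M l a b) :
    act (M.ρ l g) t = t := by
  obtain ⟨hga, hgv⟩ := mem_Hs.1 hg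
  have hl : 0 < l := (Fact.out : l.Prime).pos
  have hl0 : (l : ℚ_[l]) ≠ 0 := by exact_mod_cast (Fact.out : l.Prime).ne_zero
  obtain ⟨A, φ, hφ, hY⟩ := lim_A l (M.ρ l g) hgv
  set q : ℕ → ℚ_[l] := fun m => (l : ℚ_[l]) ^ φ m with hqdef
  have hq0 : ∀ m, q m ≠ 0 := fun m => pow_ne_zero _ hl0
  have hq : Tendsto q atTop (𝓝 0) := by
    have h1 : Tendsto (fun m : ℕ => (l : ℚ_[l]) ^ m) atTop (𝓝 0) := by
      apply tendsto_pow_atTop_nhds_zero_of_norm_lt_one
      rw [Padic.norm_p]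
      have h2 : (1 : ℝ) < l := by exact_mod_cast (Fact.out : l.Prime).one_lt
      exact inv_lt_one_of_one_lt₀ h2
    exact h1.comp hφ.tendsto_atTop
  set Y : ℕ → Matrix (Fin n) (Fin n) ℚ_[l] := fun m =>
    ((M.ρ l g : Matrix.GeneralLinearGroup (Fin n) ℚ_[l]) : Matrix (Fin n) (Fin n) ℚ_[l]) ^
      (l ^ φ m) with hYdef
  have hYg : ∀ m, Y m = ((M.ρ l (g ^ (l ^ φ m)) : Matrix.GeneralLinearGroup (Fin n) ℚ_[l]) :
      Matrix (Fin n) (Fin n) ℚ_[l]) := by
    intro m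
    rw [map_pow, Units.val_pow_eq_pow_val]
  have hA : A ∈ glie M l := by
    unfold glie
    rw [Submodule.mem_iInf]
    intro H
    rw [Submodule.mem_iInf]
    intro hH f hf
    obtain ⟨H₁, hle, -, -, e, he, hHe⟩ := exists_core H hH
    have h1 := dr_ev hq hq0 (fun m => Y m ^ e) ((e : ℚ_[l]) • A)
      (dr_pow hq hq0 Y A hY e) f
    have h2 : ∀ m, ev (Y m ^ e) f = 0 := by
      intro m
      have h3 : Y m ^ e = ((M.ρ l ((g ^ e) ^ (l ^ φ m)) :
          Matrix.GeneralLinearGroup (Fin n) ℚ_[l]) : Matrix (Fin n) (Fin n) ℚ_[l]) := by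
        rw [hYg, ← pow_mul, mul_comm, pow_mul, ← Units.val_pow_eq_pow_val, ← map_pow]
      rw [h3]
      exact hf _ ⟨_, pow_mem (hle (hHe g)) _, rfl⟩
    have h5 : ev (1 : Matrix (Fin n) (Fin n) ℚ_[l]) f = 0 := by
      have := hf 1 (one_mem _)
      rwa [Units.val_one] at this
    have h6 : Tendsto (fun m => (ev (Y m ^ e) f - ev (1 : Matrix (Fin n) (Fin n) ℚ_[l]) f) / q m)
        atTop (𝓝 0) := by
      simp only [h2, h5, sub_zero, zero_div]
      exact tendsto_const_nhds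
    have h7 := tendsto_nhds_unique h1 h6
    have h8 : (e : ℚ_[l]) * ∑ i, ∑ j, A i j *
        ev (1 : Matrix (Fin n) (Fin n) ℚ_[l]) (MvPolynomial.pderiv (i, j) f) = 0 := by
      rw [← h7, Finset.mul_sum]
      refine Finset.sum_congr rfl fun i _ => ?_
      rw [Finset.mul_sum]
      refine Finset.sum_congr rfl fun j _ => ?_
      rw [Matrix.smul_apply, smul_eq_mul, mul_assoc]
    have he0 : (e : ℚ_[l]) ≠ 0 := by
      have : e ≠ 0 := by omega
      exact_mod_cast this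
    exact (mul_eq_zero.1 h8).resolve_left he0
  have hkA := hk A hA
  have hΦ : ∀ i j, Tendsto (fun m => (tp a (Y m) * (Matrix.of t : Matrix (Fin a → Fin n)
      (Fin b → Fin n) ℚ_[l]) - Matrix.of t * tp b (Y m)) i j / q m) atTop (𝓝 0) := by
    intro i j
    have h1 := Dr.sum Finset.univ fun k _ =>
      Dr.mul hq hq0 (dr_tp hq hq0 Y A hY a i k) (Dr.const q (t k j))
    have h2 := Dr.sum Finset.univ fun k _ =>
      Dr.mul hq hq0 (Dr.const q (t i k)) (dr_tp hq hq0 Y A hY b k j)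
    have h3 := h1.sub h2
    have h4 : (∑ k, (1 : Matrix (Fin a → Fin n) (Fin a → Fin n) ℚ_[l]) i k * t k j) -
        ∑ k, t i k * (1 : Matrix (Fin b → Fin n) (Fin b → Fin n) ℚ_[l]) k j = 0 := by
      have h5 : (∑ k, (1 : Matrix (Fin a → Fin n) (Fin a → Fin n) ℚ_[l]) i k * t k j) =
          ((1 : Matrix (Fin a → Fin n) (Fin a → Fin n) ℚ_[l]) * (Matrix.of t :
            Matrix (Fin a → Fin n) (Fin b → Fin n) ℚ_[l])) i j := rfl
      have h6 : ∑ k, t i k * (1 : Matrix (Fin b → Fin n) (Fin b → Fin n) ℚ_[l]) k j =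
          ((Matrix.of t : Matrix (Fin a → Fin n) (Fin b → Fin n) ℚ_[l]) *
            (1 : Matrix (Fin b → Fin n) (Fin b → Fin n) ℚ_[l])) i j := rfl
      rw [h5, h6, Matrix.one_mul, Matrix.mul_one, sub_self]
    have h7 : (∑ k, (dtp a A i k * t k j +
        (1 : Matrix (Fin a → Fin n) (Fin a → Fin n) ℚ_[l]) i k * 0)) -
        ∑ k, (0 * (1 : Matrix (Fin b → Fin n) (Fin b → Fin n) ℚ_[l]) k j +
          t i k * dtp b A k j) = 0 := by
      have h8 : (dtp a A * (Matrix.of t : Matrix (Fin a → Fin n) (Fin b → Fin n) ℚ_[l])) i j =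
        ((Matrix.of t : Matrix (Fin a → Fin n) (Fin b → Fin n) ℚ_[l]) * dtp b A) i j :=
          congrFun (congrFun hkA i) j
      simp only [mul_zero, add_zero, zero_mul, zero_add]
      rw [sub_eq_zero]
      exact h8
    rw [h4, h7] at h3
    refine Tendsto.congr (fun m => ?_) h3
    beta_reduce
    rw [sub_zero]
    rfl
  have hmem : ∀ m, g ^ (l ^ φ m) ∈ Hs M l a b := fun m => pow_mem hg _
  have hbd : ∀ m (k j : Fin b → Fin n), ‖tp b
      (((M.ρ l (g ^ (l ^ φ m)))⁻¹ : Matrix.GeneralLinearGroup (Fin n) ℚ_[l]) :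
        Matrix (Fin n) (Fin n) ℚ_[l]) k j‖ ≤ 1 := by
    intro m k j
    have h1 := (mem_Hs.1 (inv_mem (hmem m))).2
    rw [map_inv] at h1
    unfold MT.tp
    rw [norm_prod]
    exact Finset.prod_le_one (fun _ _ => norm_nonneg _) fun s _ => vec_entry h1 (k s) (j s)
  have hlim2 : Tendsto (fun m => (q m)⁻¹ • (act (M.ρ l (g ^ (l ^ φ m))) t - t)) atTop
      (𝓝 (0 : Tensor n a b ℚ_[l])) := by
    rw [tendsto_pi_nhds]
    intro i
    rw [tendsto_pi_nhds]
    intro j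
    have h1 : ∀ m, ((q m)⁻¹ • (act (M.ρ l (g ^ (l ^ φ m))) t - t)) i j =
        ∑ k, ((tp a (Y m) * (Matrix.of t : Matrix (Fin a → Fin n)
          (Fin b → Fin n) ℚ_[l]) - Matrix.of t * tp b (Y m)) i k / q m) * tp b
            (((M.ρ l (g ^ (l ^ φ m)))⁻¹ : Matrix.GeneralLinearGroup (Fin n) ℚ_[l]) :
              Matrix (Fin n) (Fin n) ℚ_[l]) k j := by
      intro m
      have h2 : (Matrix.of (act (M.ρ l (g ^ (l ^ φ m))) t) :
          Matrix (Fin a → Fin n) (Fin b → Fin n) ℚ_[l]) - Matrix.of t =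
          (tp a (Y m) * (Matrix.of t : Matrix (Fin a → Fin n)
            (Fin b → Fin n) ℚ_[l]) - Matrix.of t * tp b (Y m)) * tp b
            (((M.ρ l (g ^ (l ^ φ m)))⁻¹ : Matrix.GeneralLinearGroup (Fin n) ℚ_[l]) :
              Matrix (Fin n) (Fin n) ℚ_[l]) := by
        rw [of_act, Matrix.sub_mul, Matrix.mul_assoc (Matrix.of t), hYg, tp_inv_right,
          Matrix.mul_one]
      have h3 := congrFun (congrFun h2 i) j
      rw [Matrix.mul_apply] at h3
      have h4 : ((q m)⁻¹ • (act (M.ρ l (g ^ (l ^ φ m))) t - t)) i j =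
          (q m)⁻¹ * ((Matrix.of (act (M.ρ l (g ^ (l ^ φ m))) t) :
            Matrix (Fin a → Fin n) (Fin b → Fin n) ℚ_[l]) - Matrix.of t) i j := rfl
      rw [h4, h3, Finset.mul_sum]
      refine Finset.sum_congr rfl fun k _ => ?_
      rw [div_eq_inv_mul, mul_assoc]
    simp only [h1]
    have h5 : ((0 : Tensor n a b ℚ_[l]) i j) = ∑ k : Fin b → Fin n, (0 : ℚ_[l]) := by simp
    rw [h5]
    refine tendsto_finsetSum _ fun k _ => ?_
    refine squeeze_zero_norm (fun m => ?_) ((hΦ i k).norm.trans (by rw [norm_zero]))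
    rw [norm_mul]
    calc _ ≤ _ * 1 := mul_le_mul_of_nonneg_left (hbd m k j) (norm_nonneg _)
      _ = _ := mul_one _
  have hconst : ∀ m, ‖(q m)⁻¹ • (act (M.ρ l (g ^ (l ^ φ m))) t - t)‖ =
      ‖act (M.ρ l g) t - t‖ := by
    intro m
    have h1 := hga.iso (φ m) t
    rw [← map_pow, ← map_pow, actH_apply, actH_apply] at h1
    rw [norm_smul, h1, norm_inv, norm_pow, Padic.norm_p]
    have : (0 : ℝ) < (l : ℝ) ^ φ m := by positivity
    rw [inv_pow, inv_inv, ← mul_assoc, mul_inv_cancel₀ this.ne', one_mul]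
  have hn := hlim2.norm
  simp only [hconst, norm_zero] at hn
  have h0 := tendsto_nhds_unique hn tendsto_const_nhds
  exact sub_eq_zero.1 (norm_eq_zero.1 h0.symm)

end Kt

/-- KTR. -/
theorem st_KTR : ST_KTR := by
  intro F _ _ n w h M l _ a b t hk
  exact ⟨Kt.Hs M l a b, Kt.isOpen_Hs M l a b, fun g hg => Kt.main M l a b t hk g hg⟩

end EM
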