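import Pool.Agent.Helper21.EM.PBase

/-!
# T33: TKR, HKR (port to `RMot` of helper19's files)
-/

set_option autoImplicit false

open NumberField MU MT MR HD

namespace EM

theorem st_TKR : ST_TKR := by
  intro F _ _ n w h M l _ a b t ht A hA
  obtain ⟨H, hH, hfix⟩ := ht
  have hA' : A ∈ LieZ (H.map (M.ρ l)) := by
    have := hA
    unfold glie at this
    rw [Submodule.mem_iInf] at this
    have h1 := this H
    rw [Submodule.mem_iInf] at h1
    exact h1 hH
  unfold Kill
  rw [← sub_eq_zero]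
  ext i j
  rw [← HG.tk_tenEq, ev_one_ldv, Matrix.zero_apply]
  refine hA' _ ?_
  rintro x ⟨g, hg, rfl⟩
  have h1 := (act_fix_iff _ _).1 (hfix g hg)
  rw [ev_tenEq]
  have h2 : (Matrix.of t : Matrix (Fin a → Fin n) (Fin b → Fin n) ℚ_[l]).map
      (algebraMap ℚ_[l] ℚ_[l]) = Matrix.of t := by
    ext p q
    simp
  rw [h2, h1, sub_self, Matrix.zero_apply]

section

variable {F : Type} [Field F] [NumberField F] {n w : ℕ} {h : Fin n → ℕ}

theorem hk_spn (M : RMot F n w h) {a b : ℕ} (t : Tensor n a b ℚ)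
    (ht : ∀ A ∈ mlie M, Kill A t) (X : Matrix (Fin n) (Fin n) ℂ) (hX : X ∈ spn ℂ (mlie M)) :
    Kill X (t.base ℂ) := by
  unfold spn at hX
  induction hX using Submodule.span_induction with
  | mem x hx =>
    obtain ⟨A, hA, rfl⟩ := hx
    have h1 := (ht A hA).map (algebraMap ℚ ℂ)
    have h2 : (fun i j => algebraMap ℚ ℂ (t i j) : Tensor n a b ℂ) = t.base ℂ := by
      funext i j
      simp [Tensor.base]
    rw [h2] at h1
    exact h1
  | zero => exact kill_zero _
  | add x y _ _ hx hy => exact hx.add hy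
  | smul c x _ hx => exact hx.smul c

theorem base_zero' {a b : ℕ} : (0 : Tensor n a b ℚ).base ℂ = 0 := by
  funext i j
  simp [Tensor.base]

theorem hk_one (M : RMot F n w h) (hw : 0 < w) :
    (1 : Matrix (Fin n) (Fin n) ℂ) ∈ spn ℂ (mlie M) := by
  refine (mem_spn_mlie M 1).2 fun a b t ht => ?_
  rcases (st_HOD n w h M.hodge a b t hw M.hodge_le ht).1 with h1 | h1
  · subst h1
    exact kill_one _
  · subst h1
    rw [base_zero']
    exact kill_zero_tensor _

theorem hk_theta (M : RMot F n w h) (hw : 0 < w) :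
    (M.hodge : Matrix (Fin n) (Fin n) ℂ) * Matrix.diagonal (fun j => (h j : ℂ)) *
        ((M.hodge⁻¹ : Matrix.GeneralLinearGroup (Fin n) ℂ) : Matrix (Fin n) (Fin n) ℂ) ∈
      spn ℂ (mlie M) :=
  (mem_spn_mlie M _).2 fun a b t ht => (st_HOD n w h M.hodge a b t hw M.hodge_le ht).2

end


theorem st_HKR : ST_HKR := by
  intro F _ _ n w h M hw a b t ht z
  have hk1 := hk_spn M t ht _ (hk_one M hw)
  have hk2 := hk_spn M t ht _ (hk_theta M hw)
  set B := M.hodge with hB
  set s : Tensor n a b ℂ := act B⁻¹ (t.base ℂ) with hs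
  have hBs : act B s = t.base ℂ := by rw [hs, act_mul, mul_inv_cancel, act_one]
  have hs1 : Kill (1 : Matrix (Fin n) (Fin n) ℂ) s := by
    have h1 := hk1.conj B⁻¹
    rw [Matrix.mul_one, inv_inv, Units.inv_mul] at h1
    exact h1
  have hs2 : Kill (Matrix.diagonal (fun j => (h j : ℂ))) s := by
    have h1 := hk2.conj B⁻¹
    have h2 : ((B⁻¹ : Matrix.GeneralLinearGroup (Fin n) ℂ) : Matrix (Fin n) (Fin n) ℂ) *
        ((B : Matrix (Fin n) (Fin n) ℂ) * Matrix.diagonal (fun j => (h j : ℂ)) *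
        ((B⁻¹ : Matrix.GeneralLinearGroup (Fin n) ℂ) : Matrix (Fin n) (Fin n) ℂ)) *
        ((B⁻¹⁻¹ : Matrix.GeneralLinearGroup (Fin n) ℂ) : Matrix (Fin n) (Fin n) ℂ) =
        Matrix.diagonal (fun j => (h j : ℂ)) := by
      rw [inv_inv]
      simp only [Matrix.mul_assoc]
      rw [Units.inv_mul, Matrix.mul_one, ← Matrix.mul_assoc, Units.inv_mul, Matrix.one_mul]
    rw [h2] at h1
    exact h1
  have hab : ∀ i j, s i j ≠ 0 → a = b := by
    intro i j hij
    unfold Kill at hs1
    rw [dtp_one, dtp_one, Matrix.smul_mul, Matrix.mul_smul, Matrix.one_mul, Matrix.mul_one] at hs1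
    have h1 := congrFun (congrFun hs1 i) j
    rw [Matrix.smul_apply, Matrix.smul_apply, Matrix.of_apply, smul_eq_mul, smul_eq_mul] at h1
    have h2 := mul_right_cancel₀ hij h1
    exact_mod_cast h2
  have heq : ∀ i j, s i j ≠ 0 → (∑ k, h (i k)) = ∑ k, h (j k) := by
    intro i j hij
    unfold Kill at hs2
    rw [dtp_diagonal, dtp_diagonal] at hs2
    have h1 := congrFun (congrFun hs2 i) j
    rw [Matrix.diagonal_mul, Matrix.mul_diagonal, Matrix.of_apply] at h1
    have h2 := mul_right_cancel₀ hij (h1.trans (mul_comm _ _))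
    exact_mod_cast h2
  have hsum : ∀ (c : ℕ) (i : Fin c → Fin n), (∑ k, h (i k)) + (∑ k, (w - h (i k))) = c * w := by
    intro c i
    rw [← Finset.sum_add_distrib]
    have : ∀ k ∈ (Finset.univ : Finset (Fin c)), h (i k) + (w - h (i k)) = w := by
      intro k _
      have := M.hodge_le (i k)
      omega
    rw [Finset.sum_congr rfl this, Finset.sum_const, Finset.card_univ, Fintype.card_fin,
      smul_eq_mul]
  have heq' : ∀ i j, s i j ≠ 0 → (∑ k, (w - h (i k))) = ∑ k, (w - h (j k)) := by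
    intro i j hij
    have h1 := heq i j hij
    have h2 := hsum a i
    have h3 := hsum b j
    have h4 : a * w = b * w := by rw [hab i j hij]
    omega
  have hprod : ∀ (c : ℕ) (i : Fin c → Fin n) (z : ℂ),
      (∏ k, (z ^ h (i k) * (starRingEnd ℂ) z ^ (w - h (i k)))) =
        z ^ (∑ k, h (i k)) * (starRingEnd ℂ) z ^ (∑ k, (w - h (i k))) := by
    intro c i z
    rw [Finset.prod_mul_distrib, Finset.prod_pow_eq_pow_sum, Finset.prod_pow_eq_pow_sum]
  have hfix : act (B⁻¹ * hz B h w z * B) s = s := by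
    rw [act_fix_iff]
    have h2 : ((B⁻¹ * hz B h w z * B : Matrix.GeneralLinearGroup (Fin n) ℂ) :
        Matrix (Fin n) (Fin n) ℂ) =
        Matrix.diagonal (fun j => (z : ℂ) ^ h j * (starRingEnd ℂ) (z : ℂ) ^ (w - h j)) := by
      rw [Units.val_mul, Units.val_mul, HD.hz_coe]
      simp only [Matrix.mul_assoc]
      rw [Units.inv_mul, Matrix.mul_one, ← Matrix.mul_assoc, Units.inv_mul, Matrix.one_mul]
    rw [h2, tp_diagonal, tp_diagonal]
    ext i j
    rw [Matrix.diagonal_mul, Matrix.mul_diagonal, Matrix.of_apply]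
    by_cases hij : s i j = 0
    · rw [hij, mul_zero, zero_mul]
    · rw [hprod, hprod, heq i j hij, heq' i j hij, mul_comm]
  have h3 : hz B h w z * B = B * (B⁻¹ * hz B h w z * B) := by
    group
  calc act (hz B h w z) (t.base ℂ) = act (hz B h w z * B) s := by rw [← hBs, act_mul]
    _ = act B (act (B⁻¹ * hz B h w z * B) s) := by
        conv_lhs => rw [h3]
        exact (act_mul B (B⁻¹ * hz B h w z * B) s).symm
    _ = t.base ℂ := by rw [hfix, hBs]

end EM
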