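import Pool.Agent.Helper21.EM.FINB
import Pool.Agent.Helper21.EM.PTK
import Pool.Agent.Helper21.EM.PKT
import Pool.Agent.Helper21.WE.FinalO
import Pool.Agent.Helper5.EM.AUT
import Pool.Agent.Helper61.EM.BCH
import Pool.Agent.Helper61.EM.TRB
import Pool.Agent.Helper31.EM.COO
import Pool.Agent.Helper31.EM.IDM
import Pool.Agent.Helper54.EM.CORE
import Pool.Agent.Helper91.EM.CPL
import Pool.Agent.Helper91.EM.DIM
import Pool.Agent.Helper91.EM.PRM
import Pool.Agent.Helper51.EM.ETY
import Pool.Agent.Helper82.EM.EXH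
import Pool.Agent.Helper82.EM.HLC
import Pool.Agent.Helper82.EM.SIMC
import Pool.Agent.Helper72.EM.FDR
import Pool.Agent.Helper72.EM.LAM2
import Pool.Agent.Helper72.EM.PAR
import Pool.Agent.Helper72.EM.PFO
import Pool.Agent.Helper72.EM.PRC
import Pool.Agent.Helper84.EM.FINA
import Pool.Agent.Helper39.EM.GNT
import Pool.Agent.Helper39.EM.TWO2
import Pool.Agent.Helper57.EM.HCM
import Pool.Agent.Helper57.EM.LTR
import Pool.Agent.Helper65.EM.LNC
import Pool.Agent.Helper25.EM.NRM
import Pool.Agent.Helper25.EM.RIB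
import Pool.Agent.Helper11.EM.SPO
import Pool.Agent.Helper11.EM.SPS
import Pool.Agent.Helper97.EM.BFM
import Pool.Agent.Helper97.EM.IRB
import Pool.Agent.Helper97.EM.WID
import Pool.Agent.Helper97.EM.LNR
import Pool.Agent.Helper74.EM.HWM
import Pool.Agent.Helper1.EM.MTX

/-!
# T33: assembly of the modules
-/

set_option autoImplicit false

open NumberField MU MT MR

namespace EM

theorem prm_final : ST_PRM := st_PRM st_IDM

theorem irb_final : ST_IRB := st_IRB st_CPL

theorem bfm_final : ST_BFM := st_BFM irb_final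

theorem wid_final : ST_WID :=
  st_WID irb_final bfm_final st_TWO2
    (MT.st_TOPC MT.topg_final MT.topn_final (MT.st_CZC MT.tns_final MT.st_KRD MT.idl_final))

theorem lnc_final : ST_LNC := st_LNC st_IDM prm_final st_COO irb_final st_NRM

theorem lnr_final : ST_LNR := st_LNR bfm_final wid_final st_NRM st_GNT

theorem aut_final : ST_AUT := st_AUT st_HWM st_ETY st_SPO st_SPS st_DIM st_LAM

theorem pfo_final : ST_PFO := st_PFO st_COO bfm_final

theorem par_final : ST_PAR := st_PAR prm_final st_COO bfm_final aut_final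

theorem core_final : ST_CORE :=
  st_CORE st_IDM prm_final st_COO bfm_final wid_final lnc_final lnr_final pfo_final par_final
    (st_PRC prm_final) (st_RIB prm_final) (st_FDR prm_final st_COO pfo_final) (st_SMM prm_final)

theorem simc_final : ST_SIMC := st_SIMC core_final st_IDM prm_final

theorem hco_final : ST_HCO := st_HCO simc_final st_BCH st_TRB st_EXH

theorem lco_final : ST_LCO := st_LCO simc_final st_BCH st_TRB st_EXT

theorem hcm_final : ST_HCM := st_HCM st_MTX st_HKR

theorem lcm_final : ST_LCM := st_LCM st_MTX st_KTR st_TKR hcm_final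

theorem grp_final : ST_GRPR :=
  st_GRPR st_KTR st_HKR HG.st_DC st_POSJR HG.st_HOM HG.st_REP

theorem fina_final : ST_FINA := st_FINA hco_final hcm_final (st_HTR st_POSJR)

theorem finb_final : ST_FINB :=
  st_FINB fina_final lco_final hcm_final lcm_final st_LTR st_GLI st_BCH grp_final st_TKR st_KTR
    st_HKR HG.st_BC

end EM
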