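import Pool.Agent.Helper21.WE.Stmts
import Pool.Agent.Helper14.MT.Pair
import Pool.Agent.Helper6.HG.Main4

/-!
# Lie algebras of matrices with a commutative commutant: definitions (T33)
Proofs: /team-store/em_helper21.md
-/

set_option autoImplicit false

open Matrix MT

namespace EM

section defs

variable {K : Type} [Field K] {n : ℕ}

/-- the commutant of a space of matrices -/
def Cmt (L : Submodule K (Matrix (Fin n) (Fin n) K)) :
    Submodule K (Matrix (Fin n) (Fin n) K) where
  carrier := {X | ∀ A ∈ L, A * X = X * A}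
  add_mem' := fun hX hY A hA => by rw [Matrix.mul_add, Matrix.add_mul, hX A hA, hY A hA]
  zero_mem' := fun A _ => by rw [Matrix.mul_zero, Matrix.zero_mul]
  smul_mem' := fun c _ hX A hA => by rw [Matrix.mul_smul, Matrix.smul_mul, hX A hA]

/-- the adjoint of `X` for the form `ψ` -/
noncomputable def adj (ψ X : Matrix (Fin n) (Fin n) K) : Matrix (Fin n) (Fin n) K :=
  ψ⁻¹ * X.transpose * ψ

/-- The trace form of the associative algebra generated by `L` is non-degenerate (this algebra is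
semisimple). -/
def TrN (L : Submodule K (Matrix (Fin n) (Fin n) K)) : Prop :=
  ∀ A ∈ Algebra.adjoin K (L : Set (Matrix (Fin n) (Fin n) K)),
    (∀ B ∈ Algebra.adjoin K (L : Set (Matrix (Fin n) (Fin n) K)), (A * B).trace = 0) → A = 0

/-- the infinitesimal isometries which commute with the commutant of `L` -/
def Lef (ψ : Matrix (Fin n) (Fin n) K) (L : Submodule K (Matrix (Fin n) (Fin n) K)) :
    Submodule K (Matrix (Fin n) (Fin n) K) where
  carrier := {A | A.transpose * ψ + ψ * A = 0 ∧ ∀ X ∈ Cmt L, A * X = X * A}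
  add_mem' := fun {A B} hA hB => ⟨by
    rw [Matrix.transpose_add, Matrix.add_mul, Matrix.mul_add, add_add_add_comm, hA.1, hB.1,
      add_zero], fun X hX => by rw [Matrix.mul_add, Matrix.add_mul, hA.2 X hX, hB.2 X hX]⟩
  zero_mem' := ⟨by rw [Matrix.transpose_zero, Matrix.zero_mul, Matrix.mul_zero, add_zero],
    fun X _ => by rw [Matrix.mul_zero, Matrix.zero_mul]⟩
  smul_mem' := fun c A hA => ⟨by
    rw [Matrix.transpose_smul, Matrix.smul_mul, Matrix.mul_smul, ← smul_add, hA.1, smul_zero],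
    fun X hX => by rw [Matrix.mul_smul, Matrix.smul_mul, hA.2 X hX]⟩

/-- A semisimple Lie algebra `L` of infinitesimal isometries with commutative commutant. -/
structure Sss (w : ℕ) (ψ : Matrix (Fin n) (Fin n) K)
    (L : Submodule K (Matrix (Fin n) (Fin n) K)) : Prop where
  unit : ψ.det ≠ 0
  symm : ψ.transpose = (-1 : K) ^ w • ψ
  brk : Brk L
  iso : ∀ A ∈ L, A.transpose * ψ + ψ * A = 0
  ss : TrN L
  comm : ∀ X ∈ Cmt L, ∀ Y ∈ Cmt L, X * Y = Y * X

/-- A frame: a basis (the columns of `P`) of eigenvectors of an element of `L` with the eigenvalues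
`2 h j - w`, and of the commutant of `L`. -/
structure Frm (w : ℕ) (h : Fin n → ℕ) (L : Submodule K (Matrix (Fin n) (Fin n) K))
    (P : Matrix.GeneralLinearGroup (Fin n) K) : Prop where
  mem : dg P (fun j => 2 * (h j : ℤ) - (w : ℤ)) ∈ L
  diag : ∀ X ∈ Cmt L, ∃ x : Fin n → K, X = (P : Matrix (Fin n) (Fin n) K) * Matrix.diagonal x *
    ((P⁻¹ : Matrix.GeneralLinearGroup (Fin n) K) : Matrix (Fin n) (Fin n) K)

/-- the entry `(j, j)` of `P⁻¹ X P` -/
def evl (P : Matrix.GeneralLinearGroup (Fin n) K) (X : Matrix (Fin n) (Fin n) K) (j : Fin n) : K :=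
  (((P⁻¹ : Matrix.GeneralLinearGroup (Fin n) K) : Matrix (Fin n) (Fin n) K) * X *
    (P : Matrix (Fin n) (Fin n) K)) j j

/-- the commutant of `L` has the same eigenvalues on the column `j` of `P` and the column `k` of
`P'` -/
def Sam (L : Submodule K (Matrix (Fin n) (Fin n) K)) (P : Matrix.GeneralLinearGroup (Fin n) K)
    (j : Fin n) (P' : Matrix.GeneralLinearGroup (Fin n) K) (k : Fin n) : Prop :=
  ∀ X ∈ Cmt L, evl P X j = evl P' X k

open Classical in
/-- the projector onto the isotypic component (for the commutant of `L`) of the column `k` of `P` -/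
noncomputable def idm (L : Submodule K (Matrix (Fin n) (Fin n) K))
    (P : Matrix.GeneralLinearGroup (Fin n) K) (k : Fin n) : Matrix (Fin n) (Fin n) K :=
  (P : Matrix (Fin n) (Fin n) K) * Matrix.diagonal (fun j => if Sam L P j P k then (1 : K) else 0) *
    ((P⁻¹ : Matrix.GeneralLinearGroup (Fin n) K) : Matrix (Fin n) (Fin n) K)

/-- the primitive idempotents of the commutant of `L` -/
def Prm (L : Submodule K (Matrix (Fin n) (Fin n) K)) : Set (Matrix (Fin n) (Fin n) K) :=
  {ε | ε ∈ Cmt L ∧ ε * ε = ε ∧ ε ≠ 0 ∧ ∀ X ∈ Cmt L, ∃ c : K, X * ε = c • ε}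

/-- `f` enumerates the columns of `P` with the same eigenvalues as the column `k` -/
structure Enm (L : Submodule K (Matrix (Fin n) (Fin n) K))
    (P : Matrix.GeneralLinearGroup (Fin n) K) (k : Fin n) (r : ℕ) (f : Fin r → Fin n) : Prop where
  inj : Function.Injective f
  rng : ∀ j, (∃ i, f i = j) ↔ Sam L P j P k

/-- the columns `f i` of `P` -/
def UU (P : Matrix.GeneralLinearGroup (Fin n) K) {r : ℕ} (f : Fin r → Fin n) :
    Matrix (Fin n) (Fin r) K :=
  (P : Matrix (Fin n) (Fin n) K).submatrix id f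

/-- the rows `f i` of `P⁻¹` -/
def VV (P : Matrix.GeneralLinearGroup (Fin n) K) {r : ℕ} (f : Fin r → Fin n) :
    Matrix (Fin r) (Fin n) K :=
  ((P⁻¹ : Matrix.GeneralLinearGroup (Fin n) K) : Matrix (Fin n) (Fin n) K).submatrix f id

/-- the block of `L` -/
def Cps (L : Submodule K (Matrix (Fin n) (Fin n) K)) (P : Matrix.GeneralLinearGroup (Fin n) K)
    {r : ℕ} (f : Fin r → Fin n) : Submodule K (Matrix (Fin r) (Fin r) K) where
  carrier := {Y | ∃ A ∈ L, Y = VV P f * A * UU P f}
  add_mem' := by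
    rintro _ _ ⟨A, hA, rfl⟩ ⟨B, hB, rfl⟩
    exact ⟨A + B, L.add_mem hA hB, by rw [Matrix.mul_add, Matrix.add_mul]⟩
  zero_mem' := ⟨0, L.zero_mem, by rw [Matrix.mul_zero, Matrix.zero_mul]⟩
  smul_mem' := by
    rintro c _ ⟨A, hA, rfl⟩
    exact ⟨c • A, L.smul_mem c hA, by rw [Matrix.mul_smul, Matrix.smul_mul]⟩

/-- the block of the form -/
def frm (ψ : Matrix (Fin n) (Fin n) K) (P : Matrix.GeneralLinearGroup (Fin n) K)
    {r : ℕ} (f : Fin r → Fin n) : Matrix (Fin r) (Fin r) K :=
  (UU P f).transpose * ψ * UU P f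

/-- The factor of `ε` is contained in `L`: for a self-adjoint `ε`, the infinitesimal isometries
which live on the image of `ε`; otherwise the matrices of trace zero which live on this image,
minus their adjoints. -/
def Ful (ψ : Matrix (Fin n) (Fin n) K) (L : Submodule K (Matrix (Fin n) (Fin n) K))
    (ε : Matrix (Fin n) (Fin n) K) : Prop :=
  (adj ψ ε = ε → ∀ A : Matrix (Fin n) (Fin n) K, A.transpose * ψ + ψ * A = 0 → ε * A * ε = A →
    A ∈ L) ∧
  (adj ψ ε ≠ ε → ∀ Y : Matrix (Fin n) (Fin n) K, ε * Y * ε = Y → Y.trace = 0 →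
    Y - adj ψ Y ∈ L)

/-- `L` maps onto the infinitesimal isometries which live on the image of `ε` -/
def Sur (ψ : Matrix (Fin n) (Fin n) K) (L : Submodule K (Matrix (Fin n) (Fin n) K))
    (ε : Matrix (Fin n) (Fin n) K) : Prop :=
  ∀ Y : Matrix (Fin n) (Fin n) K, Y.transpose * ψ + ψ * Y = 0 → ε * Y * ε = Y →
    ∃ A ∈ L, ε * A * ε = Y

/-- the infinitesimal isometries which live on the image of `ε` are sums of brackets -/
def Prf (ψ ε : Matrix (Fin n) (Fin n) K) : Prop :=
  ∀ Y : Matrix (Fin n) (Fin n) K, Y.transpose * ψ + ψ * Y = 0 → ε * Y * ε = Y →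
    Y ∈ Submodule.span K {Z | ∃ A B : Matrix (Fin n) (Fin n) K,
      (A.transpose * ψ + ψ * A = 0 ∧ ε * A * ε = A) ∧
      (B.transpose * ψ + ψ * B = 0 ∧ ε * B * ε = B) ∧ Z = A * B - B * A}

/-- as `Sur`, with elements of `L` which vanish on the image of `ε'` -/
def Prs (ψ : Matrix (Fin n) (Fin n) K) (L : Submodule K (Matrix (Fin n) (Fin n) K))
    (ε ε' : Matrix (Fin n) (Fin n) K) : Prop :=
  ∀ Y : Matrix (Fin n) (Fin n) K, Y.transpose * ψ + ψ * Y = 0 → ε * Y * ε = Y →
    ∃ A ∈ L, ε * A * ε = Y ∧ ε' * A * ε' = 0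

end defs

/-! ## Hodge numbers -/

/-- The type of `k` is isolated, with Hodge number one. -/
def Lin {n : ℕ} (w : ℕ) (h : Fin n → ℕ) (k : Fin n) : Prop :=
  ∃ m : ℕ, w < 2 * m ∧ Isol w h m ∧ h k = m ∧ (Finset.univ.filter fun j => h j = m).card = 1

/-- The block `sam` has one element; or it is real, its Hodge numbers are as in `WideC` or it has
two elements, and it does not have four or eight elements if the weight is even (unless it is
everything). -/
def Wid {n : ℕ} (w : ℕ) (h : Fin n → ℕ) (sam : Fin n → Prop) (real : Prop) : Prop :=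
  ∃ (r : ℕ) (f : Fin r → Fin n), Function.Injective f ∧ (∀ j, (∃ i, f i = j) ↔ sam j) ∧
    (r = 1 ∨ (real ∧ (r = 2 ∨ WideC w (h ∘ f)) ∧ (Odd w ∨ r = n ∨ (r ≠ 4 ∧ r ≠ 8))))

/-- the condition at `k` -/
def GoodAt {n : ℕ} (w : ℕ) (h : Fin n → ℕ) (sam : Fin n → Prop) (real : Prop) (k : Fin n) : Prop :=
  Lin w h k ∨ Wid w h sam real

end EM
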