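import Pool.Agent.Helper21.EM.Defs
import Pool.Agent.Helper21.D2.Defs
import Pool.Agent.Helper82.AHS.LieB

/-!
# Polarized Hodge structures with endomorphisms: definitions (T33)
-/

set_option autoImplicit false

namespace EH

open Matrix Pool.Agent.Helper82.AHS Pool.Agent.Helper21.TH

/-- the endomorphisms of the Hodge structure -/
def IsEnd {r : ℕ} (V : HS r) (X : Matrix (Fin r) (Fin r) ℚ) : Prop :=
  X.map (algebraMap ℚ ℂ) * V.D = V.D * X.map (algebraMap ℚ ℂ)

/-- A basis (the columns of `P`) adapted to the endomorphisms: `V` is pure of weight `w`, the column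
`j` is of type `(V.p j, w - V.p j)`, and every endomorphism `X` of the Hodge structure acts on it as
the number `x X j`. After a Tate twist by `c` the types `h j = V.p j + c` are natural numbers and the
weight `w' = w + 2 c` is positive. -/
structure Ada {r : ℕ} (V : HS r) (w : ℤ) (c w' : ℕ) (h : Fin r → ℕ) (P : GL (Fin r) ℂ)
    (x : Matrix (Fin r) (Fin r) ℚ → Fin r → ℂ) : Prop where
  pure : ∀ i, V.p i + V.q i = w
  tate : (w' : ℤ) = w + 2 * c
  pos : 0 < w'
  types : ∀ j, (h j : ℤ) = V.p j + c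
  grad : V.D * (P : Matrix (Fin r) (Fin r) ℂ) = (P : Matrix (Fin r) (Fin r) ℂ) *
    diagonal (fun j => (V.p j : ℂ))
  diag : ∀ X, IsEnd V X → X.map (algebraMap ℚ ℂ) * (P : Matrix (Fin r) (Fin r) ℂ) =
    (P : Matrix (Fin r) (Fin r) ℂ) * diagonal (x X)

/-- Every factor of `V` (given by the kernel of an eigenvalue character `x · k`) has a block of
good Hodge numbers. -/
def GoodH {r : ℕ} (V : HS r) (Q : Matrix (Fin r) (Fin r) ℚ) (w' : ℕ) (h : Fin r → ℕ)
    (x : Matrix (Fin r) (Fin r) ℚ → Fin r → ℂ) : Prop :=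
  ∀ k, ∃ k', (∀ X, IsEnd V X → (x X k = 0 ↔ x X k' = 0)) ∧
    EM.GoodAt w' h (fun j => ∀ X, IsEnd V X → x X j = x X k')
      (∀ X, IsEnd V X → x (EM.adj Q X) k' = x X k') k'

open Classical in
/-- the number of basis vectors on which the endomorphisms act as on the vector `k` -/
noncomputable def bsz {r : ℕ} (V : HS r) (x : Matrix (Fin r) (Fin r) ℚ → Fin r → ℂ)
    (k : Fin r) : ℕ :=
  (Finset.univ.filter fun j => ∀ X, IsEnd V X → x X j = x X k).card

/-- the endomorphisms of the Hodge structure, as a subspace -/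
def EndS {r : ℕ} (V : HS r) : Submodule ℚ (Matrix (Fin r) (Fin r) ℚ) where
  carrier := {X | IsEnd V X}
  add_mem' := fun {A B} hA hB => by
    show IsEnd V (A + B)
    unfold IsEnd at *
    rw [Matrix.map_add _ (fun a b => map_add (algebraMap ℚ ℂ) a b), Matrix.add_mul,
      Matrix.mul_add, show A.map (algebraMap ℚ ℂ) * V.D = _ from hA,
      show B.map (algebraMap ℚ ℂ) * V.D = _ from hB]
  zero_mem' := by
    show IsEnd V 0
    unfold IsEnd
    rw [Matrix.map_zero _ (map_zero _), Matrix.zero_mul, Matrix.mul_zero]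
  smul_mem' := fun c A hA => by
    show IsEnd V (c • A)
    unfold IsEnd
    have h1 : (c • A).map (algebraMap ℚ ℂ) = (algebraMap ℚ ℂ c) • A.map (algebraMap ℚ ℂ) := by
      ext i j
      simp
    rw [h1, Matrix.smul_mul, Matrix.mul_smul, show A.map (algebraMap ℚ ℂ) * V.D = _ from hA]

/-- the Lie algebra of the Mumford-Tate group, with the scalars -/
def aM {r : ℕ} (V : HS r) : Submodule ℚ (Matrix (Fin r) (Fin r) ℚ) :=
  Ann ℚ V.HT ⊔ Submodule.span ℚ {1}

end EH
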