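import Pool.Agent.Helper21.EM.Stmts2
import Pool.Agent.Helper21.RM.HLA
import Pool.Agent.Helper21.RM.HSM
import Pool.Agent.Helper21.RM.POS

/-!
# Motives with endomorphisms: definitions (T33)
-/

set_option autoImplicit false

open NumberField MU MT MR

namespace EM

section RMot

variable {F : Type} [Field F] [NumberField F] {n w : ℕ} {h : Fin n → ℕ}

/-- The Lie algebra of the `l`-adic monodromy group: the matrices in the Lie algebra of the Zariski
closure of the image of every open subgroup of the Galois group. -/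
noncomputable def glie (M : RMot F n w h) (l : ℕ) [Fact l.Prime] :
    Submodule ℚ_[l] (Matrix (Fin n) (Fin n) ℚ_[l]) :=
  ⨅ (H : Subgroup (Gal F)) (_ : IsOpen (H : Set (Gal F))), LieZ (H.map (M.ρ l))

/-- Tate classes with coefficients in `ℚ_l`: the tensors invariant under an open subgroup of the
Galois group -/
def IsTateL (M : RMot F n w h) (l : ℕ) [Fact l.Prime] {a b : ℕ} (t : Tensor n a b ℚ_[l]) :
    Prop :=
  ∃ H : Subgroup (Gal F), IsOpen (H : Set (Gal F)) ∧ ∀ g ∈ H, act (M.ρ l g) t = t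

/-- the span of the Hodge classes in `T^(a,b)` -/
def hodgeSpan (M : RMot F n w h) (C : Type) [Field C] (a b : ℕ) :
    Submodule C (Tensor n a b C) :=
  Submodule.span C {s | ∃ t : Tensor n a b ℚ, M.IsHodge t ∧ s = t.base C}

/-- semisimplicity of the Galois representation -/
def Semi (M : RMot F n w h) (l : ℕ) [Fact l.Prime] : Prop :=
  ∀ W : Submodule ℚ_[l] (Fin n → ℚ_[l]), (∀ g : Gal F, ∀ v ∈ W, (mat (M.ρ l) g).mulVec v ∈ W) →
    ∃ W' : Submodule ℚ_[l] (Fin n → ℚ_[l]), (∀ g : Gal F, ∀ v ∈ W',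
      (mat (M.ρ l) g).mulVec v ∈ W') ∧ IsCompl W W'

/-- the endomorphisms of the Hodge structure of `M` -/
def HodgeEnd (M : RMot F n w h) : Submodule ℚ (Matrix (Fin n) (Fin n) ℚ) where
  carrier := {X | ∀ z : ℂˣ, (hz M.hodge h w z : Matrix (Fin n) (Fin n) ℂ) * X.map (algebraMap ℚ ℂ) =
    X.map (algebraMap ℚ ℂ) * (hz M.hodge h w z : Matrix (Fin n) (Fin n) ℂ)}
  add_mem' := fun {A B} hA hB z => by
    rw [Matrix.map_add (algebraMap ℚ ℂ) (fun a b => map_add (algebraMap ℚ ℂ) a b),
      Matrix.mul_add, Matrix.add_mul, hA z, hB z]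
  zero_mem' := fun z => by
    rw [Matrix.map_zero (algebraMap ℚ ℂ) (map_zero (algebraMap ℚ ℂ)), Matrix.mul_zero,
      Matrix.zero_mul]
  smul_mem' := fun c A hA z => by
    have h1 : (c • A).map (algebraMap ℚ ℂ) = (algebraMap ℚ ℂ c) • A.map (algebraMap ℚ ℂ) := by
      ext i j
      simp
    rw [h1, Matrix.mul_smul, Matrix.smul_mul, hA z]

end RMot

/-- a matrix as a tensor in `T^(1,1)` -/
def mtx {K : Type} {n : ℕ} (X : Matrix (Fin n) (Fin n) K) : Tensor n 1 1 K :=
  fun i j => X (i 0) (j 0)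

/-- Polarised pure motives over `F` (`MR.RMot`) whose motivic endomorphisms `X` are diagonalised on
the graded pieces of de Rham cohomology: `e X j` in `F` is the eigenvalue of `X` on the basis vector
`j` (of type `h j`). This gives the eigenvalues on the Hodge decomposition for the embedding `σ₀` of
`F` in `ℂ`, and on the Hodge-Tate decompositions for all embeddings of `F` in an algebraically closed
extension of `ℚ_l`, whose Hodge-Tate (Sen) operators are in the Lie algebra of the image of the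
Galois group. -/
structure EMot (F : Type) [Field F] [NumberField F] (n w : ℕ) (h : Fin n → ℕ) extends
    RMot F n w h where
  /-- the eigenvalues -/
  e : Matrix (Fin n) (Fin n) ℚ → Fin n → F
  /-- the embedding of `F` in `ℂ` -/
  σ₀ : F →+* ℂ
  hodge_e : ∀ X, mtx X ∈ mot 1 1 → bas ℂ X * (hodge : Matrix (Fin n) (Fin n) ℂ) =
    (hodge : Matrix (Fin n) (Fin n) ℂ) * Matrix.diagonal (fun j => σ₀ (e X j))
  sen_e : ∀ (l : ℕ) [Fact l.Prime], ∃ (C : Type) (_ : Field C) (_ : Algebra ℚ_[l] C)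
    (_ : IsAlgClosed C), ∀ ι : F →+* C, ∃ P : Matrix.GeneralLinearGroup (Fin n) C,
    (∀ H : Subgroup (Gal F), IsOpen (H : Set (Gal F)) →
      ∀ f : MvPolynomial (Fin n × Fin n) ℚ_[l], (∀ σ ∈ H, ev (mat (ρ l) σ) f = 0) →
      ∑ i, ∑ j, ((P : Matrix (Fin n) (Fin n) C) * Matrix.diagonal (fun j => (h j : C)) *
        ((P⁻¹ : Matrix.GeneralLinearGroup (Fin n) C) : Matrix (Fin n) (Fin n) C)) i j *
          algebraMap ℚ_[l] C (ev 1 (MvPolynomial.pderiv (i, j) f)) = 0) ∧
    ∀ X, mtx X ∈ mot 1 1 → bas C X * (P : Matrix (Fin n) (Fin n) C) =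
      (P : Matrix (Fin n) (Fin n) C) * Matrix.diagonal (fun j => ι (e X j))

section EMot

variable {F : Type} [Field F] [NumberField F] {n w : ℕ} {h : Fin n → ℕ}

/-- The endomorphisms of the Hodge structure are motivic. -/
def EMot.EndMot (M : EMot F n w h) : Prop :=
  ∀ X ∈ HodgeEnd M.toRMot, mtx X ∈ M.mot 1 1

/-- All the endomorphisms of the Hodge structure are self-adjoint for the polarisation. -/
def EMot.Real (M : EMot F n w h) : Prop :=
  ∀ X ∈ HodgeEnd M.toRMot, adj M.ψ X = X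

/-- Every factor of `M` (given by the kernel of an eigenvalue character `e · k`) has a block of
good Hodge numbers. -/
def EMot.Good (M : EMot F n w h) : Prop :=
  ∀ k, ∃ k', (∀ X, mtx X ∈ M.mot 1 1 → (M.e X k = 0 ↔ M.e X k' = 0)) ∧
    GoodAt w h (fun j => ∀ X, mtx X ∈ M.mot 1 1 → M.e X j = M.e X k')
      (∀ X, mtx X ∈ M.mot 1 1 → M.e (adj M.ψ X) k' = M.e X k') k'

end EMot

end EM
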