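import Pool.Agent.Helper21.EM.PGLI

/-!
# T33: FINB
-/

set_option autoImplicit false

open NumberField MU MT MR HD

namespace EM

section aux

variable {K : Type} [Field K] {n : ℕ}

/-- the adjoint of an element which commutes with similitudes -/
theorem adj_comm {ψ A X : Matrix (Fin n) (Fin n) K} (hψ : ψ.det ≠ 0) {c : K}
    (hA : A.transpose * ψ + ψ * A = c • ψ) (hX : A * X = X * A) :
    A * adj ψ X = adj ψ X * A := by
  have hu : IsUnit ψ.det := isUnit_iff_ne_zero.mpr hψ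
  have h1 : ψ⁻¹ * ψ = 1 := Matrix.nonsing_inv_mul _ hu
  have h2 : ψ * ψ⁻¹ = 1 := Matrix.mul_nonsing_inv _ hu
  have h3 : A * ψ⁻¹ = c • ψ⁻¹ - ψ⁻¹ * A.transpose := by
    have h4 : ψ⁻¹ * (A.transpose * ψ + ψ * A) * ψ⁻¹ = ψ⁻¹ * A.transpose + A * ψ⁻¹ := by
      rw [Matrix.mul_add, Matrix.add_mul]
      congr 1
      · rw [Matrix.mul_assoc, Matrix.mul_assoc, h2, Matrix.mul_one]
      · rw [← Matrix.mul_assoc, h1, Matrix.one_mul]
    rw [hA, Matrix.mul_smul, h1, Matrix.smul_mul, Matrix.one_mul] at h4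
    rw [h4]
    abel
  have h5 : A.transpose * ψ = c • ψ - ψ * A := by rw [← hA]; abel
  have h6 : A.transpose * X.transpose = X.transpose * A.transpose := by
    rw [← Matrix.transpose_mul, ← Matrix.transpose_mul, hX]
  unfold adj
  calc A * (ψ⁻¹ * X.transpose * ψ) = (A * ψ⁻¹) * X.transpose * ψ := by
        simp only [Matrix.mul_assoc]
    _ = c • (ψ⁻¹ * X.transpose * ψ) - ψ⁻¹ * (A.transpose * X.transpose) * ψ := by
        rw [h3, Matrix.sub_mul, Matrix.sub_mul, Matrix.smul_mul, Matrix.smul_mul]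
        simp only [Matrix.mul_assoc]
    _ = c • (ψ⁻¹ * X.transpose * ψ) - ψ⁻¹ * X.transpose * (A.transpose * ψ) := by
        rw [h6]
        simp only [Matrix.mul_assoc]
    _ = _ := by
        rw [h5, Matrix.mul_sub, Matrix.mul_smul]
        simp only [Matrix.mul_assoc]
        abel

end aux

section Mot

variable {F : Type} [Field F] [NumberField F] {n w : ℕ} {h : Fin n → ℕ}

/-- motivic endomorphisms and endomorphisms of the Hodge structure -/
theorem mot_iff (hcm : ST_HCM) (M : EMot F n w h) (hw : 0 < w) (hM : M.EndMot)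
    (X : Matrix (Fin n) (Fin n) ℚ) : mtx X ∈ M.mot 1 1 ↔ X ∈ HodgeEnd M.toRMot :=
  ⟨fun h1 => ((hcm F n w h M.toRMot hw).2 X).mpr fun z => M.mot_hodge 1 1 _ h1 z, fun h1 => hM X h1⟩

theorem one_mem_end (M : RMot F n w h) : (1 : Matrix (Fin n) (Fin n) ℚ) ∈ HodgeEnd M := by
  intro z
  rw [Matrix.map_one _ (map_zero _) (map_one _), Matrix.mul_one, Matrix.one_mul]

theorem mul_mem_end (M : RMot F n w h) (X : Matrix (Fin n) (Fin n) ℚ) (hX : X ∈ HodgeEnd M)
    (Y : Matrix (Fin n) (Fin n) ℚ) (hY : Y ∈ HodgeEnd M) : X * Y ∈ HodgeEnd M := by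
  intro z
  have h1 := hX z
  have h2 := hY z
  rw [Matrix.map_mul, ← Matrix.mul_assoc, h1, Matrix.mul_assoc, h2, Matrix.mul_assoc]

theorem adj_mem_end (hcm : ST_HCM) (M : RMot F n w h) (hw : 0 < w)
    (X : Matrix (Fin n) (Fin n) ℚ) (hX : X ∈ HodgeEnd M) : adj M.ψ X ∈ HodgeEnd M := by
  rw [← (hcm F n w h M hw).1] at hX ⊢
  intro A hA
  obtain ⟨c, hc⟩ := MR.mlie_sim M A hA
  exact adj_comm M.ψ_det hc (hX A hA)

end Mot

/-- FINB -/
theorem st_FINB (fina : ST_FINA) (lco : ST_LCO) (hcm : ST_HCM) (lcm : ST_LCM) (ltr : ST_LTR)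
    (gli : ST_GLI) (bch : ST_BCH) (grp : ST_GRPR) (tk : ST_TKR) (kt : ST_KTR) (hk : ST_HKR)
    (bc : HG.ST_BC) : ST_FINB := by
  intro F _ _ n w h M l _ hw hM hG hss h11
  obtain ⟨hbrk, hsim, hsen⟩ := gli F n w h M.toRMot l
  obtain ⟨C, _, _, _, hC⟩ := M.sen_e l
  have : CharZero C := charZero_of_injective_algebraMap (algebraMap ℚ_[l] C).injective
  have hE : ∀ X, mtx X ∈ M.mot 1 1 ↔ X ∈ HodgeEnd M.toRMot := mot_iff hcm M hw hM
  obtain ⟨hder, hreal⟩ := lco ℚ_[l] C F n w h M.ψ (HodgeEnd M.toRMot) (glie M.toRMot l) M.e hw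
    (st_HSM F n w h M.toRMot) M.ψ_det M.ψ_sym hbrk hsim (ltr F n w h M.toRMot l hss)
    (lcm F n w h M.toRMot l hw h11) (one_mem_end M.toRMot) (fun X hX Y hY =>
      mul_mem_end M.toRMot X hX Y hY) (fun X hX => adj_mem_end hcm M.toRMot hw X hX) (by
      intro ι
      obtain ⟨P, hP1, hP2⟩ := hC ι
      refine ⟨P, hsen C _ hP1, fun X hX => ?_⟩
      have h1 := hP2 X ((hE X).mpr hX)
      have h2 : bas C X = X.map (algebraMap ℚ C) := by
        ext i j
        simp [bas]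
      rw [h2] at h1
      exact h1) (by
      intro k
      obtain ⟨k', h1, h2⟩ := hG k
      refine ⟨k', fun X hX => h1 X ((hE X).mpr hX), ?_⟩
      have h3 : (fun j => ∀ X, mtx X ∈ M.mot 1 1 → M.e X j = M.e X k') =
          fun j => ∀ X ∈ HodgeEnd M.toRMot, M.e X j = M.e X k' := by
        funext j
        exact propext ⟨fun H X hX => H X ((hE X).mpr hX), fun H X hX => H X ((hE X).mp hX)⟩
      have h4 : (∀ X, mtx X ∈ M.mot 1 1 → M.e (adj M.ψ X) k' = M.e X k') =
          ∀ X ∈ HodgeEnd M.toRMot, M.e (adj M.ψ X) k' = M.e X k' :=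
        propext ⟨fun H X hX => H X ((hE X).mpr hX), fun H X hX => H X ((hE X).mp hX)⟩
      rw [h3, h4] at h2
      exact h2)
  obtain ⟨hA1, hA2⟩ := fina F n w h M hw hM hG
  obtain ⟨hb1, hb2, hb3, hb4⟩ := bch ℚ ℚ_[l] n M.ψ (MR.mlie M.toRMot)
  refine ⟨by rw [hder, ← hA1, hb3], fun hR => ?_⟩
  have hmem := hreal hR
  have hm := hA2 hR
  -- `glie = spn mlie`
  have hEq : glie M.toRMot l = spn ℚ_[l] (MR.mlie M.toRMot) := by
    apply le_antisymm
    · intro A hA
      obtain ⟨⟨c, hc⟩, hcomm⟩ := (hmem A).mp hA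
      have h1 : A - (c / 2) • (1 : Matrix (Fin n) (Fin n) ℚ_[l]) ∈
          Lef (M.ψ.map (algebraMap ℚ ℚ_[l])) (spn ℚ_[l] (MR.mlie M.toRMot)) := by
        constructor
        · rw [Matrix.transpose_sub, Matrix.sub_mul, Matrix.mul_sub, sub_add_sub_comm, hc,
            Matrix.transpose_smul, Matrix.transpose_one, Matrix.smul_mul, Matrix.one_mul,
            Matrix.mul_smul, Matrix.mul_one, ← add_smul, add_halves, sub_self]
        · intro X hX
          rw [hb1, (hcm F n w h M.toRMot hw).1] at hX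
          rw [Matrix.sub_mul, Matrix.mul_sub, Matrix.smul_mul, Matrix.mul_smul, Matrix.one_mul,
            Matrix.mul_one]
          congr 1
          unfold spn at hX
          induction hX using Submodule.span_induction with
          | mem x hx =>
            obtain ⟨B, hB, rfl⟩ := hx
            exact hcomm B hB
          | zero => rw [Matrix.mul_zero, Matrix.zero_mul]
          | add x y _ _ hx hy => rw [Matrix.mul_add, Matrix.add_mul, hx, hy]
          | smul c x _ hx => rw [Matrix.mul_smul, Matrix.smul_mul, hx]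
      rw [hb2] at h1
      have h2 : Lef M.ψ (MR.mlie M.toRMot) ≤ MR.mlie M.toRMot := by
        rintro B ⟨hB1, hB2⟩
        refine (hm B).mpr ⟨⟨0, by rw [hB1, zero_smul]⟩, fun X hX => ?_⟩
        exact hB2 X (by rw [(hcm F n w h M.toRMot hw).1]; exact hX)
      have h3 : spn ℚ_[l] (Lef M.ψ (MR.mlie M.toRMot)) ≤ spn ℚ_[l] (MR.mlie M.toRMot) := by
        unfold spn
        refine Submodule.span_mono ?_
        rintro _ ⟨B, hB, rfl⟩
        exact ⟨B, h2 hB, rfl⟩
      have h4 := h3 h1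
      have h5 := (spn ℚ_[l] (MR.mlie M.toRMot)).add_mem h4
        ((spn ℚ_[l] (MR.mlie M.toRMot)).smul_mem (c / 2) (one_mem_spn M.toRMot hw ℚ_[l]))
      rw [sub_add_cancel] at h5
      exact h5
    · unfold spn
      refine Submodule.span_le.mpr ?_
      rintro _ ⟨B, hB, rfl⟩
      obtain ⟨⟨c, hc⟩, hcomm⟩ := (hm B).mp hB
      refine (hmem _).mpr ⟨⟨algebraMap ℚ ℚ_[l] c, ?_⟩, fun X hX => ?_⟩
      · have h1 := congrArg (fun Y : Matrix (Fin n) (Fin n) ℚ => Y.map (algebraMap ℚ ℚ_[l])) hc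
        have h2 : (c • M.ψ).map (algebraMap ℚ ℚ_[l]) =
            algebraMap ℚ ℚ_[l] c • M.ψ.map (algebraMap ℚ ℚ_[l]) := by
          ext i j
          simp
        have h3 : (B.transpose * M.ψ + M.ψ * B).map (algebraMap ℚ ℚ_[l]) =
            (B.map (algebraMap ℚ ℚ_[l])).transpose * M.ψ.map (algebraMap ℚ ℚ_[l]) +
              M.ψ.map (algebraMap ℚ ℚ_[l]) * B.map (algebraMap ℚ ℚ_[l]) := by
          rw [Matrix.map_add _ (map_add _), Matrix.map_mul, Matrix.map_mul, Matrix.transpose_map]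
        rw [← h3, ← h2]
        exact h1
      · rw [← Matrix.map_mul, hcomm X hX, Matrix.map_mul]
  refine ⟨fun K _ _ => grp F n w h M.toRMot hw l hEq K, fun a b t => ⟨fun ht => ?_, fun ht => ?_⟩⟩
  · have h1 := bc n a b (MR.mlie M.toRMot) ℚ_[l] t fun A hA =>
      tk F n w h M.toRMot l a b t ht _ (by
        rw [hEq]
        exact mem_spn (C := ℚ_[l]) (MR.mlie M.toRMot) hA)
    refine Submodule.span_mono ?_ h1
    rintro s ⟨t₀, ht₀, rfl⟩
    exact ⟨t₀, hk F n w h M.toRMot hw a b t₀ ht₀, rfl⟩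
  · exact kt F n w h M.toRMot l a b t fun A hA => by
      rw [hEq] at hA
      exact spn_kill_span M.toRMot ℚ_[l] A hA a b t ht

end EM
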