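import Pool.Agent.Helper82.EM.WKE
import Pool.Agent.Helper82.EM.PRA
import Pool.Agent.Helper78.EM.FXH
import Pool.Agent.Helper82.D2.TRP

/-!
# T33, row FINH: the theorem on Hodge tensors
-/

set_option autoImplicit false

namespace EH.H21

open Matrix Pool.Agent.Helper82.AHS Pool.Agent.Helper21.TH

variable {r : ℕ}

/-- scalars act as one on tensors of type `(m, m)` -/
theorem act_scale {m : ℕ} (g g' : GL (Fin r) ℂ) (l : ℂ) (hl : l ≠ 0)
    (h1 : (g' : Matrix (Fin r) (Fin r) ℂ) = l⁻¹ • (g : Matrix (Fin r) (Fin r) ℂ))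
    (h2 : ((g'⁻¹ : GL (Fin r) ℂ) : Matrix (Fin r) (Fin r) ℂ) =
      l • ((g⁻¹ : GL (Fin r) ℂ) : Matrix (Fin r) (Fin r) ℂ)) (t : T r m m ℂ) :
    act g' t = act g t := by
  unfold act
  rw [h1, h2, Trp.pw_smul, Trp.pw_smul, Matrix.smul_mul, Matrix.smul_mul, Matrix.mul_smul, smul_smul,
    ← mul_pow, inv_mul_cancel₀ hl, one_pow, one_smul]

end EH.H21

namespace EH

open Matrix Pool.Agent.Helper82.AHS Pool.Agent.Helper21.TH

/-- Row FINH. -/
theorem fin_h (wke : ST_WKE) (fxh : ST_FXH) : ST_FINH := by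
  intro r S w c w' h P x hA hG σ hpolA hendA
  refine ⟨wke r S w c w' h P x hA hG σ hpolA hendA, fun hR m n t ht hmn hsize => ?_⟩
  have hQ := S.pol
  have hpure := hA.pure
  obtain ⟨hdet, -, -, hrel⟩ := st_SYM r S.V w S.Q hpure hQ
  have hpol : S.V.Hodge (polT S.Q) := ((st_KPL r ℂ S.Q S.V.D hdet).1).mpr ⟨(w : ℂ), hrel⟩
  have hend : ∀ X, IsEnd S.V X → S.V.Hodge (t11 X) := by
    intro X hX
    rw [S.V.hodge_iff, up_t11, kill_t11]
    exact hX.symm
  obtain ⟨hinf, hgr⟩ := fxh r S.V w c w' h P x S.Q hQ hA hG hR m n t ht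
  have hgr := hgr hsize
  by_cases ht0 : t = 0
  · subst ht0
    have h0 : up ℂ (0 : T r m n ℚ) = 0 := by
      unfold up
      exact Matrix.map_zero _ (map_zero _)
    refine st_PRA r S σ m n 0 (fun g _ => ?_) (fun y _ => ?_)
    · rw [h0]
      unfold act
      rw [Matrix.mul_zero, Matrix.zero_mul]
    · rw [h0, Matrix.mul_zero, Matrix.zero_mul]
  have hcase : m = n ∨ (S.V.Hodge (formT S.Q) ∧ S.AbsAt σ (formT S.Q)) := by
    by_cases hw : w = 0
    · rcases hmn with h1 | h1 | h1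
      · exact Or.inl h1
      · exact absurd hw h1
      · refine Or.inr ⟨((st_KPL r ℂ S.Q S.V.D hdet).2).mpr ?_, h1⟩
        rw [hrel, hw, Int.cast_zero, zero_smul]
    · by_contra h2
      exact ht0 (st_WT0 r m n S.V w t hpure hw (fun h3 => h2 (Or.inl h3)) ht)
  refine st_PRA r S σ m n t (fun g hg => ?_) (fun y hy => ?_)
  · have e1 := gl_mul_inv g
    have e2 := gl_inv_mul g
    obtain ⟨d, hd0, hd⟩ := (st_SML r ℂ S.Q S.Q g hdet hdet).1 (hg 2 2 _ hpol hpolA).symm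
    have hgX : ∀ X, IsEnd S.V X → (g : Matrix (Fin r) (Fin r) ℂ) * X.map (algebraMap ℚ ℂ) =
        X.map (algebraMap ℚ ℂ) * (g : Matrix (Fin r) (Fin r) ℂ) := by
      intro X hX
      have h1 := hg 1 1 _ (hend X hX) (hendA X hX)
      rw [up_t11, H82.act_t11] at h1
      have h2 := t11_inj h1
      calc (g : Matrix (Fin r) (Fin r) ℂ) * X.map (algebraMap ℚ ℂ)
          = (g : Matrix (Fin r) (Fin r) ℂ) * X.map (algebraMap ℚ ℂ) *
            (((g⁻¹ : GL (Fin r) ℂ) : Matrix (Fin r) (Fin r) ℂ) *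
              (g : Matrix (Fin r) (Fin r) ℂ)) := by rw [e2, Matrix.mul_one]
        _ = ((g : Matrix (Fin r) (Fin r) ℂ) * X.map (algebraMap ℚ ℂ) *
            ((g⁻¹ : GL (Fin r) ℂ) : Matrix (Fin r) (Fin r) ℂ)) *
              (g : Matrix (Fin r) (Fin r) ℂ) := by simp only [Matrix.mul_assoc]
        _ = _ := by rw [h2]
    rcases hcase with hmn' | ⟨hf1, hf2⟩
    · subst hmn'
      obtain ⟨l, hl⟩ := IsAlgClosed.exists_eq_mul_self d
      have hl0 : l ≠ 0 := fun h0 => hd0 (by rw [hl, h0, mul_zero])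
      have e3 : (l⁻¹ • (g : Matrix (Fin r) (Fin r) ℂ)) *
          (l • ((g⁻¹ : GL (Fin r) ℂ) : Matrix (Fin r) (Fin r) ℂ)) = 1 := by
        rw [Matrix.smul_mul, Matrix.mul_smul, smul_smul, inv_mul_cancel₀ hl0, one_smul, e1]
      have e4 : (l • ((g⁻¹ : GL (Fin r) ℂ) : Matrix (Fin r) (Fin r) ℂ)) *
          (l⁻¹ • (g : Matrix (Fin r) (Fin r) ℂ)) = 1 := by
        rw [Matrix.smul_mul, Matrix.mul_smul, smul_smul, mul_inv_cancel₀ hl0, one_smul, e2]
      let g' : GL (Fin r) ℂ := ⟨l⁻¹ • (g : Matrix (Fin r) (Fin r) ℂ),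
        l • ((g⁻¹ : GL (Fin r) ℂ) : Matrix (Fin r) (Fin r) ℂ), e3, e4⟩
      have h3 : (g' : Matrix (Fin r) (Fin r) ℂ) = l⁻¹ • (g : Matrix (Fin r) (Fin r) ℂ) := rfl
      have h4 : ((g'⁻¹ : GL (Fin r) ℂ) : Matrix (Fin r) (Fin r) ℂ) =
        l • ((g⁻¹ : GL (Fin r) ℂ) : Matrix (Fin r) (Fin r) ℂ) := rfl
      rw [← H21.act_scale g g' l hl0 h3 h4]
      refine hgr g' ?_ ?_
      · rw [h3, Matrix.transpose_smul, Matrix.smul_mul, Matrix.smul_mul, Matrix.mul_smul, hd,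
          smul_smul, smul_smul, hl]
        rw [show l⁻¹ * l⁻¹ * (l * l) = 1 by field_simp, one_smul]
      · intro X hX
        rw [h3, Matrix.smul_mul, Matrix.mul_smul, hgX X hX]
    · exact hgr g ((st_SML r ℂ S.Q S.Q g hdet hdet).2 (hg 0 2 _ hf1 hf2).symm) hgX
  · obtain ⟨d, hd⟩ := ((st_KPL r ℂ S.Q y hdet).1).mp (hy 2 2 _ hpol hpolA)
    have hyX : ∀ X, IsEnd S.V X → y * X.map (algebraMap ℚ ℂ) =
        X.map (algebraMap ℚ ℂ) * y := by
      intro X hX
      have h1 := hy 1 1 _ (hend X hX) (hendA X hX)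
      rw [up_t11] at h1
      exact kill_t11.mp h1
    rcases hcase with hmn' | ⟨hf1, hf2⟩
    · subst hmn'
      have h1 := hinf (y - (d / 2) • 1) (by
        rw [Matrix.transpose_sub, Matrix.transpose_smul, Matrix.transpose_one, Matrix.sub_mul,
          Matrix.mul_sub, Matrix.smul_mul, Matrix.mul_smul, Matrix.one_mul, Matrix.mul_one,
          sub_add_sub_comm, hd, ← add_smul, add_halves, sub_self]) (fun X hX => by
        rw [Matrix.sub_mul, Matrix.mul_sub, hyX X hX, Matrix.smul_mul, Matrix.mul_smul,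
          Matrix.one_mul, Matrix.mul_one])
      have h2 : dr m y = dr m (y - (d / 2) • 1) + (d / 2) • dr m (1 : Matrix (Fin r) (Fin r) ℂ) := by
        rw [← dr_smul, ← dr_add, sub_add_cancel]
      rw [h2, Matrix.add_mul, Matrix.mul_add, h1, dr_one_eq]
      simp only [Matrix.smul_mul, Matrix.mul_smul, Matrix.one_mul, Matrix.mul_one]
    · exact hinf y (((st_KPL r ℂ S.Q y hdet).2).mp (hy 0 2 _ hf1 hf2)) hyX

end EH
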