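import Pool.Agent.Helper21.EM.PALG
import Pool.Agent.Helper21.EM.PTK
import Pool.Agent.Helper21.EM.PKT

/-!
# T33: the theorem for `T^(2,2)`, port to `RMot` of helper6's files
-/

set_option autoImplicit false

open NumberField MU MT MR HD

namespace EM

namespace EG

open HG (two two_base kill_two act_two commutant_base bas_eq_map map_cast_eq kill_polC commute_hz der ST_CAS2 op ten op_ten act_op kill_op exists_proj base_eq tadd_kill tsmul_kill ST_RPL ST_ENG ST_BC trF trF_apply trF_refl isCompl_orth mem_orth st_STB trace_eq_zero_of_all)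

variable {F : Type} [Field F] [NumberField F] {n w : ℕ} {h : Fin n → ℕ}

/-- a matrix invariant under the Galois group gives a Tate class -/
theorem two_tate (M : RMot F n w h) (l : ℕ) [Fact l.Prime] (A : Matrix (Fin n) (Fin n) ℚ_[l])
    (hA : ∀ g : Gal F, mat (M.ρ l) g * A * mat (M.ρ l) g⁻¹ = A) : IsTateL M l (two A) := by
  refine ⟨⊤, isOpen_univ, fun g _ => ?_⟩
  rw [act_two]
  have h1 := hA g
  have h2 : mat (M.ρ l) g⁻¹ * mat (M.ρ l) g = 1 := by
    rw [← map_mul, inv_mul_cancel, map_one]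
  have h3 : mat (M.ρ l) g * A = A * mat (M.ρ l) g := by
    calc mat (M.ρ l) g * A = mat (M.ρ l) g * A * (mat (M.ρ l) g⁻¹ * mat (M.ρ l) g) := by
          rw [h2, Matrix.mul_one]
      _ = (mat (M.ρ l) g * A * mat (M.ρ l) g⁻¹) * mat (M.ρ l) g := by
          simp only [Matrix.mul_assoc]
      _ = _ := by rw [h1]
  exact h3

/-- a projector which commutes with the Galois group is a Tate class -/
theorem ten_tate (M : RMot F n w h) (l : ℕ) [Fact l.Prime]
    (P : Matrix (Fin n) (Fin n) ℚ_[l] →ₗ[ℚ_[l]] Matrix (Fin n) (Fin n) ℚ_[l])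
    (hP : ∀ (g : Gal F) A, P (mat (M.ρ l) g * A * mat (M.ρ l) g⁻¹) =
      mat (M.ρ l) g * P A * mat (M.ρ l) g⁻¹) : IsTateL M l (ten P) := by
  refine ⟨⊤, isOpen_univ, fun g _ => ?_⟩
  rw [act_op]
  intro A
  have h2 : mat (M.ρ l) g⁻¹ = (((M.ρ l g)⁻¹ : Matrix.GeneralLinearGroup (Fin n) ℚ_[l]) :
      Matrix (Fin n) (Fin n) ℚ_[l]) := by
    show ((M.ρ l g⁻¹ : Matrix.GeneralLinearGroup (Fin n) ℚ_[l]) :
      Matrix (Fin n) (Fin n) ℚ_[l]) = _
    rw [map_inv]
  have h3 := hP g A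
  rw [h2] at h3
  rw [op_ten, op_ten]
  exact h3.symm

/-- the conjugation by the Galois group -/
noncomputable def cj (M : RMot F n w h) (l : ℕ) [Fact l.Prime] (g : Gal F) :
    Matrix (Fin n) (Fin n) ℚ_[l] →ₗ[ℚ_[l]] Matrix (Fin n) (Fin n) ℚ_[l] where
  toFun A := mat (M.ρ l) g * A * mat (M.ρ l) g⁻¹
  map_add' A B := by rw [Matrix.mul_add, Matrix.add_mul]
  map_smul' c A := by rw [Matrix.mul_smul, Matrix.smul_mul, RingHom.id_apply]

theorem cj_apply (M : RMot F n w h) (l : ℕ) [Fact l.Prime] (g : Gal F)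
    (A : Matrix (Fin n) (Fin n) ℚ_[l]) : cj M l g A = mat (M.ρ l) g * A * mat (M.ρ l) g⁻¹ := rfl

/-- the Galois group preserves the multipliers -/
theorem cj_sim (M : RMot F n w h) (l : ℕ) [Fact l.Prime] (g : Gal F)
    (A : Matrix (Fin n) (Fin n) ℚ_[l]) (c : ℚ_[l])
    (hA : A.transpose * M.ψ.map (algebraMap ℚ ℚ_[l]) + M.ψ.map (algebraMap ℚ ℚ_[l]) * A =
      c • M.ψ.map (algebraMap ℚ ℚ_[l])) :
    (cj M l g A).transpose * M.ψ.map (algebraMap ℚ ℚ_[l]) +
      M.ψ.map (algebraMap ℚ ℚ_[l]) * cj M l g A = c • M.ψ.map (algebraMap ℚ ℚ_[l]) := by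
  set ψ' := M.ψ.map (algebraMap ℚ ℚ_[l]) with hψ'
  set X := mat (M.ρ l) g with hX
  set Y := mat (M.ρ l) g⁻¹ with hY
  have hXY : X * Y = 1 := by rw [hX, hY, ← map_mul, mul_inv_cancel, map_one]
  have hYX : Y * X = 1 := by rw [hX, hY, ← map_mul, inv_mul_cancel, map_one]
  set u : ℚ_[l] := (((cyc l F g : ℤ_[l]ˣ) : ℤ_[l]) : ℚ_[l]) with hu
  have hgal := M.ψ_gal l g
  rw [bas_eq_map] at hgal
  have hgal' : u ^ w • (X.transpose * ψ' * X) = ψ' := hgal
  have hu0 : u ≠ 0 := by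
    intro h0
    have h1 : ((cyc l F g : ℤ_[l]ˣ) : ℤ_[l]) = 0 := Subtype.ext h0
    exact (cyc l F g : ℤ_[l]ˣ).ne_zero h1
  have hv0 : u ^ w ≠ 0 := pow_ne_zero _ hu0
  -- `Yᵀ ψ Y = u^w ψ`
  have hYY : Y.transpose * ψ' * Y = u ^ w • ψ' := by
    calc Y.transpose * ψ' * Y = Y.transpose * (u ^ w • (X.transpose * ψ' * X)) * Y := by
          rw [hgal']
      _ = u ^ w • ((X * Y).transpose * ψ' * (X * Y)) := by
          rw [Matrix.mul_smul, Matrix.smul_mul, Matrix.transpose_mul]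
          simp only [Matrix.mul_assoc]
      _ = _ := by rw [hXY, Matrix.transpose_one, Matrix.one_mul, Matrix.mul_one]
  -- `ψ X = u^-w Yᵀ ψ`
  have e1 : ψ' * X = (u ^ w)⁻¹ • (Y.transpose * ψ') := by
    have : Y.transpose * ψ' = u ^ w • (ψ' * X) := by
      calc Y.transpose * ψ' = Y.transpose * ψ' * (Y * X) := by rw [hYX, Matrix.mul_one]
        _ = (Y.transpose * ψ' * Y) * X := by simp only [Matrix.mul_assoc]
        _ = _ := by rw [hYY, Matrix.smul_mul]
    rw [this, smul_smul, inv_mul_cancel₀ hv0, one_smul]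
  have e2 : X.transpose * ψ' = (u ^ w)⁻¹ • (ψ' * Y) := by
    have : ψ' * Y = u ^ w • (X.transpose * ψ') := by
      calc ψ' * Y = (Y * X).transpose * ψ' * Y := by
            rw [hYX, Matrix.transpose_one, Matrix.one_mul]
        _ = X.transpose * (Y.transpose * ψ' * Y) := by
            rw [Matrix.transpose_mul]
            simp only [Matrix.mul_assoc]
        _ = _ := by rw [hYY, Matrix.mul_smul]
    rw [this, smul_smul, inv_mul_cancel₀ hv0, one_smul]
  rw [cj_apply]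
  calc (X * A * Y).transpose * ψ' + ψ' * (X * A * Y)
      = Y.transpose * (A.transpose * (X.transpose * ψ')) + (ψ' * X) * (A * Y) := by
        rw [Matrix.transpose_mul, Matrix.transpose_mul]
        simp only [Matrix.mul_assoc]
    _ = (u ^ w)⁻¹ • (Y.transpose * (A.transpose * ψ' + ψ' * A) * Y) := by
        rw [e1, e2, Matrix.mul_smul, Matrix.mul_smul, Matrix.smul_mul, ← smul_add]
        congr 1
        rw [Matrix.mul_add, Matrix.add_mul]
        simp only [Matrix.mul_assoc]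
    _ = c • ψ' := by
        rw [hA, Matrix.mul_smul, Matrix.smul_mul, hYY, smul_smul, smul_smul]
        congr 1
        field_simp

/-- Hodge classes which are Tate in `T^(2,2)`: the monodromy Lie algebra is in the Lie algebra of
the Mumford-Tate group. -/
theorem glie_le (tk : ST_TKR) (alg : ST_ALG) (M : RMot F n w h) (hw : 0 < w) (hcm : NoCM M)
    (l : ℕ) [Fact l.Prime] (h22 : ∀ t : Tensor n 2 2 ℚ, M.IsHodge t →
      IsTateL M l (t.base ℚ_[l])) : glie M l ≤ spn ℚ_[l] (mlie M) := by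
  intro A hA
  exact alg F n w h M hw hcm ℚ_[l] A fun t ht =>
    tk F n w h M l 2 2 (t.base ℚ_[l]) (h22 t ht) A hA

/-- G1 -/
theorem st_G1 (tk : ST_TKR) (kt : ST_KTR) (alg : ST_ALG) (M : RMot F n w h) (hw : 0 < w)
    (hcm : NoCM M) (l : ℕ) [Fact l.Prime] (h22 : ∀ t : Tensor n 2 2 ℚ, M.IsHodge t →
      IsTateL M l (t.base ℚ_[l])) (a b : ℕ) (t : Tensor n a b ℚ) (ht : M.IsHodge t) :
    IsTateL M l (t.base ℚ_[l]) :=
  kt F n w h M l a b (t.base ℚ_[l]) fun A hA =>
    spn_kill M ℚ_[l] A (glie_le tk alg M hw hcm l h22 hA) a b t ht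

/-- a Hodge class which is a Tate class -/
theorem hodge_mem (M : RMot F n w h) (C : Type) [Field C] {a b : ℕ} (t : Tensor n a b ℚ)
    (ht : M.IsHodge t) : t.base C ∈ hodgeSpan M C a b :=
  Submodule.subset_span ⟨t, ht, rfl⟩

/-- some element of the monodromy Lie algebra has a multiplier different from `0` -/
theorem exists_mul (kt : ST_KTR) (M : RMot F n w h) (hw : 0 < w) (hn : 0 < n) (l : ℕ)
    [Fact l.Prime]
    (hsim : ∀ A ∈ glie M l, ∃ c : ℚ_[l], A.transpose * M.ψ.map (algebraMap ℚ ℚ_[l]) +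
      M.ψ.map (algebraMap ℚ ℚ_[l]) * A = c • M.ψ.map (algebraMap ℚ ℚ_[l])) :
    ∃ A ∈ glie M l, ∃ c : ℚ_[l], c ≠ 0 ∧ A.transpose * M.ψ.map (algebraMap ℚ ℚ_[l]) +
      M.ψ.map (algebraMap ℚ ℚ_[l]) * A = c • M.ψ.map (algebraMap ℚ ℚ_[l]) := by
  by_contra hcon
  push Not at hcon
  set ψ' := M.ψ.map (algebraMap ℚ ℚ_[l]) with hψ'
  have hzero : ∀ A ∈ glie M l, A.transpose * ψ' + ψ' * A = 0 := by
    intro A hA
    obtain ⟨c, hc⟩ := hsim A hA
    by_cases h0 : c = 0
    · rw [hc, h0, zero_smul]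
    · exact absurd hc (hcon A hA c h0)
  -- the tensor `ψ` in `T^(0,2)`
  let t : Tensor n 0 2 ℚ_[l] := fun _ j => ψ' (j 0) (j 1)
  have hkill : ∀ A ∈ glie M l, Kill A t := by
    intro A hA
    unfold Kill
    have h0 : dtp 0 A = 0 := by
      unfold dtp
      simp
    rw [h0, Matrix.zero_mul]
    symm
    ext i j
    rw [Matrix.mul_apply, Matrix.zero_apply, dtp_two]
    have h1 := congrFun (congrFun (hzero A hA) (j 0)) (j 1)
    rw [Matrix.add_apply, Matrix.mul_apply, Matrix.mul_apply, Matrix.zero_apply] at h1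
    have h2 : ∀ f : (Fin 2 → Fin n) → ℚ_[l], ∑ k, f k = ∑ p, ∑ q, f ![p, q] := by
      intro f
      rw [← (finTwoArrowEquiv (Fin n)).symm.sum_comp, Fintype.sum_prod_type]
      rfl
    rw [h2]
    simp only [Matrix.of_apply, t, Matrix.cons_val_zero, Matrix.cons_val_one, Matrix.add_apply, tpf,
      Fin.prod_univ_two, Matrix.one_apply, mul_add, Finset.sum_add_distrib]
    refine Eq.trans ?_ h1
    congr 1
    · refine Finset.sum_congr rfl fun p _ => ?_
      rw [Finset.sum_eq_single (j 1)]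
      · rw [if_pos rfl, mul_one, Matrix.transpose_apply, mul_comm]
      · intro q _ hq
        rw [if_neg hq, mul_zero, mul_zero]
      · simp
    · rw [Finset.sum_eq_single (j 0)]
      · refine Finset.sum_congr rfl fun q _ => ?_
        rw [if_pos rfl, one_mul]
      · intro p _ hp
        refine Finset.sum_eq_zero fun q _ => ?_
        rw [if_neg hp, zero_mul, mul_zero]
      · simp
  obtain ⟨H, hH, hfix⟩ := kt F n w h M l 0 2 t hkill
  obtain ⟨H₁, hle, -, -, e, he, hHe⟩ := exists_core H hH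
  obtain ⟨q, g, hg, hq, hcg⟩ := PMot.exists_mult (F := F) st_IDX st_FRE st_CYC l H₁ e he hHe
  have hfg := hfix g (hle hg)
  -- `ρ(g)^-T ψ ρ(g)^-1 = ψ`
  set X := mat (M.ρ l) g with hX
  set Y : Matrix (Fin n) (Fin n) ℚ_[l] :=
    (((M.ρ l g)⁻¹ : Matrix.GeneralLinearGroup (Fin n) ℚ_[l]) : Matrix (Fin n) (Fin n) ℚ_[l])
    with hY
  have hYX : Y * X = 1 := Units.inv_mul (M.ρ l g)
  have h1 : Y.transpose * ψ' * Y = ψ' := by
    ext p q
    have h2 := congrFun (congrFun hfg ![]) ![p, q]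
    unfold act at h2
    have h3 : ∀ f : (Fin 2 → Fin n) → ℚ_[l], ∑ k, f k = ∑ p, ∑ q, f ![p, q] := by
      intro f
      rw [← (finTwoArrowEquiv (Fin n)).symm.sum_comp, Fintype.sum_prod_type]
      rfl
    rw [Fintype.sum_unique, h3] at h2
    simp only [Finset.univ_eq_empty, Finset.prod_empty, one_mul, Fin.prod_univ_two,
      Matrix.cons_val_zero, Matrix.cons_val_one, t] at h2
    rw [Matrix.mul_apply, ← h2, Finset.sum_comm]
    refine Finset.sum_congr rfl fun s _ => ?_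
    rw [Matrix.mul_apply, Finset.sum_mul]
    refine Finset.sum_congr rfl fun r _ => ?_
    rw [Matrix.transpose_apply]
    ring
  have h2 : X.transpose * ψ' * X = ψ' := by
    calc X.transpose * ψ' * X = X.transpose * (Y.transpose * ψ' * Y) * X := by rw [h1]
      _ = (Y * X).transpose * ψ' * (Y * X) := by
          rw [Matrix.transpose_mul]
          simp only [Matrix.mul_assoc]
      _ = ψ' := by rw [hYX, Matrix.transpose_one, Matrix.one_mul, Matrix.mul_one]
  have hgal := M.ψ_gal l g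
  rw [bas_eq_map, hcg] at hgal
  have hgal' : (q : ℚ_[l]) ^ w • (X.transpose * ψ' * X) = ψ' := hgal
  rw [h2] at hgal'
  have hne : ψ' ≠ 0 := by
    intro h0
    have h3 : ψ'.det = algebraMap ℚ ℚ_[l] M.ψ.det := (RingHom.map_det _ M.ψ).symm
    have : Nonempty (Fin n) := ⟨⟨0, hn⟩⟩
    rw [h0, Matrix.det_zero] at h3
    exact M.ψ_det ((map_eq_zero _).mp h3.symm)
  have h3 : (q : ℚ_[l]) ^ w = 1 := by
    have h4 : ((q : ℚ_[l]) ^ w - 1) • ψ' = 0 := by rw [sub_smul, hgal', one_smul, sub_self]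
    rcases smul_eq_zero.mp h4 with h5 | h5
    · exact sub_eq_zero.mp h5
    · exact absurd h5 hne
  have h4 : q ^ w = 1 := by exact_mod_cast h3
  have h5 : 1 < q ^ w := Nat.one_lt_pow hw.ne' (by omega)
  omega

/-- if the Galois representation is semisimple, the trace form is non-degenerate on the monodromy
Lie algebra -/
theorem glie_nondeg (rpl : ST_RPL) (eng : HG.ST_ENG) (M : RMot F n w h) (l : ℕ) [Fact l.Prime]
    (hss : Semi M l) (A : Matrix (Fin n) (Fin n) ℚ_[l]) (hA : A ∈ glie M l)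
    (hrad : ∀ B ∈ glie M l, (A * B).trace = 0) : A = 0 := by
  let U : Submodule ℚ_[l] (Matrix (Fin n) (Fin n) ℚ_[l]) :=
    glie M l ⊓ (trF ℚ_[l] n).orthogonal (glie M l)
  have hU : ∀ X, X ∈ U ↔ X ∈ glie M l ∧ ∀ B ∈ glie M l, (B * X).trace = 0 := by
    intro X
    rw [Submodule.mem_inf, mem_orth]
  have h0 : U = ⊥ := by
    refine eng ℚ_[l] n U (Gal F) (mat (M.ρ l)) ?_ ?_ ?_ ?_
    · intro X hX Y hY
      rw [hU] at hX hY ⊢
      refine ⟨glie_br M l X Y hX.1 hY.1, fun B hB => ?_⟩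
      have h1 : (B * (X * Y - Y * X)).trace = ((B * X - X * B) * Y).trace := by
        rw [Matrix.mul_sub, Matrix.trace_sub, Matrix.sub_mul, Matrix.trace_sub, ← Matrix.mul_assoc]
        congr 1
        rw [← Matrix.mul_assoc, Matrix.trace_mul_comm, ← Matrix.mul_assoc]
      rw [h1]
      exact hY.2 _ (glie_br M l B X hB hX.1)
    · intro X hX
      rw [hU] at hX
      refine rad_nil rpl M l X hX.1 fun B hB => ?_
      rw [Matrix.trace_mul_comm]
      exact hX.2 B hB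
    · intro g X hX
      rw [hU] at hX ⊢
      refine ⟨glie_conj M l g X hX.1, fun B hB => ?_⟩
      have h1 : (B * (mat (M.ρ l) g * X * mat (M.ρ l) g⁻¹)).trace =
          ((mat (M.ρ l) g⁻¹ * B * mat (M.ρ l) g) * X).trace := by
        rw [← Matrix.mul_assoc, ← Matrix.mul_assoc, Matrix.trace_mul_comm, ← Matrix.mul_assoc,
          ← Matrix.mul_assoc]
      have h2 := glie_conj M l g⁻¹ B hB
      rw [inv_inv] at h2
      rw [h1]
      exact hX.2 _ h2
    · intro W hW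
      refine ⟨fun X hX v hv => ?_, hss W hW⟩
      rw [hU] at hX
      have h1 := (mem_glie M l X).mp hX.1 ⊤ isOpen_univ
      refine st_STB ℚ_[l] n (Subgroup.map (M.ρ l) ⊤) W ?_ X h1 v hv
      rintro _ ⟨g, _, rfl⟩ u hu
      exact hW g u hu
  have h1 : A ∈ U := by
    rw [hU]
    refine ⟨hA, fun B hB => ?_⟩
    rw [Matrix.trace_mul_comm]
    exact hrad B hB
  rw [h0] at h1
  exact h1

/-- the stable complement of the monodromy Lie algebra and its projector -/
theorem exists_proj_glie (M : RMot F n w h) (l : ℕ) [Fact l.Prime]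
    (hnd : ∀ A ∈ glie M l, (∀ B ∈ glie M l, (A * B).trace = 0) → A = 0) :
    ∃ P : Matrix (Fin n) (Fin n) ℚ_[l] →ₗ[ℚ_[l]] Matrix (Fin n) (Fin n) ℚ_[l],
      (∀ A, P A ∈ glie M l) ∧ (∀ A ∈ glie M l, P A = A) ∧ P ∘ₗ P = P ∧
      (∀ A, ∀ B ∈ glie M l, (B * (A - P A)).trace = 0) ∧
        ∀ g A, P (cj M l g A) = cj M l g (P A) := by
  have hstab : ∀ g : Gal F, ∀ A ∈ glie M l, cj M l g A ∈ glie M l :=
    fun g A hA => glie_conj M l g A hA
  obtain ⟨P, hP1, hP2, hP3, -, hP5⟩ := exists_proj (cj M l) (glie M l)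
    ((trF ℚ_[l] n).orthogonal (glie M l)) hstab (by
      intro g X hX
      rw [mem_orth] at hX ⊢
      intro B hB
      have h1 : (B * cj M l g X).trace =
          ((mat (M.ρ l) g⁻¹ * B * mat (M.ρ l) g) * X).trace := by
        rw [cj_apply, ← Matrix.mul_assoc, ← Matrix.mul_assoc, Matrix.trace_mul_comm,
          ← Matrix.mul_assoc, ← Matrix.mul_assoc]
      have h2 := glie_conj M l g⁻¹ B hB
      rw [inv_inv] at h2
      rw [h1]
      exact hX _ h2) (isCompl_orth _ hnd)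
  refine ⟨P, hP1, hP2, ?_, fun A B hB => ?_, hP5⟩
  · ext A : 1
    exact hP2 _ (hP1 A)
  · exact (mem_orth _ _).mp (hP3 A) B hB

/-- without any condition on the motive the derived algebras agree. -/
theorem der_eq' (tk : ST_TKR) (kt : ST_KTR) (cas2 : ST_CAS2) (M : RMot F n w h) (hw : 0 < w) (l : ℕ)
    [Fact l.Prime]
    (h22 : ∀ t : Tensor n 2 2 ℚ_[l], IsTateL M l t ↔ t ∈ hodgeSpan M ℚ_[l] 2 2)
    (P : Matrix (Fin n) (Fin n) ℚ_[l] →ₗ[ℚ_[l]] Matrix (Fin n) (Fin n) ℚ_[l])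
    (hP1 : ∀ A, P A ∈ glie M l) (hP2 : ∀ A ∈ glie M l, P A = A)
    (hP5 : ∀ g A, P (cj M l g A) = cj M l g (P A)) :
    der (glie M l) = der (spn ℚ_[l] (mlie M)) := by
  have hht : ∀ t : Tensor n 2 2 ℚ, M.IsHodge t → IsTateL M l (t.base ℚ_[l]) := fun t ht =>
    (h22 (t.base ℚ_[l])).mpr (hodge_mem M ℚ_[l] t ht)
  have hg0 : ∀ x ∈ glie M l, ∃ y ∈ spn ℚ_[l] (mlie M), (∀ A, A ∈ mlie M ∨ HodgeEnd M A →
      (x - y) * A.map (algebraMap ℚ ℚ_[l]) = A.map (algebraMap ℚ ℚ_[l]) * (x - y)) := by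
    intro x hx
    obtain ⟨y, hy, h1, -⟩ := st_ALG0 cas2 M hw ℚ_[l] x fun t ht =>
      tk F n w h M l 2 2 (t.base ℚ_[l]) (hht t ht) x hx
    exact ⟨y, hy, h1⟩
  -- the monodromy Lie algebra commutes with the Hodge endomorphisms
  have hge : ∀ x ∈ glie M l, ∀ e, HodgeEnd M e →
      x * e.map (algebraMap ℚ ℚ_[l]) = e.map (algebraMap ℚ ℚ_[l]) * x := by
    intro x hx e he
    have h1 := tk F n w h M l 2 2 _ (hht _ (hodge_two M e he)) x hx
    rw [two_base, map_cast_eq, kill_two] at h1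
    exact h1
  have htk : ∀ t : Tensor n 2 2 ℚ_[l], IsTateL M l t → ∀ X ∈ spn ℚ_[l] (mlie M), Kill X t :=
    fun t ht X hX => spn_kill_span M ℚ_[l] X hX 2 2 t ((h22 t).mp ht)
  have hPT : IsTateL M l (ten P) := ten_tate M l P hP5
  have hbr : ∀ X ∈ spn ℚ_[l] (mlie M), ∀ A, X * P A - P A * X = P (X * A - A * X) := by
    intro X hX A
    have h1 := (kill_op X (ten P)).mp (htk _ hPT X hX) A
    rw [op_ten, op_ten] at h1
    exact h1
  have hbg : ∀ X ∈ glie M l, ∀ A, X * P A - P A * X = P (X * A - A * X) := by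
    intro X hX A
    have h1 := (kill_op X (ten P)).mp (tk F n w h M l 2 2 _ hPT X hX) A
    rw [op_ten, op_ten] at h1
    exact h1
  have hpp : ∀ A, P (P A) = P A := fun A => hP2 _ (hP1 A)
  -- the elements of the Lie algebra, up to central elements
  have hh0 : ∀ y ∈ spn ℚ_[l] (mlie M), ∀ A, A ∈ mlie M ∨ HodgeEnd M A →
      (y - P y) * A.map (algebraMap ℚ ℚ_[l]) = A.map (algebraMap ℚ ℚ_[l]) * (y - P y) := by
    intro y hy
    have hPr : P (y - P y) = 0 := by rw [map_sub, hpp, sub_self]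
    have hcomm : ∀ A ∈ glie M l, A * (y - P y) = (y - P y) * A := by
      intro A hA
      have h1 := hbg A hA (y - P y)
      rw [hPr, Matrix.mul_zero, Matrix.zero_mul, sub_zero] at h1
      -- `[A, y] = - P [y, A]` is in `glie`
      have h2 : P (A * (y - P y) - (y - P y) * A) = A * (y - P y) - (y - P y) * A := by
        have e1 : A * (y - P y) - (y - P y) * A = (A * y - y * A) - (A * P y - P y * A) := by
          rw [Matrix.mul_sub, Matrix.sub_mul]
          abel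
        have e2 := hbg A hA y
        have e3 := hbr y hy A
        rw [hP2 A hA] at e3
        have e4 : P (A * y - y * A) = A * y - y * A := by
          have e5 : A * y - y * A = -(y * A - A * y) := by abel
          rw [e5, map_neg, ← e3]
        rw [e1, map_sub, e4, e2, hpp]
      rw [← sub_eq_zero, ← h2, ← h1]
    have hrT : IsTateL M l (two (y - P y)) := kt F n w h M l 2 2 (two (y - P y)) fun A hA =>
      (kill_two A _).mpr (hcomm A hA)
    rintro A (hA | hA)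
    · exact ((kill_two _ _).mp (htk _ hrT _ (mem_spn (C := ℚ_[l]) (mlie M) hA))).symm
    · rw [Matrix.sub_mul, Matrix.mul_sub, mlie_commute M ℚ_[l] A hA y hy, hge _ (hP1 y) A hA]
  have hcommr : ∀ y ∈ spn ℚ_[l] (mlie M), ∀ A ∈ glie M l, A * (y - P y) = (y - P y) * A := by
    intro y hy A hA
    obtain ⟨x, hx, h1⟩ := hg0 A hA
    have h2 := central_comm M hw ℚ_[l] _ _ h1 (hh0 y hy)
    have h3 := central_spn M ℚ_[l] _ x (hh0 y hy) hx
    have h4 : A = (A - x) + x := by abel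
    rw [h4, Matrix.add_mul, Matrix.mul_add, h2, h3]
  apply le_antisymm
  · refine Submodule.span_le.mpr ?_
    rintro _ ⟨A, hA, B, hB, rfl⟩
    obtain ⟨x, hx, h1⟩ := hg0 A hA
    obtain ⟨y, hy, h2⟩ := hg0 B hB
    have h3 := central_comm M hw ℚ_[l] _ _ h1 h2
    have h4 := central_spn M ℚ_[l] _ y h1 hy
    have h5 := central_spn M ℚ_[l] _ x h2 hx
    refine Submodule.subset_span ⟨x, hx, y, hy, ?_⟩
    have h6 : A * B - B * A - (x * y - y * x) = ((A - x) * (B - y) - (B - y) * (A - x)) +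
        ((A - x) * y - y * (A - x)) - ((B - y) * x - x * (B - y)) := by
      noncomm_ring
    rw [h3, h4, h5, sub_self, sub_self, sub_self, add_zero, sub_zero] at h6
    exact sub_eq_zero.mp h6
  · refine Submodule.span_le.mpr ?_
    rintro _ ⟨x, hx, y, hy, rfl⟩
    refine Submodule.subset_span ⟨P x, hP1 x, P y, hP1 y, ?_⟩
    have h1 := hcommr x hx (P y) (hP1 y)
    have h2 := hcommr y hy (P x) (hP1 x)
    have h3 := central_comm M hw ℚ_[l] _ _ (hh0 x hx) (hh0 y hy)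
    have h6 : x * y - y * x - (P x * P y - P y * P x) =
        ((x - P x) * (y - P y) - (y - P y) * (x - P x)) +
        (P x * (y - P y) - (y - P y) * P x) - (P y * (x - P x) - (x - P x) * P y) := by
      noncomm_ring
    rw [h3, h1, h2, sub_self, sub_self, sub_self, add_zero, sub_zero] at h6
    exact sub_eq_zero.mp h6

/-- without CM factor the Lie algebras agree -/
theorem lie_eq (tk : ST_TKR) (kt : ST_KTR) (bc : ST_BC) (hk : ST_HKR) (cas2 : ST_CAS2)
    (M : RMot F n w h) (hw : 0 < w) (hcm : NoCM M) (l : ℕ) [Fact l.Prime]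
    (h22 : ∀ t : Tensor n 2 2 ℚ_[l], IsTateL M l t ↔ t ∈ hodgeSpan M ℚ_[l] 2 2)
    (P : Matrix (Fin n) (Fin n) ℚ_[l] →ₗ[ℚ_[l]] Matrix (Fin n) (Fin n) ℚ_[l])
    (hP1 : ∀ A, P A ∈ glie M l) (hP2 : ∀ A ∈ glie M l, P A = A)
    (hP3 : ∀ A, ∀ B ∈ glie M l, (B * (A - P A)).trace = 0)
    (hP5 : ∀ g A, P (cj M l g A) = cj M l g (P A)) :
    glie M l = spn ℚ_[l] (mlie M) ∧
    ∀ (a b : ℕ) (t : Tensor n a b ℚ_[l]), IsTateL M l t ↔ t ∈ hodgeSpan M ℚ_[l] a b := by
  -- the monodromy Lie algebra is in the Lie algebra of the Mumford-Tate group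
  have hle : glie M l ≤ spn ℚ_[l] (mlie M) := glie_le tk (st_ALG cas2) M hw hcm l fun t ht =>
    (h22 (t.base ℚ_[l])).mpr (hodge_mem M ℚ_[l] t ht)
  have hsim : ∀ A ∈ spn ℚ_[l] (mlie M), ∃ c : ℚ_[l],
      A.transpose * M.ψ.map (algebraMap ℚ ℚ_[l]) + M.ψ.map (algebraMap ℚ ℚ_[l]) * A =
        c • M.ψ.map (algebraMap ℚ ℚ_[l]) :=
    spn_sim (C := ℚ_[l]) (mlie M) M.ψ (mlie_sim M)
  -- Tate classes in `T^(2,2)` are killed by the Lie algebra
  have htk : ∀ t : Tensor n 2 2 ℚ_[l], IsTateL M l t → ∀ X ∈ spn ℚ_[l] (mlie M), Kill X t :=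
    fun t ht X hX => spn_kill_span M ℚ_[l] X hX 2 2 t ((h22 t).mp ht)
  -- Tate endomorphisms in the Lie algebra are scalar
  have hsc : ∀ r ∈ spn ℚ_[l] (mlie M), IsTateL M l (two r) → ∀ c : ℚ_[l],
      r.transpose * M.ψ.map (algebraMap ℚ ℚ_[l]) + M.ψ.map (algebraMap ℚ ℚ_[l]) * r =
        c • M.ψ.map (algebraMap ℚ ℚ_[l]) →
      r = (2⁻¹ * c) • (1 : Matrix (Fin n) (Fin n) ℚ_[l]) := by
    intro r hr hT c hc
    refine scalar_of_central M hw hcm ℚ_[l] r ?_ c hc
    rintro A (hA | hA)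
    · exact ((kill_two _ r).mp (htk _ hT _ (mem_spn (C := ℚ_[l]) (mlie M) hA))).symm
    · exact mlie_commute M ℚ_[l] A hA r hr
  -- the scalars
  have hPT : IsTateL M l (ten P) := ten_tate M l P hP5
  have hbr : ∀ X ∈ spn ℚ_[l] (mlie M), ∀ A, X * P A - P A * X = P (X * A - A * X) := by
    intro X hX A
    have h1 := (kill_op X (ten P)).mp (htk _ hPT X hX) A
    rw [op_ten, op_ten] at h1
    exact h1
  have hone : (1 : Matrix (Fin n) (Fin n) ℚ_[l]) ∈ glie M l := by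
    rcases Nat.eq_zero_or_pos n with hn | hn
    · subst hn
      have : (1 : Matrix (Fin 0) (Fin 0) ℚ_[l]) = 0 := Subsingleton.elim _ _
      rw [this]
      exact (glie M l).zero_mem
    obtain ⟨A, hA, c, hc0, hc⟩ := exists_mul kt M hw hn l fun A hA => hsim A (hle hA)
    have hinv : ∀ g : Gal F, mat (M.ρ l) g * P 1 * mat (M.ρ l) g⁻¹ = P 1 := by
      intro g
      have h1 := hP5 g 1
      rw [cj_apply, cj_apply, Matrix.mul_one, mat_inv'] at h1
      exact h1.symm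
    obtain ⟨c', hc'⟩ := hsim (P 1) (hle (hP1 1))
    have h1 := hsc (P 1) (hle (hP1 1)) (two_tate M l (P 1) hinv) c' hc'
    have h2 : (2⁻¹ * c' : ℚ_[l]) ≠ 0 := by
      intro h0
      rw [h0, zero_smul] at h1
      have h3 := hP3 1 A hA
      rw [h1, sub_zero, Matrix.mul_one] at h3
      -- `2 tr A = n c`
      have hu : IsUnit (M.ψ.map (algebraMap ℚ ℚ_[l])).det := by
        have h4 : (M.ψ.map (algebraMap ℚ ℚ_[l])).det = algebraMap ℚ ℚ_[l] M.ψ.det :=
          (RingHom.map_det (algebraMap ℚ ℚ_[l]) M.ψ).symm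
        rw [h4]
        exact (isUnit_iff_ne_zero.mpr M.ψ_det).map _
      have h4 : ((M.ψ.map (algebraMap ℚ ℚ_[l]))⁻¹ * (A.transpose * M.ψ.map (algebraMap ℚ ℚ_[l]) +
          M.ψ.map (algebraMap ℚ ℚ_[l]) * A)).trace = c * n := by
        rw [hc, Matrix.mul_smul, Matrix.nonsing_inv_mul _ hu, Matrix.trace_smul, Matrix.trace_one,
          Fintype.card_fin, smul_eq_mul]
      rw [Matrix.mul_add, Matrix.trace_add, Matrix.trace_mul_comm, Matrix.mul_assoc,
        Matrix.mul_nonsing_inv _ hu, Matrix.mul_one, Matrix.trace_transpose, h3, zero_add,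
        ← Matrix.mul_assoc, Matrix.nonsing_inv_mul _ hu, Matrix.one_mul, h3] at h4
      rcases mul_eq_zero.mp h4.symm with h5 | h5
      · exact hc0 h5
      · exact hn.ne' (by exact_mod_cast h5)
    have h3 : (1 : Matrix (Fin n) (Fin n) ℚ_[l]) = (2⁻¹ * c')⁻¹ • P 1 := by
      rw [h1, smul_smul, inv_mul_cancel₀ h2, one_smul]
    rw [h3]
    exact (glie M l).smul_mem _ (hP1 1)
  have heq : glie M l = spn ℚ_[l] (mlie M) := by
    refine le_antisymm hle fun y hy => ?_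
    set r := y - P y with hr
    have hrU : r ∈ spn ℚ_[l] (mlie M) := (spn ℚ_[l] (mlie M)).sub_mem hy (hle (hP1 y))
    have hPr : P r = 0 := by rw [hr, map_sub, hP2 _ (hP1 y), sub_self]
    have hcomm : ∀ A ∈ glie M l, A * r = r * A := by
      intro A hA
      have h1 := hbr A (hle hA) r
      rw [hPr, Matrix.mul_zero, Matrix.zero_mul, sub_zero] at h1
      have h2 := hbr r hrU A
      rw [hP2 A hA] at h2
      -- `[r, A] = P [r, A] = - P [A, r] = 0`
      have h3 : P (r * A - A * r) = 0 := by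
        have h4 : r * A - A * r = -(A * r - r * A) := by abel
        rw [h4, map_neg, ← h1, neg_zero]
      rw [h3] at h2
      exact (sub_eq_zero.mp h2).symm
    have hrT : IsTateL M l (two r) := kt F n w h M l 2 2 (two r) fun A hA =>
      (kill_two A r).mpr (hcomm A hA)
    obtain ⟨c, hc⟩ := hsim r hrU
    have h1 := hsc r hrU hrT c hc
    have h2 : y = P y + (2⁻¹ * c) • (1 : Matrix (Fin n) (Fin n) ℚ_[l]) := by
      rw [← h1, hr]
      abel
    rw [h2]
    exact (glie M l).add_mem (hP1 y) ((glie M l).smul_mem _ hone)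
  refine ⟨heq, fun a b t => ⟨fun ht => ?_, fun ht => ?_⟩⟩
  · have h1 := bc n a b (mlie M) ℚ_[l] t fun A hA =>
      tk F n w h M l a b t ht _ (by
        rw [heq]
        exact mem_spn (C := ℚ_[l]) (mlie M) hA)
    refine Submodule.span_mono ?_ h1
    rintro s ⟨t₀, ht₀, rfl⟩
    exact ⟨t₀, hk F n w h M hw a b t₀ ht₀, rfl⟩
  · exact kt F n w h M l a b t fun A hA => by
      rw [heq] at hA
      exact spn_kill_span M ℚ_[l] A hA a b t ht

/-- Hodge classes which are Tate: one inclusion -/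
theorem gl0_sub (M : RMot F n w h) (l : ℕ) [Fact l.Prime]
    (hT : ∀ (a b : ℕ) (t : Tensor n a b ℚ), M.IsHodge t → IsTateL M l (t.base ℚ_[l]))
    (K : Type) [Field K] [Algebra ℚ_[l] K] : M.Gl0 l K ⊆ M.Gsigma K := by
  intro g hg a b t ht
  obtain ⟨H, hH, hfix⟩ := hT a b t ht
  refine st_TEN.1 ℚ_[l] n a b (M.ρ l '' H) t ?_ K g (hg H hH)
  rintro _ ⟨s, hs, rfl⟩
  exact hfix s hs

/-- the final theorem, up to the modules -/
theorem fin_of (tk : ST_TKR) (kt : ST_KTR) (cas2 : ST_CAS2) (bc : ST_BC) (hk : ST_HKR)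
    (rpl : ST_RPL) (eng : HG.ST_ENG) (grp : ST_GRPR) (F : Type) [Field F] [NumberField F]
    (n w : ℕ) (hw : 0 < w) (h : Fin n → ℕ) (M : RMot F n w h) (l : ℕ)
    [Fact l.Prime] :
    ((∀ t : Tensor n 2 2 ℚ, M.IsHodge t → IsTateL M l (t.base ℚ_[l])) → NoCM M →
      (∀ (a b : ℕ) (t : Tensor n a b ℚ), M.IsHodge t → IsTateL M l (t.base ℚ_[l])) ∧
      ∀ (K : Type) [Field K] [Algebra ℚ_[l] K], M.Gl0 l K ⊆ M.Gsigma K) ∧
    ((∀ t : Tensor n 2 2 ℚ_[l], IsTateL M l t ↔ t ∈ hodgeSpan M ℚ_[l] 2 2) → Semi M l →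
      der (glie M l) = der (spn ℚ_[l] (mlie M)) ∧
      (NoCM M → (∀ (K : Type) [Field K] [Algebra ℚ_[l] K], M.Gl0 l K = M.Gsigma K) ∧
        ∀ (a b : ℕ) (t : Tensor n a b ℚ_[l]), IsTateL M l t ↔ t ∈ hodgeSpan M ℚ_[l] a b)) := by
  refine ⟨fun h22 hcm => ?_, fun h22 hss => ?_⟩
  · have h1 := st_G1 tk kt (st_ALG cas2) M hw hcm l h22
    exact ⟨h1, fun K _ _ => gl0_sub M l h1 K⟩
  · obtain ⟨P, hP1, hP2, -, hP3, hP5⟩ := exists_proj_glie M l
      fun A hA hAB => glie_nondeg rpl eng M l hss A hA hAB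
    refine ⟨der_eq' tk kt cas2 M hw l h22 P hP1 hP2 hP5, fun hcm => ?_⟩
    obtain ⟨h1, h2⟩ := lie_eq tk kt bc hk cas2 M hw hcm l h22 P hP1 hP2 hP3 hP5
    exact ⟨fun K _ _ => grp F n w h M hw l h1 K, h2⟩

end EG

end EM
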