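import Pool.Agent.Helper21.EM.All
import Pool.Agent.Helper21.EM.PT22

/-!
# T33: the theorem on the Mumford-Tate conjecture for motives with endomorphisms
-/

set_option autoImplicit false

open NumberField MU MT MR

namespace EM

/-- No factor with complex multiplication: the endomorphisms in the centre of the algebra of
endomorphisms of the Hodge structure are self-adjoint for the polarisation. -/
def NoCM {F : Type} [Field F] [NumberField F] {n w : ℕ} {h : Fin n → ℕ} (M : RMot F n w h) :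
    Prop :=
  ∀ X ∈ HodgeEnd M, (∀ Y ∈ HodgeEnd M, X * Y = Y * X) → adj M.ψ X = X

/-- The Mumford-Tate conjecture for `M` and `l`, for the derived Lie algebras; and completely if `M`
has no factor with complex multiplication. -/
def MTC {F : Type} [Field F] [NumberField F] {n w : ℕ} {h : Fin n → ℕ} (M : RMot F n w h)
    (l : ℕ) [Fact l.Prime] : Prop :=
  HG.der (glie M l) = HG.der (spn ℚ_[l] (MR.mlie M)) ∧
  (NoCM M → (∀ (K : Type) [Field K] [Algebra ℚ_[l] K], M.Gl0 l K = M.Gsigma K) ∧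
    ∀ (a b : ℕ) (t : Tensor n a b ℚ_[l]), IsTateL M l t ↔ t ∈ hodgeSpan M ℚ_[l] a b)

/-- motivic endomorphisms commute with each other -/
theorem EMot.comm {F : Type} [Field F] [NumberField F] {n w : ℕ} {h : Fin n → ℕ}
    (M : EMot F n w h) (hE : M.EndMot) (X Y : Matrix (Fin n) (Fin n) ℚ)
    (hX : X ∈ HodgeEnd M.toRMot) (hY : Y ∈ HodgeEnd M.toRMot) : X * Y = Y * X := by
  have h1 := M.hodge_e X (hE X hX)
  have h2 := M.hodge_e Y (hE Y hY)
  have hbm : ∀ A B : Matrix (Fin n) (Fin n) ℚ, bas ℂ (A * B) = bas ℂ A * bas ℂ B := by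
    intro A B
    rw [HG.bas_eq_map, HG.bas_eq_map, HG.bas_eq_map, Matrix.map_mul]
  have h3 : bas ℂ (X * Y) * (M.hodge : Matrix (Fin n) (Fin n) ℂ) =
      bas ℂ (Y * X) * (M.hodge : Matrix (Fin n) (Fin n) ℂ) := by
    have h5 : bas ℂ X * (bas ℂ Y * (M.hodge : Matrix (Fin n) (Fin n) ℂ)) =
        (M.hodge : Matrix (Fin n) (Fin n) ℂ) * (Matrix.diagonal (fun j => M.σ₀ (M.e X j)) *
          Matrix.diagonal (fun j => M.σ₀ (M.e Y j))) := by
      rw [h2, ← Matrix.mul_assoc, h1, Matrix.mul_assoc]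
    have h6 : bas ℂ Y * (bas ℂ X * (M.hodge : Matrix (Fin n) (Fin n) ℂ)) =
        (M.hodge : Matrix (Fin n) (Fin n) ℂ) * (Matrix.diagonal (fun j => M.σ₀ (M.e Y j)) *
          Matrix.diagonal (fun j => M.σ₀ (M.e X j))) := by
      rw [h1, ← Matrix.mul_assoc, h2, Matrix.mul_assoc]
    rw [hbm, hbm, Matrix.mul_assoc, Matrix.mul_assoc, h5, h6, Matrix.diagonal_mul_diagonal,
      Matrix.diagonal_mul_diagonal]
    congr 2
    funext j
    exact mul_comm _ _
  have h4 : bas ℂ (X * Y) = bas ℂ (Y * X) := by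
    have h5 := congrArg (fun Z => Z * ((M.hodge⁻¹ : Matrix.GeneralLinearGroup (Fin n) ℂ) :
      Matrix (Fin n) (Fin n) ℂ)) h3
    simp only [Matrix.mul_assoc] at h5
    rw [Units.mul_inv, Matrix.mul_one, Matrix.mul_one] at h5
    exact h5
  rw [HG.bas_eq_map, HG.bas_eq_map] at h4
  ext i j
  have h5 := congrFun (congrFun h4 i) j
  exact (algebraMap ℚ ℂ).injective h5

theorem EMot.real {F : Type} [Field F] [NumberField F] {n w : ℕ} {h : Fin n → ℕ}
    (M : EMot F n w h) (hE : M.EndMot) (hN : NoCM M.toRMot) : M.Real :=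
  fun X hX => hN X hX fun Y hY => M.comm hE X Y hX hY

/-- `M` underlies a motive with a good system of eigenvalues of the endomorphisms, and the
endomorphisms of its Hodge structure are motivic -/
def GoodEnd {F : Type} [Field F] [NumberField F] {n w : ℕ} {h : Fin n → ℕ} (M : RMot F n w h) :
    Prop :=
  ∃ E : EMot F n w h, E.toRMot = M ∧ E.EndMot ∧ E.Good

/-- the final theorem -/
theorem final (F : Type) [Field F] [NumberField F] (n w : ℕ) (hw : 0 < w) (h : Fin n → ℕ)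
    (M : RMot F n w h) :
    (GoodEnd M → HG.der (MR.mlie M) = HG.der (LefE M.ψ (HodgeEnd M)) ∧
      (NoCM M → ∀ A, A ∈ MR.mlie M ↔
        (∃ c : ℚ, A.transpose * M.ψ + M.ψ * A = c • M.ψ) ∧ ∀ X ∈ HodgeEnd M, A * X = X * A)) ∧
    ∀ (l : ℕ) [Fact l.Prime] (d : ℕ), (d = 2 ∨ (d = 1 ∧ GoodEnd M)) → Semi M l →
      (∀ t : Tensor n d d ℚ_[l], IsTateL M l t ↔ t ∈ hodgeSpan M ℚ_[l] d d) → MTC M l := by
  refine ⟨?_, ?_⟩
  · rintro ⟨E, rfl, hE, hG⟩
    obtain ⟨h1, h2⟩ := fina_final F n w h E hw hE hG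
    exact ⟨h1, fun hN => h2 (E.real hE hN)⟩
  · rintro l _ d (rfl | ⟨rfl, E, rfl, hE, hG⟩) hS hT
    · obtain ⟨-, h2⟩ := EG.fin_of st_TKR st_KTR HG.st_CAS2 HG.st_BC st_HKR HG.st_RPL HG.st_ENG
        grp_final F n w hw h M l
      exact h2 hT hS
    · obtain ⟨h3, h4⟩ := finb_final F n w h E l hw hE hG hS hT
      exact ⟨h3, fun hN => h4 (E.real hE hN)⟩

end EM
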