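import Pool.Agent.Helper21.EM.FINHB
import Pool.Agent.Helper78.EM.MTH
import Pool.Agent.Helper82.EM.HLI
import Pool.Agent.Helper25.EM.BLK
import Pool.Agent.Helper25.EM.RDC
import Pool.Agent.Helper1.EM.BTN
import Pool.Agent.Helper21.EM.All

/-!
# T33: the theorem on Hodge tensors of Hodge structures with endomorphisms
-/

set_option autoImplicit false

namespace EH

open Matrix Pool.Agent.Helper82.AHS Pool.Agent.Helper21.TH

theorem mth_final : ST_MTH := st_MTH EM.hco_final st_HLI st_SYM

theorem wke_final : ST_WKE := st_WKE mth_final st_RDC EM.st_BCH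

theorem fxh_final : ST_FXH :=
  st_FXH mth_final (st_BLK st_BTN) EM.st_BCH st_HLI st_SYM st_KPL st_WT0

theorem finh_final : ST_FINH := fin_h wke_final fxh_final

end EH
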