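import Pool.Agent.Helper21.EM.PGLI

/-!
# T33: the theorem for `T^(2,2)`, port to `RMot` of helper6's files (algebraic part)
-/

set_option autoImplicit false

open NumberField MU MT MR HD

namespace EM

namespace EG

open HG (two two_base kill_two act_two commutant_base bas_eq_map map_cast_eq kill_polC commute_hz der ST_CAS2 op ten op_ten act_op kill_op exists_proj base_eq tadd_kill tsmul_kill ST_RPL ST_ENG ST_BC trF trF_apply trF_refl isCompl_orth mem_orth)

variable {F : Type} [Field F] [NumberField F] {n w : ℕ} {h : Fin n → ℕ}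

/-- the endomorphisms of the Hodge structure of `M` -/
def HodgeEnd (M : RMot F n w h) (e : Matrix (Fin n) (Fin n) ℚ) : Prop :=
  ∀ z : ℂˣ, (hz M.hodge h w z : Matrix (Fin n) (Fin n) ℂ) * e.map (algebraMap ℚ ℂ) =
    e.map (algebraMap ℚ ℂ) * (hz M.hodge h w z : Matrix (Fin n) (Fin n) ℂ)

/-- No factor with complex multiplication: the endomorphisms in the centre of the algebra of
endomorphisms of the Hodge structure are self-adjoint for the polarisation. -/
def NoCM (M : RMot F n w h) : Prop :=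
  ∀ e : Matrix (Fin n) (Fin n) ℚ, HodgeEnd M e → (∀ e', HodgeEnd M e' → e * e' = e' * e) →
    M.ψ⁻¹ * e.transpose * M.ψ = e

theorem hz_fix_inv (M : RMot F n w h) (z : ℂˣ) (a b : ℕ) (t : Tensor n a b ℚ)
    (ht : M.IsHodge t) : act (hz M.hodge h w z)⁻¹ (t.base ℂ) = t.base ℂ := by
  have h1 := ht z
  conv_lhs => rw [← h1]
  rw [act_mul, inv_mul_cancel, act_one]

theorem mlie_nondeg (pos : MR.ST_POS) (M : RMot F n w h) (hw : 0 < w)
    (A : Matrix (Fin n) (Fin n) ℚ) (hA : A ∈ mlie M)
    (hAB : ∀ B ∈ mlie M, (A * B).trace = 0) : A = 0 := by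
  refine pos F n w h M A (Units.mk0 Complex.I Complex.I_ne_zero) rfl ?_
  refine trace_spn A hAB _ ?_
  refine spn_conj_hz M _ (fun a b t ht => ht _) _ ?_
  exact Submodule.subset_span ⟨_, mlie_star M hw A hA, rfl⟩

/-- ALG: the algebraic part. -/
def ST_ALG : Prop :=
  ∀ (F : Type) [Field F] [NumberField F] (n w : ℕ) (h : Fin n → ℕ)
    (M : RMot F n w h), 0 < w → NoCM M → ∀ (C : Type) [Field C] [Algebra ℚ C]
    (x : Matrix (Fin n) (Fin n) C),
    (∀ t : Tensor n 2 2 ℚ, M.IsHodge t → Kill x (t.base C)) → x ∈ spn C (mlie M)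

/-- the matrices over `C` which kill the polarisation are infinitesimal similitudes -/
theorem kill_polC {n : ℕ} (C : Type) [Field C] [Algebra ℚ C] (ψ : Matrix (Fin n) (Fin n) ℚ)
    (A : Matrix (Fin n) (Fin n) C) (hψ : ψ.det ≠ 0)
    (hA : Kill A ((polTen ψ).base C)) :
    ∃ c : C, A.transpose * ψ.map (algebraMap ℚ C) + ψ.map (algebraMap ℚ C) * A =
      c • ψ.map (algebraMap ℚ C) := by
  have : CharZero C := charZero_of_injective_algebraMap (algebraMap ℚ C).injective
  rcases Nat.eq_zero_or_pos n with h0 | h0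
  · subst h0
    exact ⟨0, Subsingleton.elim _ _⟩
  have hu : IsUnit ψ.det := isUnit_iff_ne_zero.mpr hψ
  have hne : ∃ i j, ψ⁻¹ i j ≠ 0 := by
    by_contra hcon
    push Not at hcon
    have h0' : ψ⁻¹ = 0 := by ext i j; exact hcon i j
    have h1 := Matrix.mul_nonsing_inv ψ hu
    rw [h0', Matrix.mul_zero] at h1
    have h2 := congrFun (congrFun h1 ⟨0, h0⟩) ⟨0, h0⟩
    simp at h2
  obtain ⟨i0, i1, hi⟩ := hne
  set ψ' := ψ.map (algebraMap ℚ C) with hψ'
  set χ := (ψ⁻¹).map (algebraMap ℚ C) with hχ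
  have hi' : χ i0 i1 ≠ 0 := by
    rw [hχ, Matrix.map_apply]
    exact (map_ne_zero (algebraMap ℚ C)).mpr hi
  unfold Kill at hA
  have hp : (Matrix.of ((polTen ψ).base C) : Matrix (Fin 2 → Fin n) (Fin 2 → Fin n) C) =
      polT χ ψ' := by
    ext i j
    simp [polTen, Tensor.base, polT, hχ, hψ']
  rw [hp, dtp_two, Matrix.add_mul, Matrix.mul_add] at hA
  refine ⟨(χ i0 i1)⁻¹ * ((A * χ + χ * A.transpose) i0 i1), ?_⟩
  ext j0 j1
  have h1 := congrFun (congrFun hA ![i0, i1]) ![j0, j1]
  rw [Matrix.add_apply, Matrix.add_apply, tpf_two_polT, tpf_two_polT, polT_tpf_two,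
    polT_tpf_two] at h1
  simp only [Matrix.cons_val_zero, Matrix.cons_val_one, Matrix.transpose_one, Matrix.mul_one,
    Matrix.one_mul] at h1
  rw [Matrix.smul_apply, smul_eq_mul, Matrix.add_apply, Matrix.add_apply]
  have h2 : χ i0 i1 * ((A.transpose * ψ') j0 j1 + (ψ' * A) j0 j1) =
      ((A * χ) i0 i1 + (χ * A.transpose) i0 i1) * ψ' j0 j1 := by
    linear_combination -h1
  rw [mul_assoc, ← h2, ← mul_assoc, inv_mul_cancel₀ hi', one_mul]


variable {F : Type} [Field F] [NumberField F] {n w : ℕ} {h : Fin n → ℕ}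

theorem hodge_two (M : RMot F n w h) (e : Matrix (Fin n) (Fin n) ℚ) (he : HodgeEnd M e) :
    M.IsHodge (two e) := by
  intro z
  rw [two_base, map_cast_eq, act_two]
  exact he z



/-- the rational matrices which commute with the Lie algebra are Hodge endomorphisms -/
theorem hodgeEnd_of_commute (M : RMot F n w h) (hw : 0 < w) (e : Matrix (Fin n) (Fin n) ℚ)
    (he : ∀ A ∈ mlie M, e * A = A * e) : HodgeEnd M e := by
  intro z
  apply commute_hz
  have h1 : ∀ X ∈ spn ℂ (mlie M), X * e.map (algebraMap ℚ ℂ) = e.map (algebraMap ℚ ℂ) * X := by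
    intro X hX
    unfold spn at hX
    induction hX using Submodule.span_induction with
    | mem x hx =>
      obtain ⟨A, hA, rfl⟩ := hx
      rw [← Matrix.map_mul, ← Matrix.map_mul, he A hA]
    | zero => rw [Matrix.zero_mul, Matrix.mul_zero]
    | add x y _ _ hx hy => rw [Matrix.add_mul, Matrix.mul_add, hx, hy]
    | smul c x _ hx => rw [Matrix.smul_mul, Matrix.mul_smul, hx]
  exact h1 _ (hodge_mem_spn M hw)

/-- the elements of the Lie algebra commute with the Hodge endomorphisms -/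
theorem mlie_commute (M : RMot F n w h) (C : Type) [Field C] [Algebra ℚ C]
    (e : Matrix (Fin n) (Fin n) ℚ) (he : HodgeEnd M e) (X : Matrix (Fin n) (Fin n) C)
    (hX : X ∈ spn C (mlie M)) : X * e.map (algebraMap ℚ C) = e.map (algebraMap ℚ C) * X := by
  unfold spn at hX
  induction hX using Submodule.span_induction with
  | mem x hx =>
    obtain ⟨A, hA, rfl⟩ := hx
    rw [← Matrix.map_mul, ← Matrix.map_mul, (kill_two A e).mp (hA 2 2 _ (hodge_two M e he))]
  | zero => rw [Matrix.zero_mul, Matrix.mul_zero]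
  | add x y _ _ hx hy => rw [Matrix.add_mul, Matrix.mul_add, hx, hy]
  | smul c x _ hx => rw [Matrix.smul_mul, Matrix.mul_smul, hx]

/-- the centre of the algebra of Hodge endomorphisms (as the commutant of the Lie algebra and of the
Hodge endomorphisms) -/
def cen (M : RMot F n w h) : Submodule ℚ (Matrix (Fin n) (Fin n) ℚ) where
  carrier := {e | ∀ A, A ∈ mlie M ∨ HodgeEnd M A → e * A = A * e}
  add_mem' := fun {x y} hx hy A hA => by rw [Matrix.add_mul, Matrix.mul_add, hx A hA, hy A hA]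
  zero_mem' := fun A _ => by rw [Matrix.zero_mul, Matrix.mul_zero]
  smul_mem' := fun c x hx A hA => by rw [Matrix.smul_mul, Matrix.mul_smul, hx A hA]

/-- in the absence of complex multiplication the centre is self-adjoint -/
theorem cen_self (M : RMot F n w h) (hw : 0 < w) (hcm : NoCM M) (C : Type) [Field C]
    [Algebra ℚ C] (z : Matrix (Fin n) (Fin n) C) (hz : z ∈ spn C (cen M)) :
    z.transpose * M.ψ.map (algebraMap ℚ C) = M.ψ.map (algebraMap ℚ C) * z := by
  unfold spn at hz
  induction hz using Submodule.span_induction with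
  | mem x hx =>
    obtain ⟨e, he, rfl⟩ := hx
    have h1 : HodgeEnd M e := hodgeEnd_of_commute M hw e fun A hA => he A (Or.inl hA)
    have h2 := hcm e h1 fun e' he' => he e' (Or.inr he')
    have hu : IsUnit M.ψ.det := isUnit_iff_ne_zero.mpr M.ψ_det
    have h3 : e.transpose * M.ψ = M.ψ * e := by
      conv_rhs => rw [← h2]
      rw [Matrix.mul_assoc, ← Matrix.mul_assoc, Matrix.mul_nonsing_inv _ hu, Matrix.one_mul]
    rw [← Matrix.transpose_map, ← Matrix.map_mul, ← Matrix.map_mul, h3]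
  | zero => rw [Matrix.transpose_zero, Matrix.zero_mul, Matrix.mul_zero]
  | add x y _ _ hx hy => rw [Matrix.transpose_add, Matrix.add_mul, Matrix.mul_add, hx, hy]
  | smul c x _ hx => rw [Matrix.transpose_smul, Matrix.smul_mul, Matrix.mul_smul, hx]

/-- a self-adjoint infinitesimal similitude is scalar -/
theorem scalar_of_self (M : RMot F n w h) (C : Type) [Field C] [Algebra ℚ C]
    (z : Matrix (Fin n) (Fin n) C)
    (hz : z.transpose * M.ψ.map (algebraMap ℚ C) = M.ψ.map (algebraMap ℚ C) * z) (c : C)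
    (hc : z.transpose * M.ψ.map (algebraMap ℚ C) + M.ψ.map (algebraMap ℚ C) * z =
      c • M.ψ.map (algebraMap ℚ C)) :
    z = (2⁻¹ * c) • (1 : Matrix (Fin n) (Fin n) C) := by
  have hC : CharZero C := charZero_of_injective_algebraMap (algebraMap ℚ C).injective
  set ψ' := M.ψ.map (algebraMap ℚ C) with hψ'
  have hu : IsUnit ψ'.det := by
    have h1 : ψ'.det = algebraMap ℚ C M.ψ.det := (RingHom.map_det (algebraMap ℚ C) M.ψ).symm
    rw [h1]
    exact (isUnit_iff_ne_zero.mpr M.ψ_det).map _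
  rw [hz, ← two_smul C] at hc
  have h2 : z = ψ'⁻¹ * (ψ' * z) := by
    rw [← Matrix.mul_assoc, Matrix.nonsing_inv_mul _ hu, Matrix.one_mul]
  have h3 : ψ' * z = (2⁻¹ * c) • ψ' := by
    rw [mul_smul, ← hc, smul_smul, inv_mul_cancel₀ two_ne_zero, one_smul]
  rw [h2, h3, Matrix.mul_smul, Matrix.nonsing_inv_mul _ hu]

/-- the key step: an infinitesimal similitude which commutes with the Lie algebra and with the Hodge
endomorphisms is scalar -/
theorem scalar_of_central (M : RMot F n w h) (hw : 0 < w) (hcm : NoCM M) (C : Type) [Field C]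
    [Algebra ℚ C] (z : Matrix (Fin n) (Fin n) C)
    (hz : ∀ A, A ∈ mlie M ∨ HodgeEnd M A →
      z * A.map (algebraMap ℚ C) = A.map (algebraMap ℚ C) * z) (c : C)
    (hc : z.transpose * M.ψ.map (algebraMap ℚ C) + M.ψ.map (algebraMap ℚ C) * z =
      c • M.ψ.map (algebraMap ℚ C)) :
    z = (2⁻¹ * c) • (1 : Matrix (Fin n) (Fin n) C) := by
  refine scalar_of_self M C z (cen_self M hw hcm C z ?_) c hc
  exact commutant_base {A | A ∈ mlie M ∨ HodgeEnd M A} C (cen M) (fun e he A hA => he A hA) z hz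

/-- ALG0: the algebraic part, in general: a matrix which kills the Hodge classes in `T^(2,2)` is in
the Lie algebra up to a central infinitesimal similitude. -/
theorem st_ALG0 (cas2 : ST_CAS2) (M : RMot F n w h) (hw : 0 < w) (C : Type) [Field C]
    [Algebra ℚ C] (x : Matrix (Fin n) (Fin n) C)
    (hx : ∀ t : Tensor n 2 2 ℚ, M.IsHodge t → Kill x (t.base C)) :
    ∃ y ∈ spn C (mlie M), (∀ A, A ∈ mlie M ∨ HodgeEnd M A →
      (x - y) * A.map (algebraMap ℚ C) = A.map (algebraMap ℚ C) * (x - y)) ∧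
      ∃ c : C, (x - y).transpose * M.ψ.map (algebraMap ℚ C) + M.ψ.map (algebraMap ℚ C) * (x - y) =
        c • M.ψ.map (algebraMap ℚ C) := by
  obtain ⟨Ω, hΩ1, hΩ2⟩ := cas2 n (mlie M) (fun A hA hAB => mlie_nondeg MR.st_POS M hw A hA hAB)
  have hΩ : M.IsHodge Ω := by
    intro z
    refine hΩ1 _ (spn_conj_hz M _ fun a b t ht => ht z) ?_
    have h1 := spn_conj_hz M (hz M.hodge h w z)⁻¹ fun a b t ht => hz_fix_inv M z a b t ht
    rw [inv_inv] at h1
    exact h1
  obtain ⟨hc1, hc2, hc3⟩ := hΩ2 C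
  have hbr := spn_br (C := C) (mlie M) fun A hA B hB a b t ht => (hA a b t ht).lie (hB a b t ht)
  have hxU := hc1 x (hx Ω hΩ)
  obtain ⟨y, hy, hxy⟩ := hc2 x
  -- `z = x - y` commutes with the Lie algebra
  have hzU : ∀ A ∈ spn C (mlie M), (x - y) * A = A * (x - y) := by
    intro A hA
    rw [← sub_eq_zero]
    apply hc3
    · have h1 : (x - y) * A - A * (x - y) = (x * A - A * x) - (y * A - A * y) := by
        rw [Matrix.sub_mul, Matrix.mul_sub]
        abel
      rw [h1]
      exact (spn C (mlie M)).sub_mem (hxU A hA) (hbr y hy A hA)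
    · intro B hB
      have h1 : ∀ Z : Matrix (Fin n) (Fin n) C,
          ((Z * A - A * Z) * B).trace = (Z * (A * B - B * A)).trace := by
        intro Z
        have h3 : (A * Z * B).trace = (Z * (B * A)).trace := by
          rw [Matrix.mul_assoc, Matrix.trace_mul_comm, Matrix.mul_assoc]
        rw [Matrix.sub_mul, Matrix.trace_sub, h3, Matrix.mul_sub, Matrix.trace_sub,
          Matrix.mul_assoc]
      rw [h1]
      exact hxy _ (hbr A hA B hB)
  have hzE : ∀ e, HodgeEnd M e → (x - y) * e.map (algebraMap ℚ C) =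
      e.map (algebraMap ℚ C) * (x - y) := by
    intro e he
    have h1 := hx _ (hodge_two M e he)
    rw [two_base, map_cast_eq, kill_two] at h1
    rw [Matrix.sub_mul, Matrix.mul_sub, h1, mlie_commute M C e he y hy]
  obtain ⟨c, hc⟩ := kill_polC C M.ψ x M.ψ_det (hx _ (hodge_pol M))
  obtain ⟨d, hd⟩ := spn_sim (C := C) (mlie M) M.ψ (mlie_sim M) y hy
  have hcd : (x - y).transpose * M.ψ.map (algebraMap ℚ C) + M.ψ.map (algebraMap ℚ C) * (x - y) =
      (c - d) • M.ψ.map (algebraMap ℚ C) := by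
    rw [sub_smul, ← hc, ← hd, Matrix.transpose_sub, Matrix.sub_mul, Matrix.mul_sub]
    abel
  refine ⟨y, hy, fun A hA => ?_, c - d, hcd⟩
  rcases hA with hA | hA
  · exact hzU _ (mem_spn _ hA)
  · exact hzE A hA

/-- ALG -/
theorem st_ALG (cas2 : ST_CAS2) : ST_ALG := by
  intro F _ _ n w h M hw hcm C _ _ x hx
  obtain ⟨y, hy, hz, c, hc⟩ := st_ALG0 cas2 M hw C x hx
  have hsc := scalar_of_central M hw hcm C (x - y) hz c hc
  have hfin : x = y + (2⁻¹ * c) • (1 : Matrix (Fin n) (Fin n) C) := by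
    rw [← hsc]
    abel
  rw [hfin]
  exact (spn C (mlie M)).add_mem hy ((spn C (mlie M)).smul_mem _ (one_mem_spn M hw C))

/-- two central matrices commute -/
theorem central_comm (M : RMot F n w h) (hw : 0 < w) (C : Type) [Field C]
    [Algebra ℚ C] (z z' : Matrix (Fin n) (Fin n) C)
    (hz : ∀ A, A ∈ mlie M ∨ HodgeEnd M A →
      z * A.map (algebraMap ℚ C) = A.map (algebraMap ℚ C) * z)
    (hz' : ∀ A, A ∈ mlie M ∨ HodgeEnd M A →
      z' * A.map (algebraMap ℚ C) = A.map (algebraMap ℚ C) * z') : z * z' = z' * z := by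
  have h1 : z' ∈ spn C (cen M) :=
    commutant_base {A | A ∈ mlie M ∨ HodgeEnd M A} C (cen M) (fun e he A hA => he A hA) z' hz'
  clear hz'
  unfold spn at h1
  induction h1 using Submodule.span_induction with
  | mem x hx =>
    obtain ⟨e, he, rfl⟩ := hx
    exact hz e (Or.inr (hodgeEnd_of_commute M hw e fun A hA => he A (Or.inl hA)))
  | zero => rw [Matrix.zero_mul, Matrix.mul_zero]
  | add x y _ _ hx hy => rw [Matrix.add_mul, Matrix.mul_add, hx, hy]
  | smul c x _ hx => rw [Matrix.smul_mul, Matrix.mul_smul, hx]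

/-- a central matrix commutes with the Lie algebra over `C` -/
theorem central_spn (M : RMot F n w h) (C : Type) [Field C]
    [Algebra ℚ C] (z X : Matrix (Fin n) (Fin n) C)
    (hz : ∀ A, A ∈ mlie M ∨ HodgeEnd M A →
      z * A.map (algebraMap ℚ C) = A.map (algebraMap ℚ C) * z) (hX : X ∈ spn C (mlie M)) :
    z * X = X * z := by
  unfold spn at hX
  induction hX using Submodule.span_induction with
  | mem x hx =>
    obtain ⟨A, hA, rfl⟩ := hx
    exact hz A (Or.inl hA)
  | zero => rw [Matrix.zero_mul, Matrix.mul_zero]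
  | add x y _ _ hx hy => rw [Matrix.add_mul, Matrix.mul_add, hx, hy]
  | smul c x _ hx => rw [Matrix.smul_mul, Matrix.mul_smul, hx]



end EG

end EM
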