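import Pool.Agent.Helper21.EM.Stmts3
import Pool.Agent.Helper6.HG.All

/-!
# T33: the monodromy Lie algebra (port to `RMot` of helper6's files)
-/

set_option autoImplicit false

open NumberField MU MT MR HD

namespace EM

variable {F : Type} [Field F] [NumberField F] {n w : ℕ} {h : Fin n → ℕ}

/-- the Lie algebra kills the Hodge classes -/
theorem spn_kill (M : RMot F n w h) (C : Type) [Field C] [Algebra ℚ C]
    (X : Matrix (Fin n) (Fin n) C) (hX : X ∈ spn C (mlie M)) (a b : ℕ) (t : Tensor n a b ℚ)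
    (ht : M.IsHodge t) : Kill X (t.base C) := by
  unfold spn at hX
  induction hX using Submodule.span_induction with
  | mem x hx =>
    obtain ⟨A, hA, rfl⟩ := hx
    have h1 := (hA a b t ht).map (algebraMap ℚ C)
    rw [HG.base_eq] at h1
    exact h1
  | zero => exact kill_zero _
  | add x y _ _ hx hy => exact hx.add hy
  | smul c x _ hx => exact hx.smul c

/-- the Lie algebra kills the span of the Hodge classes -/
theorem spn_kill_span (M : RMot F n w h) (C : Type) [Field C] [Algebra ℚ C]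
    (X : Matrix (Fin n) (Fin n) C) (hX : X ∈ spn C (mlie M)) (a b : ℕ) (t : Tensor n a b C)
    (ht : t ∈ hodgeSpan M C a b) : Kill X t := by
  unfold hodgeSpan at ht
  induction ht using Submodule.span_induction with
  | mem x hx =>
    obtain ⟨t₀, ht₀, rfl⟩ := hx
    exact spn_kill M C X hX a b t₀ ht₀
  | zero => exact kill_zero_tensor _
  | add x y _ _ hx hy => exact HG.tadd_kill hx hy
  | smul c x _ hx => exact HG.tsmul_kill c hx

theorem mem_glie (M : RMot F n w h) (l : ℕ) [Fact l.Prime] (A : Matrix (Fin n) (Fin n) ℚ_[l]) :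
    A ∈ glie M l ↔ ∀ H : Subgroup (Gal F), IsOpen (H : Set (Gal F)) →
      A ∈ LieZ (H.map (M.ρ l)) := by
  unfold glie
  rw [Submodule.mem_iInf]
  refine forall_congr' fun H => ?_
  rw [Submodule.mem_iInf]

/-- the monodromy Lie algebra is stable under the Galois group -/
theorem glie_conj (M : RMot F n w h) (l : ℕ) [Fact l.Prime] (g : Gal F)
    (A : Matrix (Fin n) (Fin n) ℚ_[l]) (hA : A ∈ glie M l) :
    mat (M.ρ l) g * A * mat (M.ρ l) g⁻¹ ∈ glie M l := by
  rw [mem_glie] at hA ⊢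
  intro H hH
  obtain ⟨H₁, hle, hnor, hop, -⟩ := exists_core H hH
  refine HG.lieZ_mono (Subgroup.map_mono hle) ?_
  have h1 := (st_ZAR ℚ_[l] n (H₁.map (M.ρ l))).2.1 (M.ρ l g) (by
    rintro _ ⟨s, hs, rfl⟩
    exact ⟨g * s * g⁻¹, hnor.conj_mem s hs g, by simp⟩) A (hA H₁ hop)
  have h2 : mat (M.ρ l) g⁻¹ = (((M.ρ l g)⁻¹ : Matrix.GeneralLinearGroup (Fin n) ℚ_[l]) :
      Matrix (Fin n) (Fin n) ℚ_[l]) := by
    show ((M.ρ l g⁻¹ : Matrix.GeneralLinearGroup (Fin n) ℚ_[l]) :
      Matrix (Fin n) (Fin n) ℚ_[l]) = _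
    rw [map_inv]
  rw [h2]
  exact h1

/-- the monodromy Lie algebra is closed under the bracket -/
theorem glie_br (M : RMot F n w h) (l : ℕ) [Fact l.Prime] (A B : Matrix (Fin n) (Fin n) ℚ_[l])
    (hA : A ∈ glie M l) (hB : B ∈ glie M l) : A * B - B * A ∈ glie M l := by
  rw [mem_glie] at hA hB ⊢
  intro H hH
  exact (st_ZAR ℚ_[l] n (H.map (M.ρ l))).1 A (hA H hH) B (hB H hH)

/-- the elements in the radical of the trace form are nilpotent -/
theorem rad_nil (rpl : HG.ST_RPL) (M : RMot F n w h) (l : ℕ) [Fact l.Prime]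
    (A : Matrix (Fin n) (Fin n) ℚ_[l]) (hA : A ∈ glie M l)
    (hrad : ∀ B ∈ glie M l, (A * B).trace = 0) : IsNilpotent A := by
  let C := AlgebraicClosure ℚ_[l]
  obtain ⟨μ, hμ, hφ⟩ := rpl ℚ_[l] C n A
  apply hμ
  by_contra hcon
  push Not at hcon
  obtain ⟨k, hk⟩ := hcon
  have : CharZero C := charZero_of_injective_algebraMap (algebraMap ℚ_[l] C).injective
  obtain ⟨φ₀, hφ₀⟩ : ∃ φ₀ : C →ₗ[ℚ] ℚ, φ₀ (μ k) ≠ 0 := by
    by_contra h0
    push Not at h0
    exact hk ((Module.forall_dual_apply_eq_zero_iff ℚ (μ k)).mp h0)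
  obtain ⟨B, hB1, hB2⟩ := hφ ((algebraMap ℚ C).toAddMonoidHom.comp φ₀.toAddMonoidHom)
  have hBmem : B ∈ spn C (glie M l) := by
    refine mem_span_of_forms
      (I := {p : Subgroup (Gal F) × MvPolynomial (Fin n × Fin n) ℚ_[l] //
        IsOpen (p.1 : Set (Gal F)) ∧ ∀ x ∈ p.1.map (M.ρ l),
          ev (x : Matrix (Fin n) (Fin n) ℚ_[l]) p.2 = 0})
      (fun p i j => ev (1 : Matrix (Fin n) (Fin n) ℚ_[l]) (MvPolynomial.pderiv (i, j) p.1.2))
      (glie M l) ?_ C B ?_
    · intro A' hA'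
      rw [mem_glie]
      intro H hH f hf
      exact hA' ⟨(H, f), hH, hf⟩
    · rintro ⟨⟨H, f⟩, hH, hf⟩
      exact hB1 (H.map (M.ρ l)) ((mem_glie M l A).mp hA H hH) f hf
  have htr : ∀ Y ∈ spn C (glie M l), (A.map (algebraMap ℚ_[l] C) * Y).trace = 0 := by
    intro Y hY
    unfold spn at hY
    induction hY using Submodule.span_induction with
    | mem x hx =>
      obtain ⟨B, hB, rfl⟩ := hx
      have h2 : (A.map (algebraMap ℚ_[l] C) * B.map (algebraMap ℚ_[l] C)).trace =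
          algebraMap ℚ_[l] C (A * B).trace := by
        rw [← Matrix.map_mul, Matrix.trace, Matrix.trace, map_sum]
        rfl
      rw [h2, hrad B hB, map_zero]
    | zero => rw [Matrix.mul_zero, Matrix.trace_zero]
    | add x y _ _ hx hy => rw [Matrix.mul_add, Matrix.trace_add, hx, hy, add_zero]
    | smul c x _ hx => rw [Matrix.mul_smul, Matrix.trace_smul, hx, smul_zero]
  rw [htr B hBmem] at hB2
  have h3 := congrArg φ₀ hB2
  rw [map_zero, map_sum] at h3
  have h4 : ∀ i, φ₀ (μ i * ((algebraMap ℚ C).toAddMonoidHom.comp φ₀.toAddMonoidHom) (μ i)) =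
      φ₀ (μ i) ^ 2 := by
    intro i
    have h5 : μ i * ((algebraMap ℚ C).toAddMonoidHom.comp φ₀.toAddMonoidHom) (μ i) =
        φ₀ (μ i) • μ i := by
      rw [Algebra.smul_def, mul_comm]
      rfl
    rw [h5, map_smul, smul_eq_mul, sq]
  simp only [h4] at h3
  have h6 := (Finset.sum_eq_zero_iff_of_nonneg (fun i _ => sq_nonneg (φ₀ (μ i)))).mp h3.symm k
    (Finset.mem_univ k)
  exact hφ₀ (pow_eq_zero_iff two_ne_zero |>.mp h6)

theorem mat_inv (M : RMot F n w h) (l : ℕ) [Fact l.Prime] (g : Gal F) :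
    mat (M.ρ l) g⁻¹ * mat (M.ρ l) g = 1 := by
  rw [← map_mul, inv_mul_cancel, map_one]

theorem mat_inv' (M : RMot F n w h) (l : ℕ) [Fact l.Prime] (g : Gal F) :
    mat (M.ρ l) g * mat (M.ρ l) g⁻¹ = 1 := by
  rw [← map_mul, mul_inv_cancel, map_one]

end EM
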