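import Pool.Agent.Helper21.EM.PGRP
import Pool.Agent.Helper21.RM.Base

/-!
# T33: GLI, HTR
-/

set_option autoImplicit false

open NumberField MU MT MR HD

namespace EM

theorem st_GLI : ST_GLI := by
  intro F _ _ n w h M l _
  refine ⟨fun A hA B hB => glie_br M l A B hA hB, ?_, ?_⟩
  · intro A hA
    rw [mem_glie] at hA
    have h1 := hA ⊤ isOpen_univ
    obtain ⟨-, -, -, zsim, -⟩ := st_ZAR ℚ_[l] n ((⊤ : Subgroup (Gal F)).map (M.ρ l))
    obtain ⟨c, hc⟩ := zsim (bas ℚ_[l] M.ψ) (bas_det ℚ_[l] M.ψ M.ψ_det) (by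
      rintro _ ⟨g, -, rfl⟩
      exact ⟨_, M.gal_sim l g⟩) A h1
    rw [HG.bas_eq_map] at hc
    exact ⟨c, hc⟩
  · intro C _ _ B hB
    refine mem_span_of_forms
      (I := {p : Subgroup (Gal F) × MvPolynomial (Fin n × Fin n) ℚ_[l] //
        IsOpen (p.1 : Set (Gal F)) ∧ ∀ σ ∈ p.1, ev (mat (M.ρ l) σ) p.2 = 0})
      (fun p i j => ev (1 : Matrix (Fin n) (Fin n) ℚ_[l]) (MvPolynomial.pderiv (i, j) p.1.2))
      (glie M l) ?_ C B ?_
    · intro A' hA'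
      rw [mem_glie]
      intro H hH f hf
      exact hA' ⟨(H, f), hH, fun σ hσ => hf (M.ρ l σ) (Subgroup.mem_map_of_mem _ hσ)⟩
    · rintro ⟨⟨H, f⟩, hH, hf⟩
      exact hB H hH f hf

theorem dtp_one_eq {n : ℕ} (A : Matrix (Fin n) (Fin n) ℚ) :
    dtp 1 A = Matrix.reindexAlgEquiv ℚ ℚ (Equiv.funUnique (Fin 1) (Fin n)).symm A := by
  ext i j
  unfold dtp
  rw [Matrix.sum_apply, Fin.sum_univ_one, HD.tpf_update]
  simp [Matrix.reindexAlgEquiv_apply, Matrix.reindex_apply]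

theorem st_HTR (posj : ST_POSJR) : ST_HTR := by
  intro F _ _ n w h M hw A hA hAB
  let φ : Matrix (Fin n) (Fin n) ℚ ≃ₐ[ℚ] Matrix (Fin 1 → Fin n) (Fin 1 → Fin n) ℚ :=
    Matrix.reindexAlgEquiv ℚ ℚ (Equiv.funUnique (Fin 1) (Fin n)).symm
  have h1 : (Algebra.adjoin ℚ (MR.mlie M : Set (Matrix (Fin n) (Fin n) ℚ))).map
      (φ : Matrix (Fin n) (Fin n) ℚ →ₐ[ℚ] Matrix (Fin 1 → Fin n) (Fin 1 → Fin n) ℚ) =
      Algebra.adjoin ℚ (gen M 1) := by
    rw [AlgHom.map_adjoin]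
    congr 1
    ext X
    constructor
    · rintro ⟨B, hB, rfl⟩
      exact ⟨B, hB, (dtp_one_eq B).symm⟩
    · rintro ⟨B, hB, rfl⟩
      exact ⟨B, hB, (dtp_one_eq B).symm⟩
  have htr : ∀ X : Matrix (Fin n) (Fin n) ℚ, (φ X).trace = X.trace := by
    intro X
    show (Matrix.reindex _ _ X).trace = X.trace
    simp only [Matrix.trace, Matrix.diag, Matrix.reindex_apply, Matrix.submatrix_apply]
    exact (Equiv.funUnique (Fin 1) (Fin n)).sum_comp (fun i => X i i)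
  have h2 : φ A = 0 := by
    refine alg_nondeg posj M hw 1 (φ A) ?_ ?_
    · rw [← h1]
      exact ⟨A, hA, rfl⟩
    · intro B hB
      rw [← h1] at hB
      obtain ⟨B', hB', rfl⟩ := hB
      have h3 := hAB B' hB'
      rw [← htr, map_mul] at h3
      exact h3
  exact (map_eq_zero_iff φ φ.injective).mp h2

end EM
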