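import Pool.Agent.Helper21.EM.PPOSJ

/-!
# T33: GRPR (port to `RMot` of helper6's file)
-/

set_option autoImplicit false

open NumberField MU MT MR HD

namespace EM

variable {F : Type} [Field F] [NumberField F] {n w : ℕ} {h : Fin n → ℕ}

theorem one_mem_mlie (M : RMot F n w h) (hw : 0 < w) :
    (1 : Matrix (Fin n) (Fin n) ℚ) ∈ mlie M := by
  intro a b t ht
  rcases hodge_deg M hw t ht with h1 | h1
  · subst h1
    exact kill_one t
  · subst h1
    exact kill_zero_tensor _

theorem mlie_star (M : RMot F n w h) (hw : 0 < w) (A : Matrix (Fin n) (Fin n) ℚ)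
    (hA : A ∈ mlie M) : M.ψ⁻¹ * A.transpose * M.ψ ∈ mlie M := by
  obtain ⟨c, hc⟩ := mlie_sim M A hA
  have hu : IsUnit M.ψ.det := isUnit_iff_ne_zero.mpr M.ψ_det
  have h1 : M.ψ⁻¹ * A.transpose * M.ψ = c • (1 : Matrix (Fin n) (Fin n) ℚ) - A := by
    have h2 : A.transpose * M.ψ = c • M.ψ - M.ψ * A := by
      rw [← hc]
      abel
    rw [Matrix.mul_assoc, h2, Matrix.mul_sub, Matrix.mul_smul, Matrix.nonsing_inv_mul _ hu,
      ← Matrix.mul_assoc, Matrix.nonsing_inv_mul _ hu, Matrix.one_mul]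
  rw [h1]
  exact (mlie M).sub_mem ((mlie M).smul_mem c (one_mem_mlie M hw)) hA

theorem spn_conj_hz (M : RMot F n w h) (g : Matrix.GeneralLinearGroup (Fin n) ℂ)
    (hg : ∀ (a b : ℕ) (t : Tensor n a b ℚ), M.IsHodge t → act g (t.base ℂ) = t.base ℂ)
    (X : Matrix (Fin n) (Fin n) ℂ) (hX : X ∈ spn ℂ (mlie M)) :
    (g : Matrix (Fin n) (Fin n) ℂ) * X *
      ((g⁻¹ : Matrix.GeneralLinearGroup (Fin n) ℂ) : Matrix (Fin n) (Fin n) ℂ) ∈
        spn ℂ (mlie M) := by
  rw [MR.mem_spn_mlie] at hX ⊢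
  intro a b t ht
  have h1 := (hX a b t ht).conj g
  rw [hg a b t ht] at h1
  exact h1

theorem one_mem_spn (M : RMot F n w h) (hw : 0 < w) (C : Type) [Field C] [Algebra ℚ C] :
    (1 : Matrix (Fin n) (Fin n) C) ∈ spn C (mlie M) := by
  have h1 := mem_spn (C := C) (mlie M) (one_mem_mlie M hw)
  rwa [Matrix.map_one _ (map_zero _) (map_one _)] at h1

/-- the generators of the algebra of endomorphisms of a tensor power -/
def gen (M : RMot F n w h) (d : ℕ) : Set (Matrix (Fin d → Fin n) (Fin d → Fin n) ℚ) :=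
  {X | ∃ A ∈ mlie M, X = dtp d A}

/-- the general linear element defined by the polarisation -/
noncomputable def psiGL (M : RMot F n w h) : Matrix.GeneralLinearGroup (Fin n) ℚ :=
  Matrix.GeneralLinearGroup.mkOfDetNeZero M.ψ M.ψ_det

theorem psiGL_coe (M : RMot F n w h) : (psiGL M : Matrix (Fin n) (Fin n) ℚ) = M.ψ := rfl

theorem psiGL_inv (M : RMot F n w h) :
    (((psiGL M)⁻¹ : Matrix.GeneralLinearGroup (Fin n) ℚ) : Matrix (Fin n) (Fin n) ℚ) = M.ψ⁻¹ := by
  rw [Matrix.coe_units_inv]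
  rfl

/-- the algebra is stable under the adjunction -/
theorem alg_star (M : RMot F n w h) (hw : 0 < w) (d : ℕ)
    (A : Matrix (Fin d → Fin n) (Fin d → Fin n) ℚ) (hA : A ∈ Algebra.adjoin ℚ (gen M d)) :
    MT.tp d M.ψ⁻¹ * A.transpose * MT.tp d M.ψ ∈ Algebra.adjoin ℚ (gen M d) := by
  have hu : IsUnit M.ψ.det := isUnit_iff_ne_zero.mpr M.ψ_det
  have h1 : MT.tp d M.ψ⁻¹ * MT.tp d M.ψ = 1 := tp_inv_mul d M.ψ hu
  have h2 : MT.tp d M.ψ * MT.tp d M.ψ⁻¹ = 1 := tp_mul_inv d M.ψ hu
  induction hA using Algebra.adjoin_induction with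
  | mem x hx =>
    obtain ⟨A, hA, rfl⟩ := hx
    apply Algebra.subset_adjoin
    refine ⟨M.ψ⁻¹ * A.transpose * M.ψ, mlie_star M hw A hA, ?_⟩
    have h3 := dtp_conj d (psiGL M)⁻¹ A.transpose
    rw [inv_inv, psiGL_inv, psiGL_coe] at h3
    rw [HG.dtp_transpose, ← h3, Matrix.mul_assoc, h1, Matrix.mul_one]
  | algebraMap r =>
    rw [Matrix.algebraMap_eq_diagonal, Matrix.diagonal_transpose, ← Matrix.algebraMap_eq_diagonal,
      ← Algebra.commutes, Matrix.mul_assoc, h1, Matrix.mul_one]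
    exact Subalgebra.algebraMap_mem _ r
  | add x y _ _ hx hy =>
    rw [Matrix.transpose_add, Matrix.mul_add, Matrix.add_mul]
    exact Subalgebra.add_mem _ hx hy
  | mul x y _ _ hx hy =>
    have h3 : MT.tp d M.ψ⁻¹ * (x * y).transpose * MT.tp d M.ψ =
        (MT.tp d M.ψ⁻¹ * y.transpose * MT.tp d M.ψ) *
          (MT.tp d M.ψ⁻¹ * x.transpose * MT.tp d M.ψ) := by
      calc MT.tp d M.ψ⁻¹ * (x * y).transpose * MT.tp d M.ψ
          = MT.tp d M.ψ⁻¹ * y.transpose * 1 * x.transpose * MT.tp d M.ψ := by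
            rw [Matrix.transpose_mul, Matrix.mul_one]
            simp only [Matrix.mul_assoc]
        _ = _ := by
            rw [← h2]
            simp only [Matrix.mul_assoc]
    rw [h3]
    exact Subalgebra.mul_mem _ hy hx

/-- the complex span of the algebra -/
def algC (M : RMot F n w h) (d : ℕ) (K : Type) [Field K] [Algebra ℚ K] :
    Submodule K (Matrix (Fin d → Fin n) (Fin d → Fin n) K) :=
  Submodule.span K {Y | ∃ A ∈ Algebra.adjoin ℚ (gen M d), Y = A.map (algebraMap ℚ K)}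

theorem algC_mul (M : RMot F n w h) (d : ℕ) (K : Type) [Field K] [Algebra ℚ K]
    (X Y : Matrix (Fin d → Fin n) (Fin d → Fin n) K) (hX : X ∈ algC M d K) (hY : Y ∈ algC M d K) :
    X * Y ∈ algC M d K := by
  unfold algC at hX
  induction hX using Submodule.span_induction with
  | mem x hx =>
    obtain ⟨A, hA, rfl⟩ := hx
    unfold algC at hY
    induction hY using Submodule.span_induction with
    | mem y hy =>
      obtain ⟨B, hB, rfl⟩ := hy
      exact Submodule.subset_span ⟨A * B, Subalgebra.mul_mem _ hA hB, (Matrix.map_mul).symm⟩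
    | zero => rw [Matrix.mul_zero]; exact Submodule.zero_mem _
    | add x y _ _ hx hy => rw [Matrix.mul_add]; exact Submodule.add_mem _ hx hy
    | smul c x _ hx => rw [Matrix.mul_smul]; exact Submodule.smul_mem _ c hx
  | zero => rw [Matrix.zero_mul]; exact Submodule.zero_mem _
  | add x y _ _ hx hy => rw [Matrix.add_mul]; exact Submodule.add_mem _ hx hy
  | smul c x _ hx => rw [Matrix.smul_mul]; exact Submodule.smul_mem _ c hx

theorem algC_one (M : RMot F n w h) (d : ℕ) (K : Type) [Field K] [Algebra ℚ K] :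
    (1 : Matrix (Fin d → Fin n) (Fin d → Fin n) K) ∈ algC M d K := by
  refine Submodule.subset_span ⟨1, Subalgebra.one_mem _, ?_⟩
  rw [Matrix.map_one _ (map_zero _) (map_one _)]

theorem dtp_mem_algC (M : RMot F n w h) (d : ℕ) (K : Type) [Field K] [Algebra ℚ K]
    (X : Matrix (Fin n) (Fin n) K) (hX : X ∈ spn K (mlie M)) : dtp d X ∈ algC M d K := by
  unfold spn at hX
  induction hX using Submodule.span_induction with
  | mem x hx =>
    obtain ⟨A, hA, rfl⟩ := hx
    rw [← dtp_map]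
    exact Submodule.subset_span ⟨dtp d A, Algebra.subset_adjoin ⟨A, hA, rfl⟩, rfl⟩
  | zero => rw [dtp_zero]; exact Submodule.zero_mem _
  | add x y _ _ hx hy => rw [dtp_add]; exact Submodule.add_mem _ hx hy
  | smul c x _ hx => rw [dtp_smul]; exact Submodule.smul_mem _ c hx

/-- the algebra is stable under the conjugation by `hz` -/
theorem alg_conj (M : RMot F n w h) (d : ℕ) (g : Matrix.GeneralLinearGroup (Fin n) ℂ)
    (hg : ∀ (a b : ℕ) (t : Tensor n a b ℚ), M.IsHodge t → act g (t.base ℂ) = t.base ℂ)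
    (A : Matrix (Fin d → Fin n) (Fin d → Fin n) ℚ) (hA : A ∈ Algebra.adjoin ℚ (gen M d)) :
    MT.tp d (g : Matrix (Fin n) (Fin n) ℂ) * A.map (algebraMap ℚ ℂ) *
      MT.tp d ((g⁻¹ : Matrix.GeneralLinearGroup (Fin n) ℂ) : Matrix (Fin n) (Fin n) ℂ) ∈
        algC M d ℂ := by
  have h1 := tp_inv_left d g
  have h2 := tp_inv_right d g
  induction hA using Algebra.adjoin_induction with
  | mem x hx =>
    obtain ⟨A, hA, rfl⟩ := hx
    have h3 := dtp_conj d g (A.map (algebraMap ℚ ℂ))
    rw [dtp_map, ← h3, Matrix.mul_assoc, h2, Matrix.mul_one]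
    exact dtp_mem_algC M d ℂ _ (spn_conj_hz M g hg _ (mem_spn (C := ℂ) (mlie M) hA))
  | algebraMap r =>
    have h3 : (algebraMap ℚ (Matrix (Fin d → Fin n) (Fin d → Fin n) ℚ) r).map (algebraMap ℚ ℂ) =
        (algebraMap ℚ ℂ r) • (1 : Matrix (Fin d → Fin n) (Fin d → Fin n) ℂ) := by
      ext i j
      rw [Matrix.map_apply, Matrix.algebraMap_matrix_apply, Matrix.smul_apply, Matrix.one_apply]
      split_ifs <;> simp
    rw [h3, Matrix.mul_smul, Matrix.mul_one, Matrix.smul_mul, h2]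
    exact Submodule.smul_mem _ _ (algC_one M d ℂ)
  | add x y _ _ hx hy =>
    have h3 : (x + y).map (algebraMap ℚ ℂ) = x.map (algebraMap ℚ ℂ) + y.map (algebraMap ℚ ℂ) := by
      ext i j
      simp
    rw [h3, Matrix.mul_add, Matrix.add_mul]
    exact Submodule.add_mem _ hx hy
  | mul x y _ _ hx hy =>
    have h3 : MT.tp d (g : Matrix (Fin n) (Fin n) ℂ) * (x * y).map (algebraMap ℚ ℂ) *
        MT.tp d ((g⁻¹ : Matrix.GeneralLinearGroup (Fin n) ℂ) : Matrix (Fin n) (Fin n) ℂ) =
        (MT.tp d (g : Matrix (Fin n) (Fin n) ℂ) * x.map (algebraMap ℚ ℂ) *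
          MT.tp d ((g⁻¹ : Matrix.GeneralLinearGroup (Fin n) ℂ) : Matrix (Fin n) (Fin n) ℂ)) *
        (MT.tp d (g : Matrix (Fin n) (Fin n) ℂ) * y.map (algebraMap ℚ ℂ) *
          MT.tp d ((g⁻¹ : Matrix.GeneralLinearGroup (Fin n) ℂ) : Matrix (Fin n) (Fin n) ℂ)) := by
      rw [Matrix.map_mul]
      calc _ = MT.tp d (g : Matrix (Fin n) (Fin n) ℂ) * x.map (algebraMap ℚ ℂ) * 1 *
            y.map (algebraMap ℚ ℂ) *
          MT.tp d ((g⁻¹ : Matrix.GeneralLinearGroup (Fin n) ℂ) : Matrix (Fin n) (Fin n) ℂ) := by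
            rw [Matrix.mul_one]
            simp only [Matrix.mul_assoc]
        _ = _ := by
            rw [← h1]
            simp only [Matrix.mul_assoc]
    rw [h3]
    exact algC_mul M d ℂ _ _ hx hy

/-- the trace form of the algebra is non-degenerate -/
theorem alg_nondeg (posj : ST_POSJR) (M : RMot F n w h) (hw : 0 < w) (d : ℕ)
    (A : Matrix (Fin d → Fin n) (Fin d → Fin n) ℚ) (hA : A ∈ Algebra.adjoin ℚ (gen M d))
    (hAB : ∀ B ∈ Algebra.adjoin ℚ (gen M d), (A * B).trace = 0) : A = 0 := by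
  refine posj F n w h M d A (Units.mk0 Complex.I Complex.I_ne_zero) rfl ?_
  have h1 : ∀ Y ∈ algC M d ℂ, (A.map (algebraMap ℚ ℂ) * Y).trace = 0 := by
    intro Y hY
    unfold algC at hY
    induction hY using Submodule.span_induction with
    | mem x hx =>
      obtain ⟨B, hB, rfl⟩ := hx
      have h1 := hAB B hB
      have h2 : (A.map (algebraMap ℚ ℂ) * B.map (algebraMap ℚ ℂ)).trace =
          algebraMap ℚ ℂ (A * B).trace := by
        rw [← Matrix.map_mul, Matrix.trace, Matrix.trace, map_sum]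
        rfl
      rw [h2, h1, map_zero]
    | zero => rw [Matrix.mul_zero, Matrix.trace_zero]
    | add x y _ _ hx hy => rw [Matrix.mul_add, Matrix.trace_add, hx, hy, add_zero]
    | smul c x _ hx => rw [Matrix.mul_smul, Matrix.trace_smul, hx, smul_zero]
  exact h1 _ (alg_conj M d _ (fun a b t ht => ht _) _ (alg_star M hw d A hA))

/-- the elements of the Mumford-Tate group on the tensor powers -/
theorem gsigma_mem (dc : HG.ST_DC) (posj : ST_POSJR) (hk : ST_HKR) (M : RMot F n w h) (hw : 0 < w)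
    (K : Type) [Field K] [Algebra ℚ K] (g : Matrix.GeneralLinearGroup (Fin n) K)
    (hg : g ∈ M.Gsigma K) (d : ℕ) : MT.tp d (g : Matrix (Fin n) (Fin n) K) ∈ algC M d K := by
  refine dc (Fin d → Fin n) (gen M d) (fun A hA hAB => alg_nondeg posj M hw d A hA hAB) K _ ?_
  intro T hT
  have h1 : ∀ A ∈ mlie M, Kill A (T : Tensor n d d ℚ) := fun A hA =>
    (hT (dtp d A) ⟨A, hA, rfl⟩).symm
  have h2 := hg d d T (hk F n w h M hw d d T h1)
  rw [act_fix_iff] at h2
  have h3 : (Matrix.of (Tensor.base K (T : Tensor n d d ℚ)) :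
      Matrix (Fin d → Fin n) (Fin d → Fin n) K) = T.map (algebraMap ℚ K) := by
    ext p q
    simp [Tensor.base]
  rw [h3] at h2
  exact h2

/-- GRP -/
theorem st_GRPR (kt : ST_KTR) (hk : ST_HKR) (dc : HG.ST_DC) (posj : ST_POSJR) (hom : HG.ST_HOM)
    (rep : HG.ST_REP) : ST_GRPR := by
  intro F _ _ n w h M hw l _ hEq K _ _
  have hCK : CharZero K := charZero_of_injective_algebraMap (algebraMap ℚ_[l] K).injective
  apply Set.Subset.antisymm
  · intro g hg a b t ht
    obtain ⟨H, hH, hfix⟩ := kt F n w h M l a b (t.base ℚ_[l]) fun A hA => by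
      rw [hEq] at hA
      exact spn_kill M ℚ_[l] A hA a b t ht
    refine st_TEN.1 ℚ_[l] n a b (M.ρ l '' H) t ?_ K g (hg H hH)
    rintro _ ⟨s, hs, rfl⟩
    exact hfix s hs
  · intro g hg H hH f hf
    set X : Subgroup (Matrix.GeneralLinearGroup (Fin n) ℚ_[l]) := H.map (M.ρ l) with hX
    have hf' : ∀ x ∈ X, ev (x : Matrix (Fin n) (Fin n) ℚ_[l]) f = 0 := by
      rintro _ ⟨s, hs, rfl⟩
      exact hf _ ⟨s, hs, rfl⟩
    have hLie : ∀ A ∈ spn ℚ_[l] (mlie M), A ∈ LieZ X := by
      intro A hA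
      rw [← hEq, mem_glie] at hA
      exact hA H hH
    have hone : (1 : Matrix (Fin n) (Fin n) ℚ_[l]) ∈ LieZ X := hLie _ (one_mem_spn M hw ℚ_[l])
    rw [← MvPolynomial.sum_homogeneousComponent f, map_sum]
    refine Finset.sum_eq_zero fun d _ => ?_
    obtain ⟨c, hc⟩ := (rep ℚ_[l] n d).2 (MvPolynomial.homogeneousComponent d f)
      (MvPolynomial.homogeneousComponent_isHomogeneous d f)
    rw [hc K]
    -- the functions which vanish on the group
    have hcJ : ∀ x ∈ X, (c * MT.tp d (x : Matrix (Fin n) (Fin n) ℚ_[l])).trace = 0 := by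
      intro x hx
      have h1 := hom ℚ_[l] n X hone f hf' d x hx
      rw [hc ℚ_[l]] at h1
      have h2 : c.map (algebraMap ℚ_[l] ℚ_[l]) = c := by
        ext i j
        simp
      rwa [h2] at h1
    have hstb : ∀ c' : Matrix (Fin d → Fin n) (Fin d → Fin n) ℚ_[l],
        (∀ x ∈ X, (c' * MT.tp d (x : Matrix (Fin n) (Fin n) ℚ_[l])).trace = 0) →
        ∀ A ∈ spn ℚ_[l] (mlie M), ∀ x ∈ X,
          (dtp d A * c' * MT.tp d (x : Matrix (Fin n) (Fin n) ℚ_[l])).trace = 0 := by
      intro c' hc' A hA x hx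
      obtain ⟨f', hf1, hf2⟩ := (rep ℚ_[l] n d).1 (c' * MT.tp d (x : Matrix (Fin n) (Fin n) ℚ_[l]))
      have h1 := hLie A hA f' (by
        intro y hy
        rw [hf1 ℚ_[l]]
        have h2 : ∀ Z : Matrix (Fin d → Fin n) (Fin d → Fin n) ℚ_[l],
            Z.map (algebraMap ℚ_[l] ℚ_[l]) = Z := by
          intro Z
          ext i j
          simp
        rw [h2, Matrix.mul_assoc, ← tp_mul]
        exact hc' (x * y) (X.mul_mem hx hy))
      rw [hf2] at h1
      rw [Matrix.mul_assoc, Matrix.trace_mul_comm]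
      exact h1
    -- the algebra
    have halg : ∀ B ∈ Algebra.adjoin ℚ (gen M d),
        ∀ c' : Matrix (Fin d → Fin n) (Fin d → Fin n) ℚ_[l],
        (∀ x ∈ X, (c' * MT.tp d (x : Matrix (Fin n) (Fin n) ℚ_[l])).trace = 0) →
        ∀ x ∈ X, (B.map (algebraMap ℚ ℚ_[l]) * c' *
          MT.tp d (x : Matrix (Fin n) (Fin n) ℚ_[l])).trace = 0 := by
      intro B hB
      induction hB using Algebra.adjoin_induction with
      | mem x hx =>
        obtain ⟨A, hA, rfl⟩ := hx
        intro c' hc' x hx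
        rw [dtp_map]
        exact hstb c' hc' _ (mem_spn (C := ℚ_[l]) (mlie M) hA) x hx
      | algebraMap r =>
        intro c' hc' x hx
        have h3 : (algebraMap ℚ (Matrix (Fin d → Fin n) (Fin d → Fin n) ℚ) r).map
            (algebraMap ℚ ℚ_[l]) =
            (algebraMap ℚ ℚ_[l] r) • (1 : Matrix (Fin d → Fin n) (Fin d → Fin n) ℚ_[l]) := by
          ext i j
          rw [Matrix.map_apply, Matrix.algebraMap_matrix_apply, Matrix.smul_apply, Matrix.one_apply]
          split_ifs <;> simp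
        rw [h3, Matrix.smul_mul, Matrix.one_mul, Matrix.smul_mul, Matrix.trace_smul, hc' x hx,
          smul_zero]
      | add u v _ _ hu hv =>
        intro c' hc' x hx
        have h3 : (u + v).map (algebraMap ℚ ℚ_[l]) =
            u.map (algebraMap ℚ ℚ_[l]) + v.map (algebraMap ℚ ℚ_[l]) := by
          ext i j
          simp
        rw [h3, Matrix.add_mul, Matrix.add_mul, Matrix.trace_add, hu c' hc' x hx, hv c' hc' x hx,
          add_zero]
      | mul u v _ _ hu hv =>
        intro c' hc' x hx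
        rw [Matrix.map_mul, Matrix.mul_assoc (u.map _)]
        exact hu _ (hv c' hc') x hx
    have hmem := gsigma_mem dc posj hk M hw K g hg d
    revert hmem
    generalize MT.tp d (g : Matrix (Fin n) (Fin n) K) = Z
    intro hmem
    unfold algC at hmem
    induction hmem using Submodule.span_induction with
    | mem x hx =>
      obtain ⟨B, hB, rfl⟩ := hx
      have h1 := halg B hB c hcJ 1 X.one_mem
      have h2 : B.map (algebraMap ℚ K) = (B.map (algebraMap ℚ ℚ_[l])).map (algebraMap ℚ_[l] K) := by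
        ext i j
        simp
      rw [Matrix.GeneralLinearGroup.coe_one, tp_one, Matrix.mul_one, Matrix.trace_mul_comm] at h1
      have h3 : (c.map (algebraMap ℚ_[l] K) *
          (B.map (algebraMap ℚ ℚ_[l])).map (algebraMap ℚ_[l] K)).trace =
          algebraMap ℚ_[l] K (c * B.map (algebraMap ℚ ℚ_[l])).trace := by
        rw [← Matrix.map_mul, Matrix.trace, Matrix.trace, map_sum]
        rfl
      rw [h2, h3, h1, map_zero]
    | zero => rw [Matrix.mul_zero, Matrix.trace_zero]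
    | add x y _ _ hx hy => rw [Matrix.mul_add, Matrix.trace_add, hx, hy, add_zero]
    | smul c x _ hx => rw [Matrix.mul_smul, Matrix.trace_smul, hx, smul_zero]

end EM
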