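import Pool.Agent.Helper21.EM.PBase

/-!
# T33: POSJR (port to `RMot` of helper19's file)
-/

set_option autoImplicit false

open NumberField MU MT MR HD Matrix
open scoped ComplexOrder MatrixOrder

namespace EM

/-- POSJR: `HG.ST_POSJ` for `RMot`. -/
def ST_POSJR : Prop :=
  ∀ (F : Type) [Field F] [NumberField F] (n w : ℕ) (h : Fin n → ℕ)
    (M : RMot F n w h) (j : ℕ) (A : Matrix (Fin j → Fin n) (Fin j → Fin n) ℚ) (z : ℂˣ),
    (z : ℂ) = Complex.I →
    (A.map (algebraMap ℚ ℂ) * (MT.tp j (hz M.hodge h w z : Matrix (Fin n) (Fin n) ℂ) *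
      (MT.tp j M.ψ⁻¹ * A.transpose * MT.tp j M.ψ).map (algebraMap ℚ ℂ) *
        MT.tp j (((hz M.hodge h w z)⁻¹ : Matrix.GeneralLinearGroup (Fin n) ℂ) :
          Matrix (Fin n) (Fin n) ℂ))).trace = 0 → A = 0

theorem posj_data (F : Type) [Field F] [NumberField F] (n w : ℕ) (h : Fin n → ℕ)
    (M : RMot F n w h) (z : ℂˣ) (hz' : (z : ℂ) = Complex.I) :
    ∃ B Bi D Di : Matrix (Fin n) (Fin n) ℂ, B * Bi = 1 ∧ Bi * B = 1 ∧ D * Di = 1 ∧ Di * D = 1 ∧
      ((hz M.hodge h w z : Matrix.GeneralLinearGroup (Fin n) ℂ) : Matrix (Fin n) (Fin n) ℂ) =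
        B * D * Bi ∧
      (((hz M.hodge h w z)⁻¹ : Matrix.GeneralLinearGroup (Fin n) ℂ) : Matrix (Fin n) (Fin n) ℂ) =
        B * Di * Bi ∧
      (Bᴴ * M.ψ.map (algebraMap ℚ ℂ) * B * Di).PosDef := by
  classical
  -- notation
  obtain ⟨B, hB⟩ : ∃ B : Matrix (Fin n) (Fin n) ℂ, B = (M.hodge : Matrix (Fin n) (Fin n) ℂ) := ⟨_, rfl⟩
  obtain ⟨Bi, hBi⟩ : ∃ Bi : Matrix (Fin n) (Fin n) ℂ,
    Bi = ((M.hodge⁻¹ : Matrix.GeneralLinearGroup (Fin n) ℂ) : Matrix (Fin n) (Fin n) ℂ) := ⟨_, rfl⟩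
  have hBBi : B * Bi = 1 := by
    rw [hB, hBi, ← Matrix.GeneralLinearGroup.coe_mul, mul_inv_cancel]; rfl
  have hBiB : Bi * B = 1 := by
    rw [hB, hBi, ← Matrix.GeneralLinearGroup.coe_mul, inv_mul_cancel]; rfl
  obtain ⟨d, hd⟩ : ∃ d : Fin n → ℂ, d = fun j => Complex.I ^ h j * (-Complex.I) ^ (w - h j) := ⟨_, rfl⟩
  have hd0 : ∀ j, d j ≠ 0 := by
    intro j
    rw [hd]
    simp [Complex.I_ne_zero]
  have hd2 : ∀ j, d j * d j = (-1 : ℂ) ^ w := by
    intro j
    rw [hd]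
    have e0 : ∀ (a b : ℂ) (p q : ℕ), a ^ p * b ^ q * (a ^ p * b ^ q) = (a ^ 2) ^ p * (b ^ 2) ^ q := by
      intro a b p q
      ring
    have e1 := e0 Complex.I (-Complex.I) (h j) (w - h j)
    show Complex.I ^ h j * (-Complex.I) ^ (w - h j) * (Complex.I ^ h j * (-Complex.I) ^ (w - h j)) = _
    rw [e1, neg_sq, Complex.I_sq, ← pow_add]
    congr 1
    have := M.hodge_le j
    omega
  have hdc : ∀ j, star (d j) = (d j)⁻¹ := by
    intro j
    symm
    apply inv_eq_of_mul_eq_one_left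
    rw [hd]
    show star (Complex.I ^ h j * (-Complex.I) ^ (w - h j)) * (Complex.I ^ h j * (-Complex.I) ^ (w - h j)) = 1
    rw [star_mul', star_pow, star_pow, star_neg, Complex.star_def, Complex.conj_I, neg_neg]
    have e1 : (-Complex.I) ^ h j * Complex.I ^ (w - h j) * (Complex.I ^ h j * (-Complex.I) ^ (w - h j)) =
        (-(Complex.I * Complex.I)) ^ h j * (-(Complex.I * Complex.I)) ^ (w - h j) := by
      rw [← neg_mul, mul_pow, mul_pow]
      ring
    rw [e1, Complex.I_mul_I, neg_neg, one_pow, one_pow, one_mul]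
  obtain ⟨D, hD⟩ : ∃ D : Matrix (Fin n) (Fin n) ℂ, D = Matrix.diagonal d := ⟨_, rfl⟩
  obtain ⟨Di, hDi⟩ : ∃ Di : Matrix (Fin n) (Fin n) ℂ, Di = Matrix.diagonal (fun j => (d j)⁻¹) := ⟨_, rfl⟩
  have hDDi : D * Di = 1 := by
    rw [hD, hDi, Matrix.diagonal_mul_diagonal, ← Matrix.diagonal_one]
    congr 1
    funext j
    exact mul_inv_cancel₀ (hd0 j)
  have hDiD : Di * D = 1 := by
    rw [hD, hDi, Matrix.diagonal_mul_diagonal, ← Matrix.diagonal_one]
    congr 1
    funext j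
    exact inv_mul_cancel₀ (hd0 j)
  obtain ⟨Ψ, hΨ⟩ : ∃ Ψ : Matrix (Fin n) (Fin n) ℂ, Ψ = bas ℂ M.ψ := ⟨_, rfl⟩
  have hΨm : Ψ = M.ψ.map (algebraMap ℚ ℂ) := by
    rw [hΨ]
    unfold bas
    ext i j
    simp
  have hreal : ∀ (Q : Matrix (Fin n) (Fin n) ℚ), (Q.map (algebraMap ℚ ℂ))ᴴ = (Qᵀ).map (algebraMap ℚ ℂ) := by
    intro Q
    ext i j
    rw [conjTranspose_apply, Matrix.map_apply, Matrix.map_apply, transpose_apply, eq_ratCast]
    simp
  -- the matrix of hz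
  have hC : ((hz M.hodge h w z : Matrix.GeneralLinearGroup (Fin n) ℂ) : Matrix (Fin n) (Fin n) ℂ) =
      B * D * Bi := by
    unfold hz
    rw [Matrix.GeneralLinearGroup.coe_mul, Matrix.GeneralLinearGroup.coe_mul, ← hB, ← hBi]
    congr 2
    rw [hD]
    have : ∀ (u : (Fin n → ℂ)ˣ), ((Units.map ((Matrix.diagonalRingHom (Fin n) ℂ : (Fin n → ℂ) →+* Matrix (Fin n) (Fin n) ℂ) :
      (Fin n → ℂ) →* Matrix (Fin n) (Fin n) ℂ) u : Matrix.GeneralLinearGroup (Fin n) ℂ) : Matrix (Fin n) (Fin n) ℂ) =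
        Matrix.diagonal (u : Fin n → ℂ) := fun u => rfl
    rw [this]
    congr 1
    funext j
    rw [hd]
    show (((z ^ h j * (Units.map ((starRingEnd ℂ : ℂ →+* ℂ) : ℂ →* ℂ) z) ^ (w - h j) : ℂˣ)) : ℂ) = _
    rw [Units.val_mul, Units.val_pow_eq_pow_val, Units.val_pow_eq_pow_val, Units.coe_map, hz']
    simp
  have hCi : (((hz M.hodge h w z)⁻¹ : Matrix.GeneralLinearGroup (Fin n) ℂ) : Matrix (Fin n) (Fin n) ℂ) =
      B * Di * Bi := by
    have e1 : (B * Di * Bi) * ((hz M.hodge h w z : Matrix.GeneralLinearGroup (Fin n) ℂ) :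
        Matrix (Fin n) (Fin n) ℂ) = 1 := by
      rw [hC]
      have : B * Di * Bi * (B * D * Bi) = B * (Di * ((Bi * B) * D)) * Bi := by
        simp only [Matrix.mul_assoc]
      rw [this, hBiB, Matrix.one_mul, hDiD, Matrix.mul_one, hBBi]
    have e2 : ((hz M.hodge h w z : Matrix.GeneralLinearGroup (Fin n) ℂ) : Matrix (Fin n) (Fin n) ℂ) *
        (((hz M.hodge h w z)⁻¹ : Matrix.GeneralLinearGroup (Fin n) ℂ) : Matrix (Fin n) (Fin n) ℂ) = 1 := by
      rw [← Matrix.GeneralLinearGroup.coe_mul, mul_inv_cancel]; rfl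
    calc _ = (B * Di * Bi) * ((hz M.hodge h w z : Matrix.GeneralLinearGroup (Fin n) ℂ) :
          Matrix (Fin n) (Fin n) ℂ) *
          (((hz M.hodge h w z)⁻¹ : Matrix.GeneralLinearGroup (Fin n) ℂ) : Matrix (Fin n) (Fin n) ℂ) := by
            rw [e1, Matrix.one_mul]
      _ = _ := by rw [Matrix.mul_assoc, e2, Matrix.mul_one]
  -- the hermitian form
  obtain ⟨K, hK⟩ : ∃ K : Matrix (Fin n) (Fin n) ℂ, K = Bᴴ * Ψ * B := ⟨_, rfl⟩
  obtain ⟨P, hP⟩ : ∃ P : Matrix (Fin n) (Fin n) ℂ, P = K * Di := ⟨_, rfl⟩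
  have hKblock : ∀ i j, K i j ≠ 0 → h i = h j := by
    intro i j hij
    -- K = (conj E)ᵀ * (Bᵀ Ψ B), conj B = B E
    have e1 : B.map (starRingEnd ℂ) = B * (Bi * B.map (starRingEnd ℂ)) := by
      rw [← Matrix.mul_assoc, hBBi, Matrix.one_mul]
    have e2 : Bᴴ = (Bi * B.map (starRingEnd ℂ))ᵀ * Bᵀ := by
      rw [← Matrix.transpose_mul, ← e1]
      ext a b
      rfl
    have e3 : K = (Bi * B.map (starRingEnd ℂ))ᵀ * (Bᵀ * Ψ * B) := by
      rw [hK, e2]
      simp only [Matrix.mul_assoc]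
    rw [e3, Matrix.mul_apply] at hij
    obtain ⟨k, _, hk⟩ := Finset.exists_ne_zero_of_sum_ne_zero hij
    have hk1 := left_ne_zero_of_mul hk
    have hk2 := right_ne_zero_of_mul hk
    rw [Matrix.transpose_apply] at hk1
    have f1 : h k + h i = w := by
      apply M.hodge_conj k i
      rw [← hB, ← hBi]
      exact hk1
    have f2 : h k + h j = w := by
      apply M.hodge_ψ k j
      rw [← hB, ← hΨ]
      exact hk2
    omega
  have hPij : ∀ i j, P i j = K i j * (d j)⁻¹ := by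
    intro i j
    rw [hP, hDi, Matrix.mul_diagonal]
  have hKH : Kᴴ = (-1 : ℂ) ^ w • K := by
    have e1 : Ψᴴ = (-1 : ℂ) ^ w • Ψ := by
      rw [hΨm, hreal, M.ψ_sym]
      ext i j
      rw [Matrix.map_apply, Matrix.smul_apply, Matrix.smul_apply, Matrix.map_apply, smul_eq_mul,
        smul_eq_mul, map_mul, map_pow, map_neg, map_one]
    rw [hK, conjTranspose_mul, conjTranspose_mul, conjTranspose_conjTranspose, e1]
    rw [Matrix.smul_mul, Matrix.mul_smul, Matrix.mul_assoc]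
  have hPH : P.IsHermitian := by
    ext i j
    rw [conjTranspose_apply, hPij, hPij, star_mul', star_inv₀, hdc, inv_inv]
    have e1 : star (K j i) = (-1 : ℂ) ^ w * K i j := by
      have := congrFun (congrFun hKH i) j
      rw [conjTranspose_apply, Matrix.smul_apply, smul_eq_mul] at this
      exact this
    rw [e1]
    by_cases hKz : K i j = 0
    · rw [hKz]; ring
    · have hij := hKblock i j hKz
      have hdd : d i = d j := by
        rw [hd]
        show Complex.I ^ h i * (-Complex.I) ^ (w - h i) = Complex.I ^ h j * (-Complex.I) ^ (w - h j)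
        rw [hij]
      have h2 := hd2 j
      have hs : ((-1 : ℂ) ^ w) * ((-1 : ℂ) ^ w) = 1 := by
        rw [← mul_pow]; norm_num
      have h3 : (d j)⁻¹ = (-1 : ℂ) ^ w * d j := by
        apply inv_eq_of_mul_eq_one_right
        rw [mul_left_comm, h2, hs]
      rw [hdd, h3]
      ring
  have hPpos : P.PosDef := by
    refine Matrix.PosDef.of_dotProduct_mulVec_pos hPH (fun x hx => ?_)
    obtain ⟨xr, hxr⟩ : ∃ xr : ℕ → Fin n → ℂ, xr = fun r j => if h j = r then x j else 0 := ⟨_, rfl⟩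
    have hxr0 : ∀ r j, h j ≠ r → xr r j = 0 := by
      intro r j hj
      rw [hxr]
      exact if_neg hj
    -- blocks
    have hsum : star x ⬝ᵥ (P *ᵥ x) = ∑ r ∈ Finset.range (w + 1), star (xr r) ⬝ᵥ (P *ᵥ xr r) := by
      have e1 : ∀ y : Fin n → ℂ, star y ⬝ᵥ (P *ᵥ y) = ∑ i, ∑ j, star (y i) * P i j * y j := by
        intro y
        simp only [dotProduct, mulVec, Finset.mul_sum, Pi.star_apply, mul_assoc]
      have e5 : ∑ r ∈ Finset.range (w + 1), star (xr r) ⬝ᵥ (P *ᵥ xr r) =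
          ∑ r ∈ Finset.range (w + 1), ∑ i, ∑ j, star (xr r i) * P i j * xr r j :=
        Finset.sum_congr rfl (fun r _ => e1 (xr r))
      rw [e1, e5, Finset.sum_comm (s := Finset.range (w + 1))]
      refine Finset.sum_congr rfl (fun i _ => ?_)
      rw [Finset.sum_comm]
      refine Finset.sum_congr rfl (fun j _ => ?_)
      by_cases hz0 : P i j = 0
      · rw [hz0]
        simp
      · have hij : h i = h j := by
          apply hKblock
          intro hK0
          apply hz0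
          rw [hPij, hK0, zero_mul]
        rw [Finset.sum_eq_single (h i)]
        · rw [hxr]
          simp only [if_pos hij.symm, if_true]
        · intro r _ hr
          rw [hxr0 r i (Ne.symm hr)]
          simp
        · intro hn
          exfalso
          apply hn
          rw [Finset.mem_range]
          have := M.hodge_le i
          omega
    -- each block
    have hblk : ∀ r, ∀ v : Fin n → ℂ, (∀ j, h j ≠ r → v j = 0) → v ≠ 0 →
        0 < (star v ⬝ᵥ (P *ᵥ v)).re := by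
      intro r v hv hv0
      have h1 := M.hodge_pos r v hv0 hv
      rw [← hB, ← hΨ] at h1
      have e1 : star v ⬝ᵥ (P *ᵥ v) = star (Complex.I ^ r * (-Complex.I) ^ (w - r) *
          dotProduct (B *ᵥ v) (Ψ *ᵥ star (B *ᵥ v))) := by
        have e2 : P *ᵥ v = (star (Complex.I ^ r * (-Complex.I) ^ (w - r))) • (K *ᵥ v) := by
          rw [hP, ← mulVec_mulVec, ← mulVec_smul]
          congr 1
          funext j
          rw [hDi, mulVec_diagonal, Pi.smul_apply, smul_eq_mul]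
          by_cases hj : h j = r
          · have : (d j)⁻¹ = star (Complex.I ^ r * (-Complex.I) ^ (w - r)) := by
              rw [← hdc, hd]
              show star (Complex.I ^ h j * (-Complex.I) ^ (w - h j)) = _
              rw [hj]
            rw [this]
          · rw [hv j hj, mul_zero, mul_zero]
        have e3 : star v ⬝ᵥ (K *ᵥ v) = star (dotProduct (B *ᵥ v) (Ψ *ᵥ star (B *ᵥ v))) := by
          have e4 : star (Ψ *ᵥ star (B *ᵥ v)) = Ψ *ᵥ (B *ᵥ v) := by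
            funext i
            rw [Pi.star_apply, mulVec, dotProduct, star_sum, mulVec, dotProduct]
            refine Finset.sum_congr rfl (fun j _ => ?_)
            rw [star_mul', Pi.star_apply, star_star]
            congr 1
            rw [hΨm, Matrix.map_apply, eq_ratCast]
            simp
          have e6 : star (dotProduct (B *ᵥ v) (Ψ *ᵥ star (B *ᵥ v))) =
              star (Ψ *ᵥ star (B *ᵥ v)) ⬝ᵥ star (B *ᵥ v) := (star_dotProduct_star _ _).symm
          rw [e6, e4, hK, Matrix.mul_assoc, ← mulVec_mulVec, dotProduct_mulVec,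
            vecMul_conjTranspose, star_star, ← mulVec_mulVec]
          exact dotProduct_comm _ _
        rw [e2, dotProduct_smul, e3, smul_eq_mul]
        exact (star_mul' _ _).symm
      rw [e1, Complex.star_def, Complex.conj_re]
      exact h1
    have hblk0 : ∀ r, 0 ≤ (star (xr r) ⬝ᵥ (P *ᵥ xr r)).re := by
      intro r
      by_cases hr : xr r = 0
      · rw [hr]; simp
      · exact (hblk r _ (hxr0 r) hr).le
    have hre : 0 < (star x ⬝ᵥ (P *ᵥ x)).re := by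
      rw [hsum, Complex.re_sum]
      obtain ⟨j, hj⟩ := Function.ne_iff.mp hx
      refine Finset.sum_pos' (fun r _ => hblk0 r) ⟨h j, ?_, ?_⟩
      · rw [Finset.mem_range]
        have := M.hodge_le j
        omega
      · apply hblk (h j) _ (hxr0 (h j))
        intro h0
        apply hj
        have := congrFun h0 j
        rw [hxr] at this
        simpa using this
    have him : (star x ⬝ᵥ (P *ᵥ x)).im = 0 := by
      have hs : star (star x ⬝ᵥ (P *ᵥ x)) = star x ⬝ᵥ (P *ᵥ x) := by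
        have e7 : star (star x ⬝ᵥ (P *ᵥ x)) = star (P *ᵥ x) ⬝ᵥ x := by
          have := (star_dotProduct_star (P *ᵥ x) (star x)).symm
          rw [star_star] at this
          exact this
        rw [e7, star_mulVec, hPH.eq, ← dotProduct_mulVec]
      have := congrArg Complex.im hs
      rw [Complex.star_def, Complex.conj_im] at this
      linarith
    rw [Complex.lt_def]
    refine ⟨?_, ?_⟩
    · simpa using hre
    · simpa using him.symm
  refine ⟨B, Bi, D, Di, hBBi, hBiB, hDDi, hDiD, hC, hCi, ?_⟩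
  rw [← hΨm, ← hK, ← hP]
  exact hPpos

theorem st_POSJR : ST_POSJR := by
  intro F _ _ n w h M j A z hz' htr
  obtain ⟨B, Bi, D, Di, hBBi, hBiB, hDDi, hDiD, hC, hCi, hP⟩ := posj_data F n w h M z hz'
  obtain ⟨Ψ, hΨ⟩ : ∃ Ψ : Matrix (Fin n) (Fin n) ℂ, Ψ = M.ψ.map (algebraMap ℚ ℂ) := ⟨_, rfl⟩
  obtain ⟨Ψi, hΨi⟩ : ∃ Ψi : Matrix (Fin n) (Fin n) ℂ, Ψi = (M.ψ⁻¹).map (algebraMap ℚ ℂ) :=
    ⟨_, rfl⟩
  have hψu : IsUnit M.ψ.det := isUnit_iff_ne_zero.mpr M.ψ_det
  have hΨΨi : Ψ * Ψi = 1 := by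
    rw [hΨ, hΨi, ← Matrix.map_mul, Matrix.mul_nonsing_inv _ hψu]
    exact Matrix.map_one _ (map_zero _) (map_one _)
  have hΨiΨ : Ψi * Ψ = 1 := by
    rw [hΨ, hΨi, ← Matrix.map_mul, Matrix.nonsing_inv_mul _ hψu]
    exact Matrix.map_one _ (map_zero _) (map_one _)
  rw [← hΨ] at hP
  obtain ⟨L, hL, hPL⟩ := CStarAlgebra.isStrictlyPositive_iff_eq_star_mul_self.mp
    hP.isStrictlyPositive
  rw [star_eq_conjTranspose] at hPL
  have hLd : IsUnit L.det := (Matrix.isUnit_iff_isUnit_det L).mp hL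
  have hLLi : L * L⁻¹ = 1 := Matrix.mul_nonsing_inv L hLd
  have hLiL : L⁻¹ * L = 1 := Matrix.nonsing_inv_mul L hLd
  -- `P⁻¹`
  have hBiHB : Biᴴ * Bᴴ = 1 := by
    rw [← conjTranspose_mul, hBBi, conjTranspose_one]
  have hBHBi : Bᴴ * Biᴴ = 1 := by
    rw [← conjTranspose_mul, hBiB, conjTranspose_one]
  have hPinv : L⁻¹ * (L⁻¹)ᴴ = D * Bi * Ψi * Biᴴ := by
    have h1 : (L⁻¹ * (L⁻¹)ᴴ) * (Bᴴ * Ψ * B * Di) = 1 := by
      rw [hPL]
      have e : L⁻¹ * (L⁻¹)ᴴ * (Lᴴ * L) = L⁻¹ * ((L⁻¹)ᴴ * Lᴴ) * L := by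
        simp only [Matrix.mul_assoc]
      rw [e, ← conjTranspose_mul, hLLi, conjTranspose_one, Matrix.mul_one, hLiL]
    have h2 : Bᴴ * Ψ * B * Di * (D * Bi * Ψi * Biᴴ) = 1 := by
      have : Bᴴ * Ψ * B * Di * (D * Bi * Ψi * Biᴴ) =
          Bᴴ * (Ψ * (B * ((Di * D) * Bi) * Ψi)) * Biᴴ := by
        simp only [Matrix.mul_assoc]
      rw [this, hDiD, Matrix.one_mul, hBBi, Matrix.one_mul, hΨΨi, Matrix.mul_one, hBHBi]
    calc L⁻¹ * (L⁻¹)ᴴ = (L⁻¹ * (L⁻¹)ᴴ) * (Bᴴ * Ψ * B * Di * (D * Bi * Ψi * Biᴴ)) := by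
          rw [h2, Matrix.mul_one]
      _ = ((L⁻¹ * (L⁻¹)ᴴ) * (Bᴴ * Ψ * B * Di)) * (D * Bi * Ψi * Biᴴ) := by
          simp only [Matrix.mul_assoc]
      _ = D * Bi * Ψi * Biᴴ := by rw [h1, Matrix.one_mul]
  -- tensor powers
  have ht : ∀ g k : Matrix (Fin n) (Fin n) ℂ, g * k = 1 → MT.tp j g * MT.tp j k = 1 := by
    intro g k hgk
    rw [← MT.tp_mul, hgk, MT.tp_one]
  obtain ⟨A', hA'⟩ : ∃ A' : Matrix (Fin j → Fin n) (Fin j → Fin n) ℂ,
    A' = A.map (algebraMap ℚ ℂ) := ⟨_, rfl⟩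
  have hreal : (A.transpose).map (algebraMap ℚ ℂ) = A'ᴴ := by
    rw [hA']
    ext i j
    rw [conjTranspose_apply, Matrix.map_apply, Matrix.map_apply, transpose_apply, eq_ratCast]
    simp
  have hadj : (MT.tp j M.ψ⁻¹ * A.transpose * MT.tp j M.ψ).map (algebraMap ℚ ℂ) =
      MT.tp j Ψi * A'ᴴ * MT.tp j Ψ := by
    rw [Matrix.map_mul, Matrix.map_mul, hreal, MT.tp_map, MT.tp_map, ← hΨ, ← hΨi]
  rw [hC, hCi, hadj, ← hA', MT.tp_mul, MT.tp_mul, MT.tp_mul, MT.tp_mul] at htr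
  have hP' : (MT.tp j L)ᴴ * MT.tp j L =
      (MT.tp j B)ᴴ * MT.tp j Ψ * MT.tp j B * MT.tp j Di := by
    rw [← HG.posj_tpH, ← HG.posj_tpH, ← MT.tp_mul, ← MT.tp_mul, ← MT.tp_mul, ← MT.tp_mul, hPL]
  have hPinv' : MT.tp j L⁻¹ * (MT.tp j L⁻¹)ᴴ =
      MT.tp j D * MT.tp j Bi * MT.tp j Ψi * (MT.tp j Bi)ᴴ := by
    rw [← HG.posj_tpH, ← HG.posj_tpH, ← MT.tp_mul, ← MT.tp_mul, ← MT.tp_mul, ← MT.tp_mul, hPinv]
  have hb1 := ht B Bi hBBi
  have hb2 := ht Bi B hBiB
  have hl1 := ht L L⁻¹ hLLi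
  have hl2 := ht L⁻¹ L hLiL
  generalize MT.tp j B = b at *
  generalize MT.tp j Bi = bi at *
  generalize MT.tp j D = d at *
  generalize MT.tp j Di = di at *
  generalize MT.tp j Ψ = ψ at *
  generalize MT.tp j Ψi = ψi at *
  generalize MT.tp j L = l at *
  generalize MT.tp j L⁻¹ = li at *
  have hbh : biᴴ * bᴴ = 1 := by rw [← conjTranspose_mul, hb1, conjTranspose_one]
  have hX0 := HG.posj_trace l li (bi * A' * b) hl1 hl2 (by
    rw [← htr, hP', hPinv', conjTranspose_mul, conjTranspose_mul]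
    have e1 : bi * A' * b * (d * bi * ψi * biᴴ * (bᴴ * (A'ᴴ * biᴴ)) * (bᴴ * ψ * b * di)) =
        bi * (A' * (b * d * bi * ψi * ((biᴴ * bᴴ) * A'ᴴ * (biᴴ * bᴴ)) * ψ * b * di)) := by
      simp only [Matrix.mul_assoc]
    rw [e1, hbh, Matrix.one_mul, Matrix.mul_one, Matrix.trace_mul_comm]
    congr 1
    simp only [Matrix.mul_assoc])
  have hA0 : A' = 0 := by
    have : b * (bi * A' * b) * bi = A' := by
      have e : b * (bi * A' * b) * bi = (b * bi) * A' * (b * bi) := by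
        simp only [Matrix.mul_assoc]
      rw [e, hb1, Matrix.one_mul, Matrix.mul_one]
    rw [← this, hX0, Matrix.mul_zero, Matrix.zero_mul]
  ext i k
  have := congrFun (congrFun hA0 i) k
  rw [hA', Matrix.map_apply, Matrix.zero_apply] at this
  rw [Matrix.zero_apply]
  exact (map_eq_zero_iff _ (algebraMap ℚ ℂ).injective).mp this

end EM
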