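import Pool.Agent.Helper21.EM.Defs

/-!
# Lie algebras of matrices with a commutative commutant: exact statements of the modules (T33, A)
Proofs: /team-store/em_helper21.md
-/

set_option autoImplicit false

open Matrix MT

namespace EM

/-! ## A. Idempotents and blocks -/

/-- CPL: complements (see helper91's HG.DC). -/
def ST_CPL : Prop :=
  ∀ (K : Type) [Field K] (n : ℕ) (L : Submodule K (Matrix (Fin n) (Fin n) K)), TrN L →
    ∀ U : Submodule K (Fin n → K), (∀ A ∈ L, ∀ v ∈ U, A.mulVec v ∈ U) →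
      ∃ U' : Submodule K (Fin n → K), (∀ A ∈ L, ∀ v ∈ U', A.mulVec v ∈ U') ∧ IsCompl U U'

/-- IDM: the idempotents of a frame. -/
def ST_IDM : Prop :=
  ∀ (K : Type) [Field K] [CharZero K] (n w : ℕ) (h : Fin n → ℕ)
    (L : Submodule K (Matrix (Fin n) (Fin n) K)) (P : Matrix.GeneralLinearGroup (Fin n) K),
    Frm w h L P → ∀ k : Fin n,
      idm L P k ∈ Cmt L ∧ idm L P k * idm L P k = idm L P k ∧ idm L P k ≠ 0 ∧
      (∀ X ∈ Cmt L, X * idm L P k = evl P X k • idm L P k) ∧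
      (∀ j, evl P (idm L P k) j ≠ 0 → Sam L P j P k) ∧ evl P (idm L P k) k = 1 ∧
      ∀ P' : Matrix.GeneralLinearGroup (Fin n) K, Frm w h L P' → ∀ k' : Fin n,
        (Sam L P k P' k' → idm L P k = idm L P' k') ∧
        (¬ Sam L P k P' k' → idm L P k * idm L P' k' = 0)

/-- PRM: the primitive idempotents (from IDM). -/
def ST_PRM : Prop :=
  ∀ (K : Type) [Field K] [CharZero K] (n w : ℕ) (h : Fin n → ℕ) (ψ : Matrix (Fin n) (Fin n) K)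
    (L : Submodule K (Matrix (Fin n) (Fin n) K)) (P : Matrix.GeneralLinearGroup (Fin n) K),
    Sss w ψ L → Frm w h L P →
      (∀ k, idm L P k ∈ Prm L) ∧ (∀ ε ∈ Prm L, ∃ k, ε = idm L P k) ∧
      (∀ ε ∈ Prm L, ∀ ε' ∈ Prm L, ε ≠ ε' → ε * ε' = 0) ∧
      (∃ S : Finset (Matrix (Fin n) (Fin n) K), (∀ ε, ε ∈ S ↔ ε ∈ Prm L) ∧ ∑ ε ∈ S, ε = 1) ∧
      (∀ X ∈ Cmt L, adj ψ X ∈ Cmt L ∧ adj ψ (adj ψ X) = X) ∧
      (∀ ε ∈ Prm L, adj ψ ε ∈ Prm L)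

/-- COO: coordinates of a block. -/
def ST_COO : Prop :=
  ∀ (K : Type) [Field K] [CharZero K] (n : ℕ) (L : Submodule K (Matrix (Fin n) (Fin n) K))
    (P : Matrix.GeneralLinearGroup (Fin n) K) (k : Fin n) (r : ℕ) (f : Fin r → Fin n),
    Enm L P k r f → VV P f * UU P f = 1 ∧ UU P f * VV P f = idm L P k ∧
      idm L P k * UU P f = UU P f ∧ VV P f * idm L P k = VV P f ∧ (idm L P k).trace = (r : K)

/-- IRB: the blocks are irreducible (from CPL, IDM, COO). -/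
def ST_IRB : Prop :=
  ∀ (K : Type) [Field K] [CharZero K] (n w : ℕ) (h : Fin n → ℕ) (ψ : Matrix (Fin n) (Fin n) K)
    (L : Submodule K (Matrix (Fin n) (Fin n) K)) (P : Matrix.GeneralLinearGroup (Fin n) K)
    (k : Fin n) (r : ℕ) (f : Fin r → Fin n), Sss w ψ L → Frm w h L P → Enm L P k r f →
      LIrr (Cps L P f) ∧ Brk (Cps L P f) ∧
      dg P (fun j => 2 * (h j : ℤ) - (w : ℤ)) ∈ L ∧
      VV P f * dg P (fun j => 2 * (h j : ℤ) - (w : ℤ)) * UU P f =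
        Matrix.diagonal (fun i => ((2 * (h (f i) : ℤ) - (w : ℤ) : ℤ) : K))

/-- BFM: the form on a real block (from IDM, PRM, COO, IRB). -/
def ST_BFM : Prop :=
  ∀ (K : Type) [Field K] [CharZero K] (n w : ℕ) (h : Fin n → ℕ) (ψ : Matrix (Fin n) (Fin n) K)
    (L : Submodule K (Matrix (Fin n) (Fin n) K)) (P : Matrix.GeneralLinearGroup (Fin n) K)
    (k : Fin n) (r : ℕ) (f : Fin r → Fin n), Sss w ψ L → Frm w h L P → Enm L P k r f →
      adj ψ (idm L P k) = idm L P k →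
      Irs (frm ψ P f) (Cps L P f) ∧ (frm ψ P f).transpose = (-1 : K) ^ w • frm ψ P f ∧
      (∀ A : Matrix (Fin n) (Fin n) K, A.transpose * ψ + ψ * A = 0 →
        (VV P f * A * UU P f).transpose * frm ψ P f + frm ψ P f * (VV P f * A * UU P f) = 0) ∧
      ∀ Y : Matrix (Fin r) (Fin r) K, Y.transpose * frm ψ P f + frm ψ P f * Y = 0 →
        (UU P f * Y * VV P f).transpose * ψ + ψ * (UU P f * Y * VV P f) = 0

/-- TWO2: irreducible Lie algebras of isometries in dimension two. -/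
def ST_TWO2 : Prop :=
  ∀ (K : Type) [Field K] [CharZero K] [IsAlgClosed K] (w : ℕ) (ψ : Matrix (Fin 2) (Fin 2) K)
    (a : Submodule K (Matrix (Fin 2) (Fin 2) K)), Irs ψ a → ψ.transpose = (-1 : K) ^ w • ψ →
      Odd w ∧ ∀ Y : Matrix (Fin 2) (Fin 2) K, Y.transpose * ψ + ψ * Y = 0 → Y ∈ a

/-- WID: blocks with wide Hodge numbers (from BFM, TWO2 and `MT.ST_TOPC`). -/
def ST_WID : Prop :=
  ∀ (K : Type) [Field K] [CharZero K] [IsAlgClosed K] (n w : ℕ) (h : Fin n → ℕ)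
    (ψ : Matrix (Fin n) (Fin n) K) (L : Submodule K (Matrix (Fin n) (Fin n) K))
    (P : Matrix.GeneralLinearGroup (Fin n) K) (k : Fin n) (r : ℕ) (f : Fin r → Fin n),
    Sss w ψ L → Frm w h L P → Enm L P k r f → adj ψ (idm L P k) = idm L P k →
    (r ≤ 2 ∨ WideC w (h ∘ f)) →
      (∀ Y : Matrix (Fin r) (Fin r) K, Y.transpose * frm ψ P f + frm ψ P f * Y = 0 →
        Y ∈ Cps L P f) ∧ Sur ψ L (idm L P k) ∧ (r = 2 → Odd w)

/-! ## B. Lines -/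

/-- NRM: the operator of an isolated type normalises `L` (from `MT.ST_GRA` and `MT.ST_SHF`). -/
def ST_NRM : Prop :=
  ∀ (K : Type) [Field K] [CharZero K] (n w m : ℕ) (h : Fin n → ℕ)
    (ψ : Matrix (Fin n) (Fin n) K) (L : Submodule K (Matrix (Fin n) (Fin n) K))
    (P : Matrix.GeneralLinearGroup (Fin n) K), ψ.det ≠ 0 → ψ.transpose = (-1 : K) ^ w • ψ →
    Brk L → (∀ A ∈ L, A.transpose * ψ + ψ * A = 0) →
    dg P (fun j => 2 * (h j : ℤ) - (w : ℤ)) ∈ L → w < 2 * m → Isol w h m →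
      (∀ A ∈ L, dg P (sgm w m h) * A - A * dg P (sgm w m h) ∈ L) ∧
      (dg P (sgm w m h)).transpose * ψ + ψ * dg P (sgm w m h) = 0 ∧
      (∀ i j, ((P : Matrix (Fin n) (Fin n) K).transpose * ψ * (P : Matrix (Fin n) (Fin n) K)) i j
        ≠ 0 → h i + h j = w) ∧
      (Finset.univ.filter fun j => h j = m).card = (Finset.univ.filter fun j => h j + m = w).card

/-- LNC: an isolated type in a block which is not real (from IDM, PRM, COO, IRB, NRM). -/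
def ST_LNC : Prop :=
  ∀ (K : Type) [Field K] [CharZero K] [IsAlgClosed K] (n w m : ℕ) (h : Fin n → ℕ)
    (ψ : Matrix (Fin n) (Fin n) K) (L : Submodule K (Matrix (Fin n) (Fin n) K))
    (P : Matrix.GeneralLinearGroup (Fin n) K) (k : Fin n), Sss w ψ L → Frm w h L P →
    w < 2 * m → Isol w h m → h k = m → (Finset.univ.filter fun j => h j = m).card = 1 →
    adj ψ (idm L P k) ≠ idm L P k →
      ∀ Y : Matrix (Fin n) (Fin n) K, idm L P k * Y * idm L P k = Y → Y.trace = 0 →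
        Y - adj ψ Y ∈ L

/-- GNT: ideals which contain the elements of degree different from zero. -/
def ST_GNT : Prop :=
  ∀ (K : Type) [Field K] [CharZero K] [IsAlgClosed K] (r w : ℕ) (ψ : Matrix (Fin r) (Fin r) K)
    (P : Matrix.GeneralLinearGroup (Fin r) K) (s : Fin r → ℤ) (i₀ j₀ : Fin r)
    (I : Submodule K (Matrix (Fin r) (Fin r) K)), ψ.det ≠ 0 → ψ.transpose = (-1 : K) ^ w • ψ →
    (Odd w ∨ 3 ≤ r) → s i₀ = 1 → s j₀ = -1 → (∀ j, j ≠ i₀ → j ≠ j₀ → s j = 0) →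
    (dg P s).transpose * ψ + ψ * dg P s = 0 → (∀ A ∈ I, A ∈ Grs.isoS ψ) →
    (∀ A ∈ I, ∀ B ∈ Grs.isoS ψ, B * A - A * B ∈ I) →
    (∀ Z ∈ Grs.isoS ψ, dg P s * Z - Z * dg P s ∈ I) → ∀ A ∈ Grs.isoS ψ, A ∈ I

/-- LNR: an isolated type in a real block (from IDM, PRM, COO, BFM, WID, NRM, GNT). -/
def ST_LNR : Prop :=
  ∀ (K : Type) [Field K] [CharZero K] [IsAlgClosed K] (n w m : ℕ) (h : Fin n → ℕ)
    (ψ : Matrix (Fin n) (Fin n) K) (L : Submodule K (Matrix (Fin n) (Fin n) K))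
    (P : Matrix.GeneralLinearGroup (Fin n) K) (k : Fin n), Sss w ψ L → Frm w h L P →
    w < 2 * m → Isol w h m → h k = m → (Finset.univ.filter fun j => h j = m).card = 1 →
    adj ψ (idm L P k) = idm L P k →
      ∀ A : Matrix (Fin n) (Fin n) K, A.transpose * ψ + ψ * A = 0 →
        idm L P k * A * idm L P k = A → A ∈ L

/-! ## C. Isomorphisms of orthogonal and symplectic Lie algebras -/

/-- HWM: two irreducible representations with the same highest weight are isomorphic. -/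
def ST_HWM : Prop :=
  ∀ (K : Type) [Field K] [CharZero K] (r r' : ℕ)
    (R : Submodule K (Matrix (Fin r) (Fin r) K × Matrix (Fin r') (Fin r') K))
    (s : Fin r → ℤ) (s' : Fin r' → ℤ) (i₀ : Fin r) (j₀ : Fin r'),
    (∀ p ∈ R, ∀ q ∈ R, p * q - q * p ∈ R) →
    (∀ p ∈ R, ∀ x : ℤ, ((cmp s x p.1, cmp s' x p.2) :
      Matrix (Fin r) (Fin r) K × Matrix (Fin r') (Fin r') K) ∈ R) →
    (∀ U : Submodule K (Fin r → K), (∀ p ∈ R, ∀ v ∈ U, p.1.mulVec v ∈ U) → U = ⊥ ∨ U = ⊤) →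
    (∀ U : Submodule K (Fin r' → K), (∀ p ∈ R, ∀ v ∈ U, p.2.mulVec v ∈ U) → U = ⊥ ∨ U = ⊤) →
    s i₀ = s' j₀ → (∀ i, i ≠ i₀ → s i < s i₀) → (∀ j, j ≠ j₀ → s' j < s' j₀) →
    (∀ p ∈ R, cmp s 0 p.1 = p.1 → cmp s' 0 p.2 = p.2 → p.1 i₀ i₀ = p.2 j₀ j₀) →
      ∃ B : Matrix (Fin r') (Fin r) K, B ≠ 0 ∧ ∀ p ∈ R, p.2 * B = B * p.1

/-- ETY: an element with eigenvalues `1`, `-1` (of multiplicity one) and `0`. -/
def ST_ETY : Prop :=
  ∀ (K : Type) [Field K] [CharZero K] [IsAlgClosed K] (r w : ℕ) (ψ : Matrix (Fin r) (Fin r) K),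
    2 ≤ r → ψ.det ≠ 0 → ψ.transpose = (-1 : K) ^ w • ψ →
    ∃ (P : Matrix.GeneralLinearGroup (Fin r) K) (s : Fin r → ℤ) (i₀ j₀ : Fin r),
      s i₀ = 1 ∧ s j₀ = -1 ∧ (∀ j, j ≠ i₀ → j ≠ j₀ → s j = 0) ∧
      (dg P s).transpose * ψ + ψ * dg P s = 0

/-- SPO: the spectrum of an element of an orthogonal Lie algebra which defines a grading with the
degrees `1`, `0`, `-1`. -/
def ST_SPO : Prop :=
  ∀ (K : Type) [Field K] [CharZero K] [IsAlgClosed K] (r : ℕ) (ψ T : Matrix (Fin r) (Fin r) K),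
    3 ≤ r → ψ.det ≠ 0 → ψ.transpose = ψ → T.transpose * ψ + ψ * T = 0 → T ≠ 0 →
    (∀ Y : Matrix (Fin r) (Fin r) K, Y.transpose * ψ + ψ * Y = 0 →
      ∃ Y₀ Y₁ Y₂ : Matrix (Fin r) (Fin r) K, Y = Y₀ + Y₁ + Y₂ ∧ T * Y₀ - Y₀ * T = 0 ∧
        T * Y₁ - Y₁ * T = Y₁ ∧ T * Y₂ - Y₂ * T = -Y₂) →
    (∃ (P : Matrix.GeneralLinearGroup (Fin r) K) (s : Fin r → ℤ) (i₀ j₀ : Fin r),
      s i₀ = 1 ∧ s j₀ = -1 ∧ (∀ j, j ≠ i₀ → j ≠ j₀ → s j = 0) ∧ T = dg P s) ∨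
    ∃ (P : Matrix.GeneralLinearGroup (Fin r) K) (s : Fin r → ℤ),
      (∀ j, s j = 1 ∨ s j = -1) ∧ (2 : K) • T = dg P s

/-- SPS: the spectrum of an element of a symplectic Lie algebra which defines a grading with the
degrees `2`, `1`, `0`, `-1`, `-2`, with one-dimensional piece of degree `2`. -/
def ST_SPS : Prop :=
  ∀ (K : Type) [Field K] [CharZero K] [IsAlgClosed K] (r : ℕ)
    (ψ T E : Matrix (Fin r) (Fin r) K), ψ.det ≠ 0 → ψ.transpose = -ψ →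
    T.transpose * ψ + ψ * T = 0 →
    (∀ Y : Matrix (Fin r) (Fin r) K, Y.transpose * ψ + ψ * Y = 0 →
      ∃ Y₀ Y₁ Y₂ Y₃ Y₄ : Matrix (Fin r) (Fin r) K, Y = Y₀ + Y₁ + Y₂ + Y₃ + Y₄ ∧
        T * Y₀ - Y₀ * T = 0 ∧ T * Y₁ - Y₁ * T = Y₁ ∧ T * Y₂ - Y₂ * T = -Y₂ ∧
        T * Y₃ - Y₃ * T = (2 : K) • Y₃ ∧ T * Y₄ - Y₄ * T = -((2 : K) • Y₄)) →
    E ≠ 0 → E.transpose * ψ + ψ * E = 0 → T * E - E * T = (2 : K) • E →
    (∀ Y : Matrix (Fin r) (Fin r) K, Y.transpose * ψ + ψ * Y = 0 →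
      T * Y - Y * T = (2 : K) • Y → ∃ c : K, Y = c • E) →
    ∃ (P : Matrix.GeneralLinearGroup (Fin r) K) (s : Fin r → ℤ) (i₀ j₀ : Fin r),
      s i₀ = 1 ∧ s j₀ = -1 ∧ (∀ j, j ≠ i₀ → j ≠ j₀ → s j = 0) ∧ T = dg P s

/-- the infinitesimal isometries `Y` with `[T, Y] = x Y` -/
def Deg {K : Type} [Field K] {r : ℕ} (ψ T : Matrix (Fin r) (Fin r) K) (x : K) :
    Submodule K (Matrix (Fin r) (Fin r) K) where
  carrier := {Y | Y.transpose * ψ + ψ * Y = 0 ∧ T * Y - Y * T = x • Y}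
  add_mem' := fun {A B} hA hB => ⟨by
    rw [Matrix.transpose_add, Matrix.add_mul, Matrix.mul_add, add_add_add_comm, hA.1, hB.1,
      add_zero], by
    rw [Matrix.mul_add, Matrix.add_mul, smul_add, ← hA.2, ← hB.2]
    abel⟩
  zero_mem' := ⟨by rw [Matrix.transpose_zero, Matrix.zero_mul, Matrix.mul_zero, add_zero], by
    rw [Matrix.mul_zero, Matrix.zero_mul, sub_zero, smul_zero]⟩
  smul_mem' := fun c A hA => ⟨by
    rw [Matrix.transpose_smul, Matrix.smul_mul, Matrix.mul_smul, ← smul_add, hA.1, smul_zero], by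
    rw [Matrix.mul_smul, Matrix.smul_mul, ← smul_sub, hA.2, smul_comm]⟩

/-- DIM: dimensions for the orthogonal Lie algebras. -/
def ST_DIM : Prop :=
  ∀ (K : Type) [Field K] [CharZero K] [IsAlgClosed K] (r : ℕ) (ψ : Matrix (Fin r) (Fin r) K),
    ψ.det ≠ 0 → ψ.transpose = ψ →
    2 * Module.finrank K (Grs.isoS ψ) = r * (r - 1) ∧
    (∀ (P : Matrix.GeneralLinearGroup (Fin r) K) (s : Fin r → ℤ) (i₀ j₀ : Fin r),
      s i₀ = 1 → s j₀ = -1 → (∀ j, j ≠ i₀ → j ≠ j₀ → s j = 0) →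
      (dg P s).transpose * ψ + ψ * dg P s = 0 →
      Module.finrank K (Deg ψ (dg P s) 1) + 2 = r) ∧
    (∀ (P : Matrix.GeneralLinearGroup (Fin r) K) (s : Fin r → ℤ),
      (∀ j, s j = 1 ∨ s j = -1) → (dg P s).transpose * ψ + ψ * dg P s = 0 →
      8 * Module.finrank K (Deg ψ (dg P s) 2) = r * (r - 2))

/-- LAM: the eigenvalue on the line of degree one of an element `Z` of degree zero: the trace of
`ad Z` on the part of degree one is `(r - 2)` times this eigenvalue; in the symplectic case, `ad Z`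
acts on the part of degree two as twice the eigenvalue. -/
def ST_LAM : Prop :=
  ∀ (K : Type) [Field K] [CharZero K] (r w : ℕ) (ψ : Matrix (Fin r) (Fin r) K)
    (P : Matrix.GeneralLinearGroup (Fin r) K) (s : Fin r → ℤ) (i₀ j₀ : Fin r)
    (Z : Matrix (Fin r) (Fin r) K), ψ.det ≠ 0 → ψ.transpose = (-1 : K) ^ w • ψ →
    s i₀ = 1 → s j₀ = -1 → (∀ j, j ≠ i₀ → j ≠ j₀ → s j = 0) →
    (dg P s).transpose * ψ + ψ * dg P s = 0 → Z.transpose * ψ + ψ * Z = 0 →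
    dg P s * Z = Z * dg P s →
    (∀ f : Deg ψ (dg P s) 1 →ₗ[K] Deg ψ (dg P s) 1,
      (∀ Y, ((f Y : Deg ψ (dg P s) 1) : Matrix (Fin r) (Fin r) K) =
        Z * (Y : Matrix (Fin r) (Fin r) K) - (Y : Matrix (Fin r) (Fin r) K) * Z) →
      LinearMap.trace K _ f + 2 * evl P Z i₀ = (r : K) * evl P Z i₀) ∧
    (Odd w → (∃ E : Matrix (Fin r) (Fin r) K, E ≠ 0 ∧ E ∈ Deg ψ (dg P s) 2 ∧
        (∀ Y ∈ Deg ψ (dg P s) 2, ∃ c : K, Y = c • E)) ∧
      ∀ Y ∈ Deg ψ (dg P s) 2, Z * Y - Y * Z = (2 * evl P Z i₀) • Y)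

/-- AUT: isomorphisms of orthogonal and symplectic Lie algebras are given by isomorphisms of the
vector spaces (from HWM, ETY, SPO, SPS, DIM, LAM and `Grs.graph_equiv`). -/
def ST_AUT : Prop :=
  ∀ (K : Type) [Field K] [CharZero K] [IsAlgClosed K] (r r' w : ℕ)
    (ψ : Matrix (Fin r) (Fin r) K) (ψ' : Matrix (Fin r') (Fin r') K)
    (R : Submodule K (Matrix (Fin r) (Fin r) K × Matrix (Fin r') (Fin r') K)),
    ψ.det ≠ 0 → ψ.transpose = (-1 : K) ^ w • ψ → ψ'.det ≠ 0 → ψ'.transpose = (-1 : K) ^ w • ψ' →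
    ((Odd w ∧ 0 < r ∧ 0 < r') ∨ (3 ≤ r ∧ 3 ≤ r' ∧ r ≠ 4 ∧ r ≠ 8 ∧ r' ≠ 4 ∧ r' ≠ 8)) →
    (∀ p ∈ R, p.1 ∈ Grs.isoS ψ ∧ p.2 ∈ Grs.isoS ψ') →
    (∀ p ∈ R, ∀ q ∈ R, p * q - q * p ∈ R) →
    (∀ A ∈ Grs.isoS ψ, ∃ B, (A, B) ∈ R) → (∀ B ∈ Grs.isoS ψ', ∃ A, (A, B) ∈ R) →
    (∀ p ∈ R, (p.1 = 0 ↔ p.2 = 0)) →
      ∃ B : Matrix (Fin r') (Fin r) K, B ≠ 0 ∧ ∀ p ∈ R, p.2 * B = B * p.1

/-! ## D. Goursat's lemma -/

/-- PFO: perfectness (see `Grs.Form.perfect`, `Grs.nonabelian_sp`, `Smp.ortho_basis`). -/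
def ST_PFO : Prop :=
  ∀ (K : Type) [Field K] [CharZero K] [IsAlgClosed K] (n w : ℕ) (h : Fin n → ℕ)
    (ψ : Matrix (Fin n) (Fin n) K) (L : Submodule K (Matrix (Fin n) (Fin n) K))
    (P : Matrix.GeneralLinearGroup (Fin n) K) (k : Fin n) (r : ℕ) (f : Fin r → Fin n),
    Sss w ψ L → Frm w h L P → Enm L P k r f → adj ψ (idm L P k) = idm L P k →
    (Odd w ∨ r ≠ 2) → Prf ψ (idm L P k)

/-- PAR: two real blocks (from IDM, PRM, COO, BFM, AUT and `Grs.goursat`). -/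
def ST_PAR : Prop :=
  ∀ (K : Type) [Field K] [CharZero K] [IsAlgClosed K] (n w : ℕ) (h : Fin n → ℕ)
    (ψ : Matrix (Fin n) (Fin n) K) (L : Submodule K (Matrix (Fin n) (Fin n) K))
    (P P' : Matrix.GeneralLinearGroup (Fin n) K) (k k' : Fin n) (r r' : ℕ) (f : Fin r → Fin n)
    (f' : Fin r' → Fin n), Sss w ψ L → Frm w h L P → Frm w h L P' → Enm L P k r f →
    Enm L P' k' r' f' → adj ψ (idm L P k) = idm L P k → adj ψ (idm L P' k') = idm L P' k' →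
    (∀ Y : Matrix (Fin r) (Fin r) K, Y.transpose * frm ψ P f + frm ψ P f * Y = 0 →
      Y ∈ Cps L P f) →
    (∀ Y : Matrix (Fin r') (Fin r') K, Y.transpose * frm ψ P' f' + frm ψ P' f' * Y = 0 →
      Y ∈ Cps L P' f') →
    (Odd w ∨ (r ≠ 2 ∧ r ≠ 4 ∧ r ≠ 8 ∧ r' ≠ 2 ∧ r' ≠ 4 ∧ r' ≠ 8)) →
    idm L P k ≠ idm L P' k' → Prs ψ L (idm L P k) (idm L P' k')

/-- PRC: a real block and a factor contained in `L` (from PRM). -/
def ST_PRC : Prop :=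
  ∀ (K : Type) [Field K] [CharZero K] (n w : ℕ) (h : Fin n → ℕ)
    (ψ : Matrix (Fin n) (Fin n) K) (L : Submodule K (Matrix (Fin n) (Fin n) K))
    (P : Matrix.GeneralLinearGroup (Fin n) K) (ε ε' : Matrix (Fin n) (Fin n) K),
    Sss w ψ L → Frm w h L P → ε ∈ Prm L → ε' ∈ Prm L → ε ≠ ε' → adj ψ ε = ε → Sur ψ L ε →
    Prf ψ ε → Ful ψ L ε' → Prs ψ L ε ε'

/-- RIB: Ribet's lemma (from PRM; see `Grs.ribet`). -/
def ST_RIB : Prop :=
  ∀ (K : Type) [Field K] [CharZero K] (n w : ℕ) (h : Fin n → ℕ)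
    (ψ : Matrix (Fin n) (Fin n) K) (L : Submodule K (Matrix (Fin n) (Fin n) K))
    (P : Matrix.GeneralLinearGroup (Fin n) K) (ε : Matrix (Fin n) (Fin n) K),
    Sss w ψ L → Frm w h L P → ε ∈ Prm L → adj ψ ε = ε → Sur ψ L ε → Prf ψ ε →
    (∀ ε' ∈ Prm L, ε ≠ ε' → Prs ψ L ε ε') → Ful ψ L ε

/-- FDR: factors contained in `L` are contained in the derived algebra of `L` (from PRM, COO,
PFO). -/
def ST_FDR : Prop :=
  ∀ (K : Type) [Field K] [CharZero K] [IsAlgClosed K] (n w : ℕ) (h : Fin n → ℕ)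
    (ψ : Matrix (Fin n) (Fin n) K) (L : Submodule K (Matrix (Fin n) (Fin n) K))
    (P : Matrix.GeneralLinearGroup (Fin n) K) (k : Fin n) (r : ℕ) (f : Fin r → Fin n),
    Sss w ψ L → Frm w h L P → Enm L P k r f → (Odd w ∨ r ≠ 2 ∨ adj ψ (idm L P k) ≠ idm L P k) →
    Ful ψ L (idm L P k) → Ful ψ (HG.der L) (idm L P k)

/-- SMM: the sum over the factors (from PRM). -/
def ST_SMM : Prop :=
  ∀ (K : Type) [Field K] [CharZero K] (n w : ℕ) (h : Fin n → ℕ)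
    (ψ : Matrix (Fin n) (Fin n) K) (L D : Submodule K (Matrix (Fin n) (Fin n) K))
    (P : Matrix.GeneralLinearGroup (Fin n) K), Sss w ψ L → Frm w h L P →
    (∀ ε ∈ Prm L, Ful ψ D ε) → HG.der (Lef ψ L) ≤ D ∧
      ((∀ X ∈ Cmt L, adj ψ X = X) → Lef ψ L ≤ D)

/-- CORE: the Lie theorem (from PRM, COO, WID, LNC, LNR, PFO, PAR, PRC, RIB, FDR, SMM). -/
def ST_CORE : Prop :=
  ∀ (K : Type) [Field K] [CharZero K] [IsAlgClosed K] (n w : ℕ) (h : Fin n → ℕ)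
    (ψ : Matrix (Fin n) (Fin n) K) (L : Submodule K (Matrix (Fin n) (Fin n) K))
    (Fr : Set (Matrix.GeneralLinearGroup (Fin n) K)), Sss w ψ L → Fr.Nonempty →
    (∀ P ∈ Fr, Frm w h L P) →
    (∀ P ∈ Fr, ∀ k : Fin n, ∃ P' ∈ Fr, ∃ k' : Fin n, Sam L P k P' k' ∧
      GoodAt w h (fun j => Sam L P' j P' k') (adj ψ (idm L P' k') = idm L P' k') k') →
    HG.der (Lef ψ L) ≤ HG.der L ∧ ((∀ X ∈ Cmt L, adj ψ X = X) → Lef ψ L ≤ HG.der L)

/-! ## E. Descent -/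

/-- TRB: the associative algebra over an extension. -/
def ST_TRB : Prop :=
  ∀ (K₀ K : Type) [Field K₀] [Field K] [Algebra K₀ K] (n : ℕ)
    (U : Submodule K₀ (Matrix (Fin n) (Fin n) K₀)), TrN U → TrN (spn K U)

/-- BCH: base change of the commutant, of `Lef` and of the derived algebra. -/
def ST_BCH : Prop :=
  ∀ (K₀ K : Type) [Field K₀] [Field K] [Algebra K₀ K] (n : ℕ) (ψ : Matrix (Fin n) (Fin n) K₀)
    (U : Submodule K₀ (Matrix (Fin n) (Fin n) K₀)),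
    Cmt (spn K U) = spn K (Cmt U) ∧
    Lef (ψ.map (algebraMap K₀ K)) (spn K U) = spn K (Lef ψ U) ∧
    HG.der (spn K U) = spn K (HG.der U) ∧
    ∀ U' : Submodule K₀ (Matrix (Fin n) (Fin n) K₀), spn K U ≤ spn K U' → U ≤ U'

/-- SIM: from Lie algebras of similitudes to Lie algebras of isometries (from CORE). -/
def ST_SIMC : Prop :=
  ∀ (K : Type) [Field K] [CharZero K] [IsAlgClosed K] (n w : ℕ) (h : Fin n → ℕ)
    (ψ : Matrix (Fin n) (Fin n) K) (G : Submodule K (Matrix (Fin n) (Fin n) K))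
    (Fr : Set (Matrix.GeneralLinearGroup (Fin n) K)), 0 < w → 2 * ∑ j, h j = n * w →
    ψ.det ≠ 0 → ψ.transpose = (-1 : K) ^ w • ψ → Brk G →
    (∀ A ∈ G, ∃ c : K, A.transpose * ψ + ψ * A = c • ψ) → TrN G →
    (∀ X ∈ Cmt G, ∀ Y ∈ Cmt G, X * Y = Y * X) → Fr.Nonempty →
    (∀ P ∈ Fr, (P : Matrix (Fin n) (Fin n) K) * Matrix.diagonal (fun j => (h j : K)) *
        ((P⁻¹ : Matrix.GeneralLinearGroup (Fin n) K) : Matrix (Fin n) (Fin n) K) ∈ G ∧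
      ∀ X ∈ Cmt G, ∃ x : Fin n → K, X = (P : Matrix (Fin n) (Fin n) K) * Matrix.diagonal x *
        ((P⁻¹ : Matrix.GeneralLinearGroup (Fin n) K) : Matrix (Fin n) (Fin n) K)) →
    (∀ P ∈ Fr, ∀ k : Fin n, ∃ P' ∈ Fr, ∃ k' : Fin n, Sam G P k P' k' ∧
      GoodAt w h (fun j => Sam G P' j P' k') (∀ X ∈ Cmt G, evl P' (adj ψ X) k' = evl P' X k')
        k') →
    HG.der G = HG.der (Lef ψ G) ∧ ((∀ X ∈ Cmt G, adj ψ X = X) → ∀ A, A ∈ G ↔
      (∃ c : K, A.transpose * ψ + ψ * A = c • ψ) ∧ ∀ X ∈ Cmt G, A * X = X * A)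

end EM
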