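import Pool.Agent.Helper21.EM.Stmts

/-!
# Lie algebras defined over number fields: exact statements of the modules (T33, B)
Proofs: /team-store/em_helper21.md
-/

set_option autoImplicit false

open Matrix MT

namespace EM

/-- `a` is a ring homomorphism on the space of matrices `E` -/
structure RHom {R : Type} [Field R] {n : ℕ} (E : Submodule ℚ (Matrix (Fin n) (Fin n) ℚ))
    (a : Matrix (Fin n) (Fin n) ℚ → R) : Prop where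
  one : a 1 = 1
  add : ∀ X ∈ E, ∀ Y ∈ E, a (X + Y) = a X + a Y
  mul : ∀ X ∈ E, ∀ Y ∈ E, a (X * Y) = a X * a Y

/-- the infinitesimal isometries which commute with `E` -/
def LefE {n : ℕ} (ψ : Matrix (Fin n) (Fin n) ℚ) (E : Submodule ℚ (Matrix (Fin n) (Fin n) ℚ)) :
    Submodule ℚ (Matrix (Fin n) (Fin n) ℚ) where
  carrier := {A | A.transpose * ψ + ψ * A = 0 ∧ ∀ X ∈ E, A * X = X * A}
  add_mem' := fun {A B} hA hB => ⟨by
    rw [Matrix.transpose_add, Matrix.add_mul, Matrix.mul_add, add_add_add_comm, hA.1, hB.1,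
      add_zero], fun X hX => by rw [Matrix.mul_add, Matrix.add_mul, hA.2 X hX, hB.2 X hX]⟩
  zero_mem' := ⟨by rw [Matrix.transpose_zero, Matrix.zero_mul, Matrix.mul_zero, add_zero],
    fun X _ => by rw [Matrix.mul_zero, Matrix.zero_mul]⟩
  smul_mem' := fun c A hA => ⟨by
    rw [Matrix.transpose_smul, Matrix.smul_mul, Matrix.mul_smul, ← smul_add, hA.1, smul_zero],
    fun X hX => by rw [Matrix.mul_smul, Matrix.smul_mul, hA.2 X hX]⟩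

/-- EXH: automorphisms of `ℂ` (helper82's `AHS.exists_aut`). -/
def ST_EXH : Prop :=
  ∀ (n : ℕ) (E : Submodule ℚ (Matrix (Fin n) (Fin n) ℚ)) (a b : Matrix (Fin n) (Fin n) ℚ → ℂ),
    1 ∈ E → (∀ X ∈ E, ∀ Y ∈ E, X * Y ∈ E) → RHom E a → RHom E b →
    (∀ X ∈ E, a X = 0 ↔ b X = 0) → ∃ τ : ℂ ≃+* ℂ, ∀ X ∈ E, τ (a X) = b X

/-- EXT: extension of embeddings (`IsAlgClosed.lift`). -/
def ST_EXT : Prop :=
  ∀ (F C : Type) [Field F] [NumberField F] [Field C] [CharZero C] [IsAlgClosed C] (n : ℕ)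
    (E : Submodule ℚ (Matrix (Fin n) (Fin n) ℚ)) (a b : Matrix (Fin n) (Fin n) ℚ → F)
    (ι : F →+* C), 1 ∈ E → (∀ X ∈ E, ∀ Y ∈ E, X * Y ∈ E) → RHom E a → RHom E b →
    (∀ X ∈ E, a X = 0 ↔ b X = 0) → ∃ ι' : F →+* C, ∀ X ∈ E, ι' (a X) = ι (b X)

/-- HCO: Lie algebras over `ℚ` (from SIMC, BCH, TRB, EXH). -/
def ST_HCO : Prop :=
  ∀ (n w : ℕ) (h : Fin n → ℕ) (ψ : Matrix (Fin n) (Fin n) ℚ)
    (U : Submodule ℚ (Matrix (Fin n) (Fin n) ℚ)) (P : Matrix.GeneralLinearGroup (Fin n) ℂ)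
    (x : Matrix (Fin n) (Fin n) ℚ → Fin n → ℂ), 0 < w → 2 * ∑ j, h j = n * w → ψ.det ≠ 0 →
    ψ.transpose = (-1 : ℚ) ^ w • ψ → Brk U →
    (∀ A ∈ U, ∃ c : ℚ, A.transpose * ψ + ψ * A = c • ψ) → TrN U →
    (P : Matrix (Fin n) (Fin n) ℂ) * Matrix.diagonal (fun j => (h j : ℂ)) *
      ((P⁻¹ : Matrix.GeneralLinearGroup (Fin n) ℂ) : Matrix (Fin n) (Fin n) ℂ) ∈ spn ℂ U →
    (∀ X ∈ Cmt U, X.map (algebraMap ℚ ℂ) * (P : Matrix (Fin n) (Fin n) ℂ) =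
      (P : Matrix (Fin n) (Fin n) ℂ) * Matrix.diagonal (x X)) →
    (∀ k, ∃ k', (∀ X ∈ Cmt U, x X k = 0 ↔ x X k' = 0) ∧
      GoodAt w h (fun j => ∀ X ∈ Cmt U, x X j = x X k')
        (∀ X ∈ Cmt U, x (adj ψ X) k' = x X k') k') →
    HG.der U = HG.der (Lef ψ U) ∧ ((∀ X ∈ Cmt U, adj ψ X = X) → ∀ A, A ∈ U ↔
      (∃ c : ℚ, A.transpose * ψ + ψ * A = c • ψ) ∧ ∀ X ∈ Cmt U, A * X = X * A)

/-- LCO: Lie algebras over `K₀` whose commutant is defined over `ℚ` (from SIMC, BCH, TRB, EXT). -/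
def ST_LCO : Prop :=
  ∀ (K₀ C F : Type) [Field K₀] [CharZero K₀] [Field C] [CharZero C] [IsAlgClosed C]
    [Algebra K₀ C] [Field F] [NumberField F] (n w : ℕ) (h : Fin n → ℕ)
    (ψ : Matrix (Fin n) (Fin n) ℚ) (E : Submodule ℚ (Matrix (Fin n) (Fin n) ℚ))
    (U : Submodule K₀ (Matrix (Fin n) (Fin n) K₀)) (e : Matrix (Fin n) (Fin n) ℚ → Fin n → F),
    0 < w → 2 * ∑ j, h j = n * w → ψ.det ≠ 0 → ψ.transpose = (-1 : ℚ) ^ w • ψ → Brk U →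
    (∀ A ∈ U, ∃ c : K₀, A.transpose * ψ.map (algebraMap ℚ K₀) + ψ.map (algebraMap ℚ K₀) * A =
      c • ψ.map (algebraMap ℚ K₀)) → TrN U → Cmt U = spn K₀ E → 1 ∈ E →
    (∀ X ∈ E, ∀ Y ∈ E, X * Y ∈ E) → (∀ X ∈ E, adj ψ X ∈ E) →
    (∀ ι : F →+* C, ∃ P : Matrix.GeneralLinearGroup (Fin n) C,
      (P : Matrix (Fin n) (Fin n) C) * Matrix.diagonal (fun j => (h j : C)) *
        ((P⁻¹ : Matrix.GeneralLinearGroup (Fin n) C) : Matrix (Fin n) (Fin n) C) ∈ spn C U ∧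
      ∀ X ∈ E, X.map (algebraMap ℚ C) * (P : Matrix (Fin n) (Fin n) C) =
        (P : Matrix (Fin n) (Fin n) C) * Matrix.diagonal (fun j => ι (e X j))) →
    (∀ k, ∃ k', (∀ X ∈ E, e X k = 0 ↔ e X k' = 0) ∧
      GoodAt w h (fun j => ∀ X ∈ E, e X j = e X k') (∀ X ∈ E, e (adj ψ X) k' = e X k') k') →
    HG.der U = spn K₀ (HG.der (LefE ψ E)) ∧ ((∀ X ∈ E, adj ψ X = X) → ∀ A, A ∈ U ↔
      (∃ c : K₀, A.transpose * ψ.map (algebraMap ℚ K₀) + ψ.map (algebraMap ℚ K₀) * A =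
        c • ψ.map (algebraMap ℚ K₀)) ∧
      ∀ X ∈ E, A * X.map (algebraMap ℚ K₀) = X.map (algebraMap ℚ K₀) * A)

end EM
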