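import Pool.Agent.Helper21.EM.DefsM

/-!
# Motives with endomorphisms: exact statements of the modules (T33, C)
Proofs: /team-store/em_helper21.md
-/

set_option autoImplicit false

open NumberField MU MT MR HD

namespace EM

/-- MTX: matrices as tensors in `T^(1,1)`. -/
def ST_MTX : Prop :=
  (∀ (K : Type) [Field K] (n : ℕ) (X A : Matrix (Fin n) (Fin n) K),
    Kill A (mtx X) ↔ A * X = X * A) ∧
  (∀ (K : Type) [Field K] (n : ℕ) (X : Matrix (Fin n) (Fin n) K)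
    (g : Matrix.GeneralLinearGroup (Fin n) K), act g (mtx X) = mtx X ↔
      (g : Matrix (Fin n) (Fin n) K) * X = X * (g : Matrix (Fin n) (Fin n) K)) ∧
  (∀ (K : Type) [Field K] [Algebra ℚ K] (n : ℕ) (X : Matrix (Fin n) (Fin n) ℚ),
    (mtx X).base K = mtx (X.map (algebraMap ℚ K))) ∧
  ∀ (K : Type) [Field K] (n : ℕ) (t : Tensor n 1 1 K), ∃ X : Matrix (Fin n) (Fin n) K, t = mtx X

/-- TKR: `HG.ST_TK` for `RMot`. -/
def ST_TKR : Prop :=
  ∀ (F : Type) [Field F] [NumberField F] (n w : ℕ) (h : Fin n → ℕ)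
    (M : RMot F n w h) (l : ℕ) [Fact l.Prime] (a b : ℕ) (t : Tensor n a b ℚ_[l]),
    IsTateL M l t → ∀ A ∈ glie M l, Kill A t

/-- KTR: `HG.ST_KT` for `RMot`. -/
def ST_KTR : Prop :=
  ∀ (F : Type) [Field F] [NumberField F] (n w : ℕ) (h : Fin n → ℕ)
    (M : RMot F n w h) (l : ℕ) [Fact l.Prime] (a b : ℕ) (t : Tensor n a b ℚ_[l]),
    (∀ A ∈ glie M l, Kill A t) → IsTateL M l t

/-- HKR: `HG.ST_HK` for `RMot`. -/
def ST_HKR : Prop :=
  ∀ (F : Type) [Field F] [NumberField F] (n w : ℕ) (h : Fin n → ℕ)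
    (M : RMot F n w h), 0 < w → ∀ (a b : ℕ) (t : Tensor n a b ℚ),
    (∀ A ∈ mlie M, Kill A t) → M.IsHodge t

/-- GRPR: `HG.ST_GRP` for `RMot`. -/
def ST_GRPR : Prop :=
  ∀ (F : Type) [Field F] [NumberField F] (n w : ℕ) (h : Fin n → ℕ)
    (M : RMot F n w h), 0 < w → ∀ (l : ℕ) [Fact l.Prime],
    glie M l = spn ℚ_[l] (mlie M) →
    ∀ (K : Type) [Field K] [Algebra ℚ_[l] K], M.Gl0 l K = M.Gsigma K

/-- GLI: the monodromy Lie algebra. -/
def ST_GLI : Prop :=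
  ∀ (F : Type) [Field F] [NumberField F] (n w : ℕ) (h : Fin n → ℕ)
    (M : RMot F n w h) (l : ℕ) [Fact l.Prime], Brk (glie M l) ∧
    (∀ A ∈ glie M l, ∃ c : ℚ_[l], A.transpose * M.ψ.map (algebraMap ℚ ℚ_[l]) +
      M.ψ.map (algebraMap ℚ ℚ_[l]) * A = c • M.ψ.map (algebraMap ℚ ℚ_[l])) ∧
    ∀ (C : Type) [Field C] [Algebra ℚ_[l] C] (B : Matrix (Fin n) (Fin n) C),
      (∀ H : Subgroup (Gal F), IsOpen (H : Set (Gal F)) →
        ∀ f : MvPolynomial (Fin n × Fin n) ℚ_[l], (∀ σ ∈ H, ev (mat (M.ρ l) σ) f = 0) →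
        ∑ i, ∑ j, B i j * algebraMap ℚ_[l] C (ev 1 (MvPolynomial.pderiv (i, j) f)) = 0) →
      B ∈ spn C (glie M l)

/-- HTR: the algebra generated by the Lie algebra of the Mumford-Tate group (from the positivity
`MR.st_POS`; see helper6's `HG.alg_nondeg`). -/
def ST_HTR : Prop :=
  ∀ (F : Type) [Field F] [NumberField F] (n w : ℕ) (h : Fin n → ℕ)
    (M : RMot F n w h), 0 < w → TrN (mlie M)

/-- LTR: the algebra generated by the monodromy Lie algebra (from `HG.ST_ENG`, `HG.st_STB`). -/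
def ST_LTR : Prop :=
  ∀ (F : Type) [Field F] [NumberField F] (n w : ℕ) (h : Fin n → ℕ)
    (M : RMot F n w h) (l : ℕ) [Fact l.Prime], Semi M l → TrN (glie M l)

/-- HCM: the commutant (from MTX, HKR). -/
def ST_HCM : Prop :=
  ∀ (F : Type) [Field F] [NumberField F] (n w : ℕ) (h : Fin n → ℕ)
    (M : RMot F n w h), 0 < w → Cmt (mlie M) = HodgeEnd M ∧
      ∀ X, X ∈ HodgeEnd M ↔ M.IsHodge (mtx X)

/-- LCM: the commutant (from MTX, KTR, TKR, HCM). -/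
def ST_LCM : Prop :=
  ∀ (F : Type) [Field F] [NumberField F] (n w : ℕ) (h : Fin n → ℕ)
    (M : RMot F n w h) (l : ℕ) [Fact l.Prime], 0 < w →
    (∀ t : Tensor n 1 1 ℚ_[l], IsTateL M l t ↔ t ∈ hodgeSpan M ℚ_[l] 1 1) →
      Cmt (glie M l) = spn ℚ_[l] (HodgeEnd M)

/-- FINA: the Mumford-Tate group (from HCO, HCM, HTR, `MR.st_HLA`, `MR.st_HSM`). -/
def ST_FINA : Prop :=
  ∀ (F : Type) [Field F] [NumberField F] (n w : ℕ) (h : Fin n → ℕ) (M : EMot F n w h),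
    0 < w → M.EndMot → M.Good →
    HG.der (mlie M.toRMot) = HG.der (LefE M.ψ (HodgeEnd M.toRMot)) ∧
    (M.Real → ∀ A, A ∈ mlie M.toRMot ↔
      (∃ c : ℚ, A.transpose * M.ψ + M.ψ * A = c • M.ψ) ∧
        ∀ X ∈ HodgeEnd M.toRMot, A * X = X * A)

/-- FINB: the `l`-adic monodromy group (from FINA, LCO, LCM, LTR, GLI, BCH, GRPR, TKR, KTR, HKR,
`HG.st_BC`). -/
def ST_FINB : Prop :=
  ∀ (F : Type) [Field F] [NumberField F] (n w : ℕ) (h : Fin n → ℕ) (M : EMot F n w h)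
    (l : ℕ) [Fact l.Prime], 0 < w → M.EndMot → M.Good → Semi M.toRMot l →
    (∀ t : Tensor n 1 1 ℚ_[l], IsTateL M.toRMot l t ↔ t ∈ hodgeSpan M.toRMot ℚ_[l] 1 1) →
    HG.der (glie M.toRMot l) = HG.der (spn ℚ_[l] (mlie M.toRMot)) ∧
    (M.Real → (∀ (K : Type) [Field K] [Algebra ℚ_[l] K], M.Gl0 l K = M.Gsigma K) ∧
      ∀ (a b : ℕ) (t : Tensor n a b ℚ_[l]),
        IsTateL M.toRMot l t ↔ t ∈ hodgeSpan M.toRMot ℚ_[l] a b)

end EM
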