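import Pool.Agent.Helper21.EM.DefsH
import Pool.Agent.Helper21.EM.Stmts2
import Pool.Agent.Helper21.D2.Stmts

/-!
# Polarized Hodge structures with endomorphisms: exact statements of the modules (T33, D)
Proofs: /team-store/em2_helper21.md
-/

set_option autoImplicit false

namespace EH

open Matrix Pool.Agent.Helper82.AHS Pool.Agent.Helper21.TH

/-- HLI: the Lie algebra `aM V` (see GNRH.lean; for the algebra generated by it use the positivity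
of helper82's `AHS.key`). -/
def ST_HLI : Prop :=
  ∀ (r : ℕ) (V : HS r) (w : ℤ) (Q : Matrix (Fin r) (Fin r) ℚ), (∀ i, V.p i + V.q i = w) →
    V.Pol Q → MT.Brk (aM V) ∧ (∀ A ∈ aM V, ∃ c : ℚ, Aᵀ * Q + Q * A = c • Q) ∧ EM.TrN (aM V) ∧
      (∀ X, X ∈ EM.Cmt (aM V) ↔ IsEnd V X) ∧ 1 ∈ aM V ∧ V.D ∈ MT.spn ℂ (aM V)

/-- MTH: the Mumford-Tate group (from `EM.ST_HCO`, HLI, `TH.ST_SYM`). -/
def ST_MTH : Prop :=
  ∀ (r : ℕ) (V : HS r) (w : ℤ) (c w' : ℕ) (h : Fin r → ℕ) (P : GL (Fin r) ℂ)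
    (x : Matrix (Fin r) (Fin r) ℚ → Fin r → ℂ) (Q : Matrix (Fin r) (Fin r) ℚ), V.Pol Q →
    Ada V w c w' h P x → GoodH V Q w' h x →
      HG.der (aM V) = HG.der (EM.LefE Q (EndS V)) ∧
      ((∀ X, IsEnd V X → EM.adj Q X = X) → ∀ A, A ∈ aM V ↔
        (∃ c : ℚ, Aᵀ * Q + Q * A = c • Q) ∧ ∀ X, IsEnd V X → A * X = X * A)

/-- RDC: a Lie algebra of matrices which generates a semisimple algebra is the sum of its derived
algebra and its centre. -/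
def ST_RDC : Prop :=
  ∀ (K : Type) [Field K] [CharZero K] (n : ℕ) (L : Submodule K (Matrix (Fin n) (Fin n) K)),
    MT.Brk L → EM.TrN L → (∀ A ∈ L, (∀ B ∈ L, (A * B).trace = 0) → A = 0) →
      ∀ A ∈ L, ∃ B ∈ HG.der L, ∃ C ∈ L, (∀ D ∈ L, C * D = D * C) ∧ A = B + C

/-- PRA: Principle A (see helper82's `AHS.full_of`). -/
def ST_PRA : Prop :=
  ∀ (r : ℕ) (S : System r) (σ : ℂ ≃+* ℂ) (m n : ℕ) (t : T r m n ℚ),
    (∀ g : GL (Fin r) ℂ, (∀ (a b : ℕ) (s : T r a b ℚ), S.V.Hodge s → S.AbsAt σ s →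
      act g (up ℂ s) = up ℂ s) → act g (up ℂ t) = up ℂ t) →
    (∀ y : Matrix (Fin r) (Fin r) ℂ, (∀ (a b : ℕ) (s : T r a b ℚ), S.V.Hodge s → S.AbsAt σ s →
      dr a y * up ℂ s = up ℂ s * dr b y) → dr m y * up ℂ t = up ℂ t * dr n y) →
      S.AbsAt σ t

/-- WKE: weak absoluteness (from MTH, HLI, RDC, PRA, KPL, SML, `AHS.weak_of`,
`AHS.IsProj.conj`). -/
def ST_WKE : Prop :=
  ∀ (r : ℕ) (S : System r) (w : ℤ) (c w' : ℕ) (h : Fin r → ℕ) (P : GL (Fin r) ℂ)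
    (x : Matrix (Fin r) (Fin r) ℚ → Fin r → ℂ), Ada S.V w c w' h P x → GoodH S.V S.Q w' h x →
    ∀ σ : ℂ ≃+* ℂ, S.AbsAt σ (polT S.Q) → (∀ X, IsEnd S.V X → S.AbsAt σ (t11 X)) → S.Weak σ

/-- BTN: the block version of TNT. -/
def ST_BTN : Prop :=
  ∀ (K : Type) [Field K] [CharZero K] (r m n r' : ℕ) (ψ : Matrix (Fin r') (Fin r') K)
    (U : Matrix (Fin r) (Fin r') K) (V : Matrix (Fin r') (Fin r) K) (t : T r m n K), ψ.det ≠ 0 →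
    (ψᵀ = ψ ∨ ψᵀ = -ψ) → V * U = 1 →
    (∀ Y : Matrix (Fin r') (Fin r') K, Yᵀ * ψ + ψ * Y = 0 →
      dr m (U * Y * V) * t = t * dr n (U * Y * V)) →
    ∀ g : GL (Fin r') K, (g : Matrix (Fin r') (Fin r') K)ᵀ * ψ *
        (g : Matrix (Fin r') (Fin r') K) = ψ →
      ((g : Matrix (Fin r') (Fin r') K).det = 1 ∨ m + n < r') →
      pw m (U * (g : Matrix (Fin r') (Fin r') K) * V + (1 - U * V)) * t =
        t * pw n (U * (g : Matrix (Fin r') (Fin r') K) * V + (1 - U * V))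

/-- BLK: isometries which preserve the blocks (from BTN). -/
def ST_BLK : Prop :=
  ∀ (K : Type) [Field K] [CharZero K] (r m n : ℕ) (Q : Matrix (Fin r) (Fin r) K)
    (P : GL (Fin r) K) (cl : Fin r → Fin r) (t : T r m n K), Q.det ≠ 0 → (Qᵀ = Q ∨ Qᵀ = -Q) →
    (∀ i j, ((P : Matrix (Fin r) (Fin r) K)ᵀ * Q * (P : Matrix (Fin r) (Fin r) K)) i j ≠ 0 →
      cl i = cl j) →
    (∀ y : Matrix (Fin r) (Fin r) K, yᵀ * Q + Q * y = 0 →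
      (∀ i j, (((P⁻¹ : GL (Fin r) K) : Matrix (Fin r) (Fin r) K) * y *
        (P : Matrix (Fin r) (Fin r) K)) i j ≠ 0 → cl i = cl j) → dr m y * t = t * dr n y) →
    (Qᵀ = -Q ∨ ∀ k, m + n < (Finset.univ.filter fun j => cl j = cl k).card) →
    ∀ g : GL (Fin r) K, (g : Matrix (Fin r) (Fin r) K)ᵀ * Q * (g : Matrix (Fin r) (Fin r) K) = Q →
      (∀ i j, (((P⁻¹ : GL (Fin r) K) : Matrix (Fin r) (Fin r) K) *
        (g : Matrix (Fin r) (Fin r) K) * (P : Matrix (Fin r) (Fin r) K)) i j ≠ 0 →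
        cl i = cl j) → act g t = t

/-- FXH: Hodge tensors are fixed by the isometries which commute with the endomorphisms (from MTH,
BLK, `EM.ST_BCH`, HLI, WT0). -/
def ST_FXH : Prop :=
  ∀ (r : ℕ) (V : HS r) (w : ℤ) (c w' : ℕ) (h : Fin r → ℕ) (P : GL (Fin r) ℂ)
    (x : Matrix (Fin r) (Fin r) ℚ → Fin r → ℂ) (Q : Matrix (Fin r) (Fin r) ℚ), V.Pol Q →
    Ada V w c w' h P x → GoodH V Q w' h x → (∀ X, IsEnd V X → EM.adj Q X = X) →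
    ∀ (m n : ℕ) (t : T r m n ℚ), V.Hodge t →
    (∀ y : Matrix (Fin r) (Fin r) ℂ, yᵀ * Q.map (algebraMap ℚ ℂ) + Q.map (algebraMap ℚ ℂ) * y = 0 →
      (∀ X, IsEnd V X → y * X.map (algebraMap ℚ ℂ) = X.map (algebraMap ℚ ℂ) * y) →
      dr m y * up ℂ t = up ℂ t * dr n y) ∧
    ((Odd w ∨ ∀ k, m + n < bsz V x k) →
      ∀ g : GL (Fin r) ℂ, (g : Matrix (Fin r) (Fin r) ℂ)ᵀ * Q.map (algebraMap ℚ ℂ) *
        (g : Matrix (Fin r) (Fin r) ℂ) = Q.map (algebraMap ℚ ℂ) →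
        (∀ X, IsEnd V X → (g : Matrix (Fin r) (Fin r) ℂ) * X.map (algebraMap ℚ ℂ) =
          X.map (algebraMap ℚ ℂ) * (g : Matrix (Fin r) (Fin r) ℂ)) →
        act g (up ℂ t) = up ℂ t)

/-- FINH: the theorem (from WKE, FXH, PRA, KPL, SML, WT0). -/
def ST_FINH : Prop :=
  ∀ (r : ℕ) (S : System r) (w : ℤ) (c w' : ℕ) (h : Fin r → ℕ) (P : GL (Fin r) ℂ)
    (x : Matrix (Fin r) (Fin r) ℚ → Fin r → ℂ), Ada S.V w c w' h P x → GoodH S.V S.Q w' h x →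
    ∀ σ : ℂ ≃+* ℂ, S.AbsAt σ (polT S.Q) → (∀ X, IsEnd S.V X → S.AbsAt σ (t11 X)) →
    S.Weak σ ∧
    ((∀ X, IsEnd S.V X → EM.adj S.Q X = X) → ∀ (m n : ℕ) (t : T r m n ℚ), S.V.Hodge t →
      (m = n ∨ w ≠ 0 ∨ S.AbsAt σ (formT S.Q)) →
      (Odd w ∨ ∀ k, m + n < bsz S.V x k) → S.AbsAt σ t)

end EH
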